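import Mathlib
import Pool.Agent.Work.MP_8efaaa_nt.R.FGal

/-!
# W5/E1: the kernel of reduction of `y ^ 2 = x ^ 3 - x` (block E, helper78)

`V` is any valuation of `F` (with `V 2 = 1` where stated).  `E1 V` is the group of the points with
`V x > 1` (and `0`).
-/

set_option autoImplicit false

namespace Pool.Agent.Work.MP_8efaaa_nt.W5

open Pool.Agent.Work.MP_8efaaa_nt.R
open WeierstrassCurve WeierstrassCurve.Affine
open scoped Classical

noncomputable section

variable {F : Type*} [Field F] [CharZero F] {Γ : Type*} [LinearOrderedCommGroupWithZero Γ]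

/-! ### addition formulas -/

theorem neg_pt {x y : F} (h : y ^ 2 = x ^ 3 - x) :
    -(pt x y h) = pt x (-y) (by rw [neg_sq]; exact h) := by
  unfold pt
  rw [Point.neg_some, Point.some.injEq]
  exact ⟨rfl, negY_cQ x y⟩

theorem add_pt {x1 y1 x2 y2 : F} (h1 : y1 ^ 2 = x1 ^ 3 - x1) (h2 : y2 ^ 2 = x2 ^ 3 - x2)
    (hx : x1 ≠ x2) : ∃ (x3 y3 : F) (h3 : y3 ^ 2 = x3 ^ 3 - x3),
      pt x1 y1 h1 + pt x2 y2 h2 = pt x3 y3 h3 ∧
        x3 * (x1 - x2) ^ 2 = (y1 - y2) ^ 2 - (x1 + x2) * (x1 - x2) ^ 2 := by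
  have hn : (cQ F).Nonsingular ((cQ F).addX x1 x2 ((cQ F).slope x1 x2 y1 y2))
      ((cQ F).addY x1 x2 y1 ((cQ F).slope x1 x2 y1 y2)) :=
    nonsingular_add (cQ_nonsingular.2 h1) (cQ_nonsingular.2 h2) (fun hc => hx hc.1)
  refine ⟨_, _, cQ_nonsingular.1 hn, ?_, ?_⟩
  · unfold pt
    rw [Point.add_of_X_ne hx]
  · rw [slope_of_X_ne hx]
    simp only [addX, cQ]
    have h5 : x1 - x2 ≠ 0 := sub_ne_zero.2 hx
    field_simp
    ring

theorem dbl_pt {x y : F} (h : y ^ 2 = x ^ 3 - x) (hy : y ≠ 0) :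
    ∃ (x3 y3 : F) (h3 : y3 ^ 2 = x3 ^ 3 - x3), pt x y h + pt x y h = pt x3 y3 h3 ∧
      x3 * (2 * y) ^ 2 = (x ^ 2 + 1) ^ 2 := by
  obtain ⟨x', y', hn', e1, e2, -, -⟩ := double (cQ_nonsingular.2 h) hy
  refine ⟨x', y', cQ_nonsingular.1 hn', e1, ?_⟩
  rw [e2]
  have : (2 : F) ≠ 0 := two_ne_zero
  field_simp

/-! ### valuations -/

section val

variable (V : Valuation F Γ)

omit [CharZero F] in
theorem vle {a b : F} (ha : V a ≤ 1) (hb : V b ≤ 1) : V (a + b) ≤ 1 :=
  (V.map_add a b).trans (max_le ha hb)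

omit [CharZero F] in
theorem vlt {a b : F} (ha : V a < 1) (hb : V b < 1) : V (a + b) < 1 :=
  lt_of_le_of_lt (V.map_add a b) (max_lt ha hb)

omit [CharZero F] in
theorem vltm {a b : F} (ha : V a ≤ 1) (hb : V b < 1) : V (a * b) < 1 := by
  rw [map_mul]
  calc V a * V b ≤ 1 * V b := by gcongr
    _ = V b := one_mul _
    _ < 1 := hb

omit [CharZero F] in
theorem vlem {a b : F} (ha : V a ≤ 1) (hb : V b ≤ 1) : V (a * b) ≤ 1 := by
  rw [map_mul]
  exact mul_le_one' ha hb

omit [CharZero F] in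
theorem vsq {a : F} (ha : V (a ^ 2) < 1) : V a < 1 := by
  rw [map_pow] at ha
  by_contra h
  push Not at h
  exact absurd ha (not_lt.2 (one_le_pow₀ h))

omit [CharZero F] in
theorem vsq_le {a : F} (ha : V (a ^ 2) ≤ 1) : V a ≤ 1 := by
  rw [map_pow] at ha
  by_contra h
  push Not at h
  exact absurd ha (not_le.2 (one_lt_pow₀ h two_ne_zero))

omit [CharZero F] in
theorem vnat (n : ℕ) : V (n : F) ≤ 1 := by
  induction n with
  | zero => rw [Nat.cast_zero, map_zero]; exact zero_le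
  | succ n ih =>
    rw [Nat.cast_succ]
    exact vle V ih (by rw [map_one])

omit [CharZero F] in
theorem vone : ¬ V (1 : F) < 1 := by
  rw [map_one]
  exact lt_irrefl _

omit [CharZero F] in
/-- the second coordinate of an integral point is integral -/
theorem v_y {x y : F} (h : y ^ 2 = x ^ 3 - x) (hx : V x ≤ 1) : V y ≤ 1 := by
  apply vsq_le
  rw [h, show x ^ 3 - x = x * (x ^ 2 + -1) by ring]
  refine vlem V hx (vle V ?_ ?_)
  · rw [map_pow]; exact pow_le_one₀ zero_le hx
  · rw [Valuation.map_neg, map_one]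

omit [CharZero F] in
/-- the first coordinate is integral if the second is -/
theorem v_x {x y : F} (h : y ^ 2 = x ^ 3 - x) (hy : V y ≤ 1) : V x ≤ 1 := by
  by_contra hx
  push Not at hx
  have h1 : V (x ^ 3 + -x) = V (x ^ 3) := by
    apply Valuation.map_add_eq_of_lt_left
    rw [Valuation.map_neg, map_pow]
    calc V x = V x ^ 1 := (pow_one _).symm
      _ < V x ^ 3 := pow_lt_pow_right₀ hx (by norm_num)
  have h2 : V (y ^ 2) = V x ^ 3 := by
    rw [h, sub_eq_add_neg, h1, map_pow]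
  have h3 : V (y ^ 2) ≤ 1 := by rw [map_pow]; exact pow_le_one₀ zero_le hy
  rw [h2] at h3
  exact absurd h3 (not_le.2 (one_lt_pow₀ hx (by norm_num)))

/-- the sum of an integral point and a point of the kernel of reduction is integral -/
theorem int_add {x y p q : F} (h : y ^ 2 = x ^ 3 - x) (h' : q ^ 2 = p ^ 3 - p) (hx1 : 1 < V x)
    (hVp : V p ≤ 1) : ∃ (x3 y3 : F) (h3 : y3 ^ 2 = x3 ^ 3 - x3),
      pt x y h + pt p q h' = pt x3 y3 h3 ∧ V x3 ≤ 1 := by
  have hxp : x ≠ p := by
    rintro rfl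
    exact absurd hVp (not_le.2 hx1)
  obtain ⟨x3, y3, h3, e, h1⟩ := add_pt h h' hxp
  refine ⟨x3, y3, h3, e, ?_⟩
  have hVq : V q ≤ 1 := v_y V h' hVp
  have hx0 : 0 < V x := lt_trans zero_lt_one hx1
  have h2 : V (x - p) = V x := by
    rw [Valuation.map_sub_eq_of_lt_left]
    exact lt_of_le_of_lt hVp hx1
  have h3' : x3 * (x - p) ^ 2 = p * x ^ 2 + ((p ^ 2 + -1) * x + (-p + (-2 * q) * y)) := by
    linear_combination h1 + h + h'
  have hVy : V y ≤ V x ^ 2 := by
    by_contra h4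
    push Not at h4
    have h5 : (V x ^ 2) ^ 2 < V y ^ 2 := pow_lt_pow_left₀ h4 zero_le two_ne_zero
    rw [← map_pow V y, h] at h5
    refine absurd h5 (not_lt.2 ?_)
    rw [show x ^ 3 - x = x ^ 3 + -x by ring]
    refine (V.map_add _ _).trans (max_le ?_ ?_)
    · rw [map_pow, ← pow_mul]
      exact pow_le_pow_right₀ hx1.le (by norm_num)
    · rw [Valuation.map_neg, ← pow_mul]
      calc V x = V x ^ 1 := (pow_one _).symm
        _ ≤ _ := pow_le_pow_right₀ hx1.le (by norm_num)
  have hx2 : 1 ≤ V x ^ 2 := one_le_pow₀ hx1.le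
  have hxx2 : V x ≤ V x ^ 2 := by
    calc V x = V x ^ 1 := (pow_one _).symm
      _ ≤ _ := pow_le_pow_right₀ hx1.le (by norm_num)
  have h4 : V (x3 * (x - p) ^ 2) ≤ V x ^ 2 := by
    rw [h3']
    have aux : ∀ a b : F, V a ≤ 1 → V b ≤ V x ^ 2 → V (a * b) ≤ V x ^ 2 := by
      intro a b ha hb
      rw [map_mul]
      calc V a * V b ≤ 1 * V b := by gcongr
        _ = V b := one_mul _
        _ ≤ _ := hb
    refine (V.map_add _ _).trans (max_le ?_ ((V.map_add _ _).trans (max_le ?_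
      ((V.map_add _ _).trans (max_le ?_ ?_)))))
    · exact aux _ _ hVp (by rw [map_pow])
    · refine aux _ _ (vle V ?_ ?_) hxx2
      · rw [map_pow]; exact pow_le_one₀ zero_le hVp
      · rw [Valuation.map_neg, map_one]
    · rw [Valuation.map_neg]
      exact hVp.trans hx2
    · refine aux _ _ ?_ hVy
      rw [show (-2 : F) * q = -((2 : ℕ) * q) by push_cast; ring, Valuation.map_neg]
      exact vlem V (vnat V 2) hVq
  rw [map_mul, map_pow, h2] at h4
  by_contra h6
  push Not at h6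
  have h5 : 1 * V x ^ 2 < V x3 * V x ^ 2 := by
    have : 0 < V x ^ 2 := pow_pos hx0 2
    gcongr
  rw [one_mul] at h5
  exact absurd h4 (not_le.2 h5)

end val

/-! ### the group -/

/-- the kernel of reduction -/
def E1 (V : Valuation F Γ) : AddSubgroup (cQ F).Point where
  carrier := {P | ∀ (x y : F) (h : y ^ 2 = x ^ 3 - x), P = pt x y h → 1 < V x}
  zero_mem' := fun x y h e => absurd e.symm (pt_ne h)
  neg_mem' := by
    intro P hP x y h e
    exact hP x (-y) (by rw [neg_sq]; exact h) (by rw [← neg_pt h, ← e, neg_neg])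
  add_mem' := by
    intro P Q hP hQ x3 y3 h3 e
    rcases pt_cases P with rfl | ⟨x1, y1, h1, rfl⟩
    · rw [zero_add] at e
      exact hQ _ _ _ e
    rcases pt_cases Q with rfl | ⟨x2, y2, h2, rfl⟩
    · rw [add_zero] at e
      exact hP _ _ _ e
    have hx1 := hP _ _ _ rfl
    have hx2 := hQ _ _ _ rfl
    by_contra hx3
    push Not at hx3
    obtain ⟨x4, y4, h4, e4, hx4⟩ := int_add V (x := x2) (y := -y2)
      (by rw [neg_sq]; exact h2) h3 hx2 hx3
    rw [← neg_pt h2, ← e] at e4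
    have e5 : pt x1 y1 h1 = pt x4 y4 h4 := by rw [← e4]; abel
    rw [pt_inj] at e5
    rw [e5.1] at hx1
    exact absurd hx4 (not_le.2 hx1)

variable {V : Valuation F Γ}

theorem pt_mem {x y : F} {h : y ^ 2 = x ^ 3 - x} : pt x y h ∈ E1 V ↔ 1 < V x := by
  constructor
  · intro hP
    exact hP x y h rfl
  · intro hx x' y' h' e
    rw [pt_inj] at e
    rw [← e.1]
    exact hx

/-- the kernel of reduction has no torsion of two power order -/
theorem two_tors {T : (cQ F).Point} (hT : T ∈ E1 V) (h2 : T + T = 0) : T = 0 := by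
  rcases pt_cases T with rfl | ⟨x, y, h, rfl⟩
  · rfl
  exfalso
  rw [pt_mem] at hT
  by_cases hy : y = 0
  · have h6 : x * ((x - 1) * (x + 1)) = 0 := by rw [hy] at h; linear_combination -h
    have hle : V x ≤ 1 := by
      rcases mul_eq_zero.1 h6 with h7 | h7
      · rw [h7, map_zero]; exact zero_le
      · rcases mul_eq_zero.1 h7 with h8 | h8
        · rw [sub_eq_zero.1 h8, map_one]
        · rw [eq_neg_of_add_eq_zero_left h8, Valuation.map_neg, map_one]
    exact absurd hle (not_le.2 hT)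
  · obtain ⟨x3, y3, h3, e, -⟩ := dbl_pt h hy
    rw [e] at h2
    exact pt_ne _ h2

theorem two_pow_tors {T : (cQ F).Point} (hT : T ∈ E1 V) (n : ℕ) (h2 : ((2 : ℤ) ^ n) • T = 0) :
    T = 0 := by
  induction n with
  | zero => simpa using h2
  | succ n ih =>
    apply ih
    apply two_tors ((E1 V).zsmul_mem hT _)
    rw [← two_zsmul, smul_smul, ← pow_succ']
    exact h2

theorem four_tors {T : (cQ F).Point} (hT : T ∈ E1 V) (h4 : (4 : ℤ) • T = 0) : T = 0 := by
  apply two_pow_tors hT 2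
  norm_num
  exact h4

/-- points with congruent coordinates have their difference in the kernel of reduction -/
theorem sub_mem {x y x' y' : F} {h : y ^ 2 = x ^ 3 - x} {h' : y' ^ 2 = x' ^ 3 - x'}
    (hV2 : V 2 = 1) (hx1 : V x ≤ 1) (hix : V (x' - x) < 1) (hiy : V (y' - y) < 1) :
    pt x' y' h' - pt x y h ∈ E1 V := by
  have hy1 : V y ≤ 1 := v_y V h hx1
  have hιx1 : V x' ≤ 1 := by
    rw [show x' = (x' - x) + x by ring]
    exact vle V hix.le hx1
  have hιy1 : V y' ≤ 1 := v_y V h' hιx1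
  have hm1 : V (-1 : F) ≤ 1 := by rw [Valuation.map_neg, map_one]
  have hV4 : V (4 : F) = 1 := by
    rw [show (4 : F) = 2 * 2 by norm_num, map_mul, hV2, one_mul]
  have h18 : V (18 : F) ≤ 1 := by exact_mod_cast vnat V 18
  have h6 : V (6 : F) ≤ 1 := by exact_mod_cast vnat V 6
  have hx2 : V (x ^ 2) ≤ 1 := by rw [map_pow]; exact pow_le_one₀ zero_le hx1
  rw [sub_eq_add_neg, neg_pt]
  have hyn : (-y) ^ 2 = x ^ 3 - x := by rw [neg_sq]; exact h
  intro p q hpq hsub
  by_contra hp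
  push Not at hp
  by_cases hxx : x' = x
  · have h1 : (y' - y) * (y' + y) = 0 := by
      rw [hxx] at h'
      linear_combination h' - h
    have hne : y' ≠ y := by
      intro h3
      have h4 : pt x' y' h' = pt x y h := by rw [pt_inj]; exact ⟨hxx, h3⟩
      rw [h4, ← neg_pt h, add_neg_cancel] at hsub
      exact pt_ne hpq hsub.symm
    have h2 := (mul_eq_zero.1 h1).resolve_left (sub_ne_zero.2 hne)
    have h3 : y' = -y := by linear_combination h2
    have hy0 : -y ≠ 0 := by
      intro hy0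
      apply hne
      rw [h3, hy0]
      linear_combination hy0
    have h4 : pt x' y' h' = pt x (-y) hyn := by rw [pt_inj]; exact ⟨hxx, h3⟩
    obtain ⟨x3, y3, h3', e3, h5⟩ := dbl_pt hyn hy0
    rw [h4, e3, pt_inj] at hsub
    rw [hsub.1] at h5
    have h6' : V (2 * y) < 1 := by
      rw [h3, show -y - y = -(2 * y) by ring, Valuation.map_neg] at hiy
      exact hiy
    have h7 : V y < 1 := by
      rw [map_mul, hV2, one_mul] at h6'
      exact h6'
    have h8 : V (x ^ 2 + 1) < 1 := by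
      apply vsq V
      rw [← h5, show p * (2 * -y) ^ 2 = (p * (2 * y)) * (2 * y) by ring]
      exact vltm V (vlem V hp h6'.le) h6'
    have h9 : V (y ^ 2) < 1 := by rw [pow_two]; exact vltm V hy1 h7
    have h10 : V (2 * x) < 1 := by
      rw [show 2 * x = x * (x ^ 2 + 1) + (-1) * y ^ 2 by rw [h]; ring]
      exact vlt V (vltm V hx1 h8) (vltm V hm1 h9)
    have h11 : V x < 1 := by
      rw [map_mul, hV2, one_mul] at h10
      exact h10
    apply vone V
    rw [show (1 : F) = (x ^ 2 + 1) + (-x) * x by ring]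
    refine vlt V h8 (vltm V ?_ h11)
    rw [Valuation.map_neg]
    exact hx1
  · obtain ⟨x3, y3, h3, e3, h1⟩ := add_pt h' hyn hxx
    rw [e3, pt_inj] at hsub
    rw [hsub.1] at h1
    have hsum : V (y' + y) < 1 := by
      apply vsq V
      rw [show (y' + y) ^ 2 = (p * (x' - x)) * (x' - x) + ((x' + x) * (x' - x)) * (x' - x) by
        linear_combination -h1]
      exact vlt V (vltm V (vlem V hp hix.le) hix)
        (vltm V (vlem V (vle V hιx1 hx1) hix.le) hix)
    have h2y : V (2 * y) < 1 := by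
      rw [show 2 * y = (y' + y) + (-1) * (y' - y) by ring]
      exact vlt V hsum (vltm V hm1 hiy)
    have hy : V y < 1 := by
      rw [map_mul, hV2, one_mul] at h2y
      exact h2y
    have hxy2 : V (y ^ 2) < 1 := by rw [pow_two]; exact vltm V hy1 hy
    have hkey : ¬ V (x' ^ 2 + x' * x + x ^ 2 - 1) < 1 := by
      intro hlt
      have h3 : V (3 * x ^ 2 - 1) < 1 := by
        rw [show 3 * x ^ 2 - 1 = (x' ^ 2 + x' * x + x ^ 2 - 1) + (-(x' + (x + x))) * (x' - x) by
          ring]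
        refine vlt V hlt (vltm V ?_ hix)
        rw [Valuation.map_neg]
        exact vle V hιx1 (vle V hx1 hx1)
      have h4 : V (4 : F) < 1 := by
        rw [show (4 : F) = (6 * x ^ 2 + -4) * (3 * x ^ 2 - 1) + (-(18 * x)) * y ^ 2 by
          rw [h]; ring]
        refine vlt V (vltm V (vle V (vlem V h6 hx2) ?_) h3) (vltm V ?_ hxy2)
        · rw [Valuation.map_neg, hV4]
        · rw [Valuation.map_neg]
          exact vlem V h18 hx1
      rw [hV4] at h4
      exact lt_irrefl _ h4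
    apply hkey
    apply vsq V
    have hne : x' - x ≠ 0 := sub_ne_zero.2 hxx
    have h3 : (y' + y) * (y' - y) = (x' - x) * (x' ^ 2 + x' * x + x ^ 2 - 1) := by
      linear_combination h' - h
    have h4 : (x' ^ 2 + x' * x + x ^ 2 - 1) ^ 2 =
        (p * (y' - y)) * (y' - y) + ((x' + x) * (y' - y)) * (y' - y) := by
      have h5 : (x' - x) ^ 2 * (x' ^ 2 + x' * x + x ^ 2 - 1) ^ 2 =
        (x' - x) ^ 2 * ((p * (y' - y)) * (y' - y) + ((x' + x) * (y' - y)) * (y' - y)) := by
        rw [← mul_pow, ← h3]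
        linear_combination (-(y' - y) ^ 2) * h1
      exact mul_left_cancel₀ (pow_ne_zero 2 hne) h5
    rw [h4]
    exact vlt V (vltm V (vlem V hp hiy.le) hiy)
      (vltm V (vlem V (vle V hιx1 hx1) hiy.le) hiy)

/-- a point congruent to an integral point is integral -/
theorem int_of_sub_mem {x y x' y' : F} {h : y ^ 2 = x ^ 3 - x} {h' : y' ^ 2 = x' ^ 3 - x'}
    (hx1 : V x ≤ 1) (hd : pt x' y' h' - pt x y h ∈ E1 V) : V x' ≤ 1 := by
  rcases pt_cases (pt x' y' h' - pt x y h) with h0 | ⟨p, q, hpq, e⟩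
  · rw [sub_eq_zero, pt_inj] at h0
    rw [h0.1]
    exact hx1
  · rw [e, pt_mem] at hd
    obtain ⟨x3, y3, h3, e3, hx3⟩ := int_add V hpq h hd hx1
    have : pt x' y' h' = pt x3 y3 h3 := by rw [← e3, ← e]; abel
    rw [pt_inj] at this
    rw [this.1]
    exact hx3

/-- `2 R` in the kernel of reduction -/
theorem dbl_mem {x y : F} {h : y ^ 2 = x ^ 3 - x} (hV2 : V 2 = 1) (hx1 : V x ≤ 1)
    (hd : pt x y h + pt x y h ∈ E1 V) : V y < 1 := by
  by_contra hy
  have hy1 : V y = 1 := le_antisymm (v_y V h hx1) (not_lt.1 hy)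
  have hy0 : y ≠ 0 := by
    rintro rfl
    rw [map_zero] at hy1
    exact zero_ne_one hy1
  obtain ⟨x3, y3, h3, e3, h1⟩ := dbl_pt h hy0
  rw [e3, pt_mem] at hd
  have h2 : V x3 = V ((x ^ 2 + 1) ^ 2) := by
    rw [← h1, map_mul, map_pow, map_mul, hV2, hy1, one_mul, one_pow, mul_one]
  rw [h2, map_pow] at hd
  refine absurd hd (not_lt.2 (pow_le_one₀ zero_le (vle V ?_ (by rw [map_one]))))
  rw [map_pow]
  exact pow_le_one₀ zero_le hx1

/-- points with difference in the kernel of reduction have congruent first coordinates -/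
theorem x_of_sub_mem {x y x' y' : F} {h : y ^ 2 = x ^ 3 - x} {h' : y' ^ 2 = x' ^ 3 - x'}
    (hx1 : V x ≤ 1) (hd : pt x' y' h' - pt x y h ∈ E1 V) : V (x' - x) < 1 := by
  rcases pt_cases (pt x' y' h' - pt x y h) with h0 | ⟨p, q, hpq, e⟩
  · rw [sub_eq_zero, pt_inj] at h0
    rw [h0.1, sub_self, map_zero]
    exact zero_lt_one
  · rw [e, pt_mem] at hd
    have hy1 : V y ≤ 1 := v_y V h hx1
    have hpx : p ≠ x := by
      rintro rfl
      exact absurd hx1 (not_le.2 hd)
    obtain ⟨x3, y3, h3, e3, h1⟩ := add_pt hpq h hpx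
    have e4 : pt x' y' h' = pt x3 y3 h3 := by rw [← e3, ← e]; abel
    rw [pt_inj] at e4
    rw [← e4.1] at h1
    -- `(x' - x)(p - x)^2 = y^2 - 2 y q - p + 3 x^2 p - 2 x^3`
    have h2 : (x' - x) * (p - x) ^ 2 =
        (3 * x ^ 2 + -1) * p + ((-(2 * y)) * q + (y ^ 2 + -(2 * x ^ 3))) := by
      linear_combination h1 + hpq
    have hpx' : V (p - x) = V p := by
      rw [Valuation.map_sub_eq_of_lt_left]
      exact lt_of_le_of_lt hx1 hd
    have hp0 : 0 < V p := lt_trans zero_lt_one hd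
    have hpp : V p < V p ^ 2 := by
      calc V p = V p ^ 1 := (pow_one _).symm
        _ < V p ^ 2 := pow_lt_pow_right₀ hd (by norm_num)
    have h1p : 1 < V p ^ 2 := lt_trans hd hpp
    have hq : V q < V p ^ 2 := by
      by_contra h4
      push Not at h4
      have h5 : (V p ^ 2) ^ 2 ≤ V q ^ 2 := pow_le_pow_left₀ zero_le h4 2
      rw [← map_pow V q, hpq] at h5
      refine absurd h5 (not_le.2 ?_)
      rw [show p ^ 3 - p = p ^ 3 + -p by ring]
      refine lt_of_le_of_lt (V.map_add _ _) (max_lt ?_ ?_)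
      · rw [map_pow, ← pow_mul]
        exact pow_lt_pow_right₀ hd (by norm_num)
      · rw [Valuation.map_neg, ← pow_mul]
        calc V p = V p ^ 1 := (pow_one _).symm
          _ < _ := pow_lt_pow_right₀ hd (by norm_num)
    have hx2 : V (x ^ 2) ≤ 1 := by rw [map_pow]; exact pow_le_one₀ zero_le hx1
    have hx3 : V (x ^ 3) ≤ 1 := by rw [map_pow]; exact pow_le_one₀ zero_le hx1
    have hy2 : V (y ^ 2) ≤ 1 := by rw [map_pow]; exact pow_le_one₀ zero_le hy1
    have h3' : V (3 : F) ≤ 1 := by exact_mod_cast vnat V 3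
    have h2' : V (2 : F) ≤ 1 := by exact_mod_cast vnat V 2
    have aux : ∀ a b : F, V a ≤ 1 → V b < V p ^ 2 → V (a * b) < V p ^ 2 := by
      intro a b ha hb
      rw [map_mul]
      calc V a * V b ≤ 1 * V b := by gcongr
        _ = V b := one_mul _
        _ < _ := hb
    have h4 : V ((x' - x) * (p - x) ^ 2) < V p ^ 2 := by
      rw [h2]
      refine lt_of_le_of_lt (V.map_add _ _) (max_lt ?_ (lt_of_le_of_lt (V.map_add _ _)
        (max_lt ?_ ?_)))
      · refine aux _ _ (vle V (vlem V h3' hx2) ?_) hpp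
        rw [Valuation.map_neg, map_one]
      · refine aux _ _ ?_ hq
        rw [Valuation.map_neg]
        exact vlem V h2' hy1
      · refine lt_of_le_of_lt (vle V hy2 ?_) h1p
        rw [Valuation.map_neg]
        exact vlem V h2' hx3
    rw [map_mul, map_pow, hpx'] at h4
    by_contra h6
    push Not at h6
    have h5 : V p ^ 2 ≤ V (x' - x) * V p ^ 2 := by
      calc V p ^ 2 = 1 * V p ^ 2 := (one_mul _).symm
        _ ≤ _ := by gcongr
    exact absurd h4 (not_lt.2 h5)

/-- points with difference in the kernel of reduction have congruent second coordinates -/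
theorem y_of_sub_mem {x y x' y' : F} {h : y ^ 2 = x ^ 3 - x} {h' : y' ^ 2 = x' ^ 3 - x'}
    (hV2 : V 2 = 1) (hx1 : V x ≤ 1) (hd : pt x' y' h' - pt x y h ∈ E1 V) : V (y' - y) < 1 := by
  have hx' := int_of_sub_mem hx1 hd
  have hxx := x_of_sub_mem hx1 hd
  have hy1 : V y ≤ 1 := v_y V h hx1
  have hy1' : V y' ≤ 1 := v_y V h' hx'
  have hm1 : V (-1 : F) ≤ 1 := by rw [Valuation.map_neg, map_one]
  have h1 : V ((y' - y) * (y' + y)) < 1 := by
    rw [show (y' - y) * (y' + y) = (x' ^ 2 + x' * x + x ^ 2 + -1) * (x' - x) by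
      linear_combination h' - h]
    refine vltm V (vle V (vle V (vle V ?_ (vlem V hx' hx1)) ?_) hm1) hxx
    · rw [map_pow]; exact pow_le_one₀ zero_le hx'
    · rw [map_pow]; exact pow_le_one₀ zero_le hx1
  by_contra hlt
  have h2 : V (y' - y) = 1 := by
    refine le_antisymm ?_ (not_lt.1 hlt)
    rw [sub_eq_add_neg]
    refine vle V hy1' ?_
    rw [Valuation.map_neg]
    exact hy1
  have h3 : V (y' + y) < 1 := by
    rw [map_mul, h2, one_mul] at h1
    exact h1
  -- `R' + R` is in the kernel too, hence `2 R'`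
  have hyn : (-y) ^ 2 = x ^ 3 - x := by rw [neg_sq]; exact h
  have h4 : pt x' y' h' - pt x (-y) hyn ∈ E1 V :=
    sub_mem hV2 hx1 hxx (by rw [sub_neg_eq_add]; exact h3)
  rw [← neg_pt h, sub_neg_eq_add] at h4
  have h5 := (E1 V).add_mem hd h4
  have h6 : pt x' y' h' - pt x y h + (pt x' y' h' + pt x y h) = pt x' y' h' + pt x' y' h' := by
    abel
  rw [h6] at h5
  have h7 := dbl_mem hV2 hx' h5
  apply hlt
  rw [show y' - y = (2 : ℕ) * y' + (-1) * (y' + y) by push_cast; ring]
  exact vlt V (vltm V (vnat V 2) h7) (vltm V hm1 h3)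

/-- inertia acts trivially modulo the kernel of reduction -/
theorem gal_sub_mem {K : Type*} [Field K] [Algebra K F] {ι : F ≃ₐ[K] F} (hV2 : V 2 = 1)
    (hVi : ∀ x : F, V (ι x) = V x) (hVt : ∀ x : F, V x ≤ 1 → V (ι x - x) < 1)
    (R : (cQ F).Point) : gal ι R - R ∈ E1 V := by
  rcases pt_cases R with rfl | ⟨x, y, h, rfl⟩
  · rw [map_zero, sub_zero]
    exact (E1 V).zero_mem
  · rw [gal_pt]
    by_cases hx : V x ≤ 1
    · exact sub_mem hV2 hx (hVt x hx) (hVt y (v_y V h hx))
    · apply (E1 V).sub_mem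
      · rw [pt_mem, hVi]
        exact not_le.1 hx
      · rw [pt_mem]
        exact not_le.1 hx

/-- the kernel of reduction is stable under the complex multiplication -/
theorem cmi_mem {i : F} {I : (cQ F).Point →+ (cQ F).Point} (hI : CMI i I) {P : (cQ F).Point}
    (hP : P ∈ E1 V) : I P ∈ E1 V := by
  rcases pt_cases P with rfl | ⟨x, y, h, rfl⟩
  · rw [map_zero]
    exact (E1 V).zero_mem
  · rw [hI.pt, pt_mem, Valuation.map_neg]
    exact pt_mem.1 hP

theorem gpi_mem {i : F} {I : (cQ F).Point →+ (cQ F).Point} (hI : CMI i I) {P : (cQ F).Point}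
    (hP : P ∈ E1 V) : gpi I P ∈ E1 V :=
  (E1 V).add_mem hP (cmi_mem hI hP)

end

end Pool.Agent.Work.MP_8efaaa_nt.W5
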