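import Mathlib
import Pool.Agent.Work.MP_8efaaa_nt.N5.Defs
import Pool.Agent.Work.MP_8efaaa_nt.N5.EKl
import Pool.Agent.Work.MP_8efaaa_nt.Rf.Defs
import Pool.Agent.Work.MP_8efaaa_nt.K5.RDt
import Pool.Agent.Work.MP_8efaaa_nt.W5.E1

/-!
# Definitions of the block W5 (fixed file)

`a = p q`, `p = 1 (mod 8)`, `q = 5 (mod 8)`.
-/

set_option autoImplicit false

namespace Pool.Agent.Work.MP_8efaaa_nt.W5

open NumberField Pool.Agent.Work.MP_8efaaa_nt.R Pool.Agent.Work.MP_8efaaa_nt.N5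

noncomputable section

/-- The signs `mu N t` with which the Frobenius elements act on a square root of the Gaussian
integer `A` of norm `a`. -/
structure MuLaw (a : ℕ) (A : GaussianInt) (mu : ℕ → ℤ → ℤ) : Prop where
  nrm : A.re ^ 2 + A.im ^ 2 = a
  one : ∀ t, mu 1 t = 1
  cong : ∀ (N : ℕ) (t t' : ℤ), t ≡ t' [ZMOD N] → mu N t = mu N t'
  pm : ∀ (N : ℕ) (t : ℤ), Odd N → N.Coprime a → (N : ℤ) ∣ t ^ 2 + a → mu N t = 1 ∨ mu N t = -1
  mul : ∀ (N N' : ℕ) (t : ℤ), Odd N → Odd N' → N.Coprime N' → N.Coprime a → N'.Coprime a →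
    (N : ℤ) ∣ t ^ 2 + a → (N' : ℤ) ∣ t ^ 2 + a →
    mu (N * N') t = mu N t * mu N' t * (-1) ^ ((N - 1) / 2 * ((N' - 1) / 2))
  frob1 : ∀ (l : ℕ) (t : ℤ), l.Prime → l % 4 = 1 → ¬ l ∣ a → (l : ℤ) ∣ t ^ 2 + a →
    ∀ (k : Type) [Field k] [CharP k l] (g : GaussianInt →+* k),
      g A ^ ((l - 1) / 2) = (mu l t : k)
  frob3 : ∀ (l : ℕ) (t : ℤ), l.Prime → l % 4 = 3 → ¬ l ∣ a → (l : ℤ) ∣ t ^ 2 + a →
    ∀ (k : Type) [Field k] [CharP k l] (g : GaussianInt →+* k),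
      g A ^ ((l + 1) / 2) = (mu l t : k) * g ⟨0, 1⟩ * (t : k)

/-- The Galois data with a square root `e` of the Gaussian integer `A`, the action of the
automorphisms by primitive ideals. -/
structure QDat (K F : Type*) [Field K] [NumberField K] [Field F] [NumberField F] [Algebra K F]
    (a d : ℕ) (s : K) (S : 𝓞 K) (τ : 𝓞 K ≃+* 𝓞 K) (ζ w : F) (X Y V U : Ideal (𝓞 K) → F)
    (κ : F ≃ₐ[ℚ] F) (A : GaussianInt) (mu : ℕ → ℤ → ℤ) (e : F) : Prop where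
  rd : K5.RDat K F a d s S τ ζ w X Y V U κ
  sq : e ^ 2 = (A.re : F) + (A.im : F) * ζ ^ 2
  conj : e * κ e = -(ζ ^ 2 * algebraMap K F s)
  /-- every automorphism over `K` acts by a primitive ideal `b` (`S - t ∈ b`) prime to `M` -/
  act4 : ∀ (σ : F ≃ₐ[K] F) (M : ℕ), M ≠ 0 → ∃ (b : Ideal (𝓞 K)) (t : ℤ), OddI b ∧
    Nat.Coprime (Ideal.absNorm b) M ∧ S - (t : 𝓞 K) ∈ b ∧
    σ ζ = ζ ^ Ideal.absNorm b ∧ σ w = (jacobiSym d (Ideal.absNorm b) : ℤ) * w ∧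
    (∀ c, OddI c → σ (X c) = X (b * c) ∧ σ (Y c) = Y (b * c) ∧ σ (V c) = V (b * c) ∧
      σ (U c) = U (b * c)) ∧
    (Ideal.absNorm b % 4 = 1 → σ e = (mu (Ideal.absNorm b) t : F) * e) ∧
    (Ideal.absNorm b % 4 = 3 → σ e = -((mu (Ideal.absNorm b) t : F) * κ e))

section points

variable (F : Type*) [Field F] [CharZero F]

/-- the point `(1, 0)` -/
def Ep : (cQ F).Point := pt 1 0 (by norm_num)

/-- the point `(-1, 0)` -/
def Em : (cQ F).Point := pt (-1) 0 (by norm_num)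

/-- the point `(0, 0)` -/
def Ez : (cQ F).Point := pt 0 0 (by norm_num)

variable {F}

/-- the point `(i, -1 + i)` -/
def Tg {i : F} (hi : i ^ 2 = -1) : (cQ F).Point :=
  pt i (-1 + i) (by linear_combination (1 - i) * hi)

end points

end

end Pool.Agent.Work.MP_8efaaa_nt.W5
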