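import Mathlib
import Pool.Agent.Work.MP_8efaaa_nt.W5.Defs
import Pool.Agent.Work.MP_8efaaa_nt.N5.EQt
import Pool.Agent.Work.MP_8efaaa_nt.R.FCls
import Pool.Agent.Work.MP_8efaaa_nt.R.DMove

/-!
# W5/CPr (M): primitive representatives of the classes

PROOF of `exists_prim`. Every class contains an odd ideal whose norm is prime to `2 M` (see `eqt_move`, `eqt_rep` in N5/EQt.lean for `M = a`: `mov_all hb h (N := 2 * M)` (R/DMove.lean) moves an odd ideal away from `2 M`). Among these ideals take `c` with minimal norm. The set of the `y : ℤ` for which there is an `x : ℤ` with `x + y S ∈ c` is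
a subgroup of `ℤ`, generated by some `g ≥ 1` (it contains `N = absNorm c ≠ 0`: `N S ∈ c`). If `x + y S ∈ c` then `S (x + y S) = -a y + x S ∈ c`, so `g ∣ x` and `g ∣ y`: `c ≤ span {g}`, `c = span {g} * c'` (`Ideal.dvd_iff_le`). If `g > 1`: `c'` is odd, its norm is prime to `2 M` (it divides `N`) and smaller (`N = g^2 absNorm c'`), `kl c' = kl c`
(`kl_mul`, `kl (span {g}) = 1` by `kl_eq_one`): contradiction. So `g = 1`: `x + S ∈ c`, `u = -x`. (Coordinates: `exists_Q5 hb`, `Q5.coords`.)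
`norm_mod4`: `equiv_odd` (R) gives `(x) b = (y) c` with odd `x, y`, `norm_principal`: the norms of `(x)`, `(y)` are `1 (mod 4)`.
`int_mem`: if `S - t ∈ b` then `ℤ → 𝓞 K ⧸ b` is surjective (every element is `x + y S = x + y t`), so `𝓞 K ⧸ b` is `ℤ / m` with `m` its cardinality `absNorm b`; an integer `n ∈ b` is divisible by `absNorm b` (the additive order of `1`). If `b = 0`: `S = t` is impossible (`S` is not rational), or `absNorm = 0` and `n = 0`.
`t2a`: `t^2 + a = -(S - t)(S + t) ∈ b`, by `int_mem`.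
-/

set_option autoImplicit false

namespace Pool.Agent.Work.MP_8efaaa_nt.W5

open NumberField Pool.Agent.Work.MP_8efaaa_nt.R Pool.Agent.Work.MP_8efaaa_nt.N5

variable {K : Type*} [Field K] [NumberField K] {a : ℕ} {s : K}

private theorem cpr_prod_coprime (L : List (Ideal (𝓞 K))) (N : ℕ)
    (h : ∀ q ∈ L, q.IsPrime ∧ (Ideal.absNorm q).Prime ∧ ¬ Ideal.absNorm q ∣ N) :
    Nat.Coprime (Ideal.absNorm L.prod) N := by
  induction L with
  | nil => rw [List.prod_nil, map_one]; exact Nat.coprime_one_left N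
  | cons q L ih =>
    rw [List.prod_cons, map_mul]
    have h1 := h q (by simp)
    exact Nat.Coprime.mul_left ((Nat.Prime.coprime_iff_not_dvd h1.2.1).2 h1.2.2)
      (ih fun q' hq' => h q' (by simp [hq']))

private theorem cpr_move (hb : Base5 K a s) {b : Ideal (𝓞 K)} (h : OddI b) {M : ℕ} (hM : M ≠ 0) :
    ∃ c : Ideal (𝓞 K), OddI c ∧ Nat.Coprime (Ideal.absNorm c) M ∧ kl c = kl b := by
  obtain ⟨L, m, x, y, δ, hm, hx, -, hδ, hL, he⟩ := mov_all hb h (N := M) hM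
  obtain ⟨S, hSs, hS⟩ := exists_Q5 hb
  have hδ' : δ = ((x : ℤ) : 𝓞 K) + ((8 * y : ℤ) : 𝓞 K) * S := by
    apply RingOfIntegers.ext
    change algebraMap (𝓞 K) K δ = algebraMap (𝓞 K) K (((x : ℤ) : 𝓞 K) + ((8 * y : ℤ) : 𝓞 K) * S)
    rw [hδ, map_add, map_mul, map_intCast, map_intCast, hSs]
    push_cast
    ring
  have hoδ : OddI (Ideal.span {δ}) := by
    rw [hδ', hS.oddI_span]
    obtain ⟨k, hk⟩ := hx
    exact ⟨k + 4 * y, by rw [hk]; ring⟩
  have hom : OddI (Ideal.span {(m : 𝓞 K)}) := by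
    have e : (m : 𝓞 K) = ((m : ℤ) : 𝓞 K) + ((0 : ℤ) : 𝓞 K) * S := by push_cast; ring
    rw [e, hS.oddI_span, add_zero]
    exact hm
  have hoL : OddI L.prod := by
    have h1 : OddI (Ideal.span {(m : 𝓞 K)} * L.prod) := by
      rw [he]
      exact hoδ.mul h
    exact (oddI_mul'.1 h1).2
  refine ⟨L.prod, hoL, cpr_prod_coprime L M hL, ?_⟩
  have h1 := congrArg kl he
  rw [kl_mul hom hoL, kl_mul hoδ h, (kl_eq_one hom).2 ⟨_, rfl⟩, (kl_eq_one hoδ).2 ⟨_, rfl⟩,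
    one_mul, one_mul] at h1
  exact h1

private theorem cpr_Q5 (hb : Base5 K a s) {S : 𝓞 K} (hS : algebraMap (𝓞 K) K S = s) :
    Q5 K a S := by
  obtain ⟨S', h1, h2⟩ := exists_Q5 hb
  have h3 : S = S' := by
    apply RingOfIntegers.ext
    exact hS.trans h1.symm
  rw [h3]
  exact h2

theorem exists_prim (hb : Base5 K a s) {S : 𝓞 K} (hS : algebraMap (𝓞 K) K S = s)
    (C : ClassGroup (𝓞 K)) {M : ℕ} (hM : M ≠ 0) :
    ∃ (c : Ideal (𝓞 K)) (u : ℤ), OddI c ∧ Nat.Coprime (Ideal.absNorm c) M ∧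
      S - (u : 𝓞 K) ∈ c ∧ kl c = C := by
  classical
  have hQ := cpr_Q5 hb hS
  have hex : ∃ n : ℕ, ∃ c : Ideal (𝓞 K), OddI c ∧ Nat.Coprime (Ideal.absNorm c) M ∧ kl c = C ∧
      Ideal.absNorm c = n := by
    obtain ⟨b, hbo, hbC⟩ := exists_odd_rep hb C
    obtain ⟨c, h1, h2, h3⟩ := cpr_move hb hbo hM
    exact ⟨_, c, h1, h2, by rw [h3, kl_mk0 b.2]; exact hbC, rfl⟩
  obtain ⟨c, h1, h2, h3, h4⟩ := Nat.find_spec hex
  have hmin : ∀ c' : Ideal (𝓞 K), OddI c' → Nat.Coprime (Ideal.absNorm c') M → kl c' = C →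
      Ideal.absNorm c ≤ Ideal.absNorm c' := by
    intro c' h5 h6 h7
    rw [h4]
    exact Nat.find_min' hex ⟨c', h5, h6, h7, rfl⟩
  let H : AddSubgroup ℤ :=
    { carrier := {y | ∃ x : ℤ, (x : 𝓞 K) + (y : 𝓞 K) * S ∈ c}
      add_mem' := by
        rintro y y' ⟨x, hx⟩ ⟨x', hx'⟩
        refine ⟨x + x', ?_⟩
        have e : ((x + x' : ℤ) : 𝓞 K) + ((y + y' : ℤ) : 𝓞 K) * S =
            ((x : 𝓞 K) + (y : 𝓞 K) * S) + ((x' : 𝓞 K) + (y' : 𝓞 K) * S) := by
          push_cast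
          ring
        rw [e]
        exact c.add_mem hx hx'
      zero_mem' := ⟨0, by simp⟩
      neg_mem' := by
        rintro y ⟨x, hx⟩
        refine ⟨-x, ?_⟩
        have e : ((-x : ℤ) : 𝓞 K) + ((-y : ℤ) : 𝓞 K) * S = -((x : 𝓞 K) + (y : 𝓞 K) * S) := by
          push_cast
          ring
        rw [e]
        exact c.neg_mem hx }
  have hHm : ∀ y : ℤ, y ∈ H ↔ ∃ x : ℤ, (x : 𝓞 K) + (y : 𝓞 K) * S ∈ c := fun y => Iff.rfl
  obtain ⟨g, hg⟩ := Int.subgroup_cyclic H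
  have hgd : ∀ y : ℤ, y ∈ H → g ∣ y := by
    intro y hy
    rw [hg, AddSubgroup.mem_closure_singleton] at hy
    obtain ⟨n, hn⟩ := hy
    exact ⟨n, by rw [← hn, smul_eq_mul, mul_comm]⟩
  have hle : c ≤ Ideal.span {(g : 𝓞 K)} := by
    intro z hz
    obtain ⟨x, y, rfl⟩ := hQ.coords z
    have hy : g ∣ y := hgd y ⟨x, hz⟩
    have hx : g ∣ x := by
      apply hgd x
      refine ⟨-(a : ℤ) * y, ?_⟩
      have e : ((-(a : ℤ) * y : ℤ) : 𝓞 K) + (x : 𝓞 K) * S = S * ((x : 𝓞 K) + (y : 𝓞 K) * S) := by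
        push_cast
        linear_combination (-(y : 𝓞 K)) * hQ.sq
      rw [e]
      exact c.mul_mem_left _ hz
    obtain ⟨x', rfl⟩ := hx
    obtain ⟨y', rfl⟩ := hy
    rw [Ideal.mem_span_singleton]
    exact ⟨(x' : 𝓞 K) + (y' : 𝓞 K) * S, by push_cast; ring⟩
  obtain ⟨c', hc'⟩ := Ideal.dvd_iff_le.2 hle
  have hodd := h1
  rw [hc', oddI_mul'] at hodd
  obtain ⟨og, oc'⟩ := hodd
  have hk : kl c' = C := by
    rw [← h3, hc', kl_mul og oc', (kl_eq_one og).2 ⟨_, rfl⟩, one_mul]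
  have hnm : Ideal.absNorm c = Ideal.absNorm (Ideal.span {(g : 𝓞 K)}) * Ideal.absNorm c' := by
    rw [← map_mul, ← hc']
  have hcop : Nat.Coprime (Ideal.absNorm c') M :=
    Nat.Coprime.coprime_dvd_left (by rw [hnm]; exact Dvd.intro_left _ rfl) h2
  have hmm := hmin c' oc' hcop hk
  have hpos : 0 < Ideal.absNorm c' := Odd.pos oc'
  have hpos2 : 0 < Ideal.absNorm (Ideal.span {(g : 𝓞 K)}) := Odd.pos og
  have hone : Ideal.absNorm (Ideal.span {(g : 𝓞 K)}) = 1 := by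
    rw [hnm] at hmm
    by_contra hne
    have h5 : 2 ≤ Ideal.absNorm (Ideal.span {(g : 𝓞 K)}) := by omega
    nlinarith
  have hg2 : g ^ 2 = 1 := by
    have h5 := hQ.norm_gen g 0
    have e : (g : 𝓞 K) + ((0 : ℤ) : 𝓞 K) * S = (g : 𝓞 K) := by push_cast; ring
    rw [e, hone] at h5
    push_cast at h5
    linarith
  have h1H : (1 : ℤ) ∈ H := by
    have hgH : g ∈ H := by
      rw [hg]
      exact AddSubgroup.subset_closure rfl
    have h6 : g • g ∈ H := H.zsmul_mem hgH g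
    rw [smul_eq_mul, ← pow_two, hg2] at h6
    exact h6
  obtain ⟨x, hx⟩ := (hHm 1).1 h1H
  refine ⟨c, -x, h1, h2, ?_, h3⟩
  have e : S - ((-x : ℤ) : 𝓞 K) = (x : 𝓞 K) + ((1 : ℤ) : 𝓞 K) * S := by
    push_cast
    ring
  rw [e]
  exact hx

theorem norm_mod4 (hb : Base5 K a s) {b c : Ideal (𝓞 K)} (h1 : OddI b) (h2 : OddI c)
    (h : kl b = kl c) : Ideal.absNorm b % 4 = Ideal.absNorm c % 4 := by
  rw [kl_mk0 (ne_bot_of_odd h1), kl_mk0 (ne_bot_of_odd h2)] at h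
  obtain ⟨α, β, hα, hβ, he⟩ := equiv_odd hb (b := ⟨b, ne_bot_of_odd h1⟩)
    (b' := ⟨c, ne_bot_of_odd h2⟩) h1 h2 h
  have h3 := congrArg Ideal.absNorm he
  rw [map_mul, map_mul] at h3
  have h4 := norm_principal hb hα
  have h5 := norm_principal hb hβ
  have h6 := congrArg (· % 4) h3
  simp only [Nat.mul_mod, h4, h5, one_mul, Nat.mod_mod] at h6
  exact h6

theorem int_mem (hb : Base5 K a s) {S : 𝓞 K} (hS : algebraMap (𝓞 K) K S = s)
    {b : Ideal (𝓞 K)} {t : ℤ} (ht : S - (t : 𝓞 K) ∈ b) {n : ℤ} (hn : (n : 𝓞 K) ∈ b) :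
    (Ideal.absNorm b : ℤ) ∣ n := by
  have hQ := cpr_Q5 hb hS
  have hsurj : Function.Surjective (Int.castRingHom (𝓞 K ⧸ b)) := by
    intro z
    obtain ⟨z, rfl⟩ := Ideal.Quotient.mk_surjective z
    obtain ⟨x, y, rfl⟩ := hQ.coords z
    refine ⟨x + y * t, ?_⟩
    rw [eq_intCast]
    have e : ((x + y * t : ℤ) : 𝓞 K ⧸ b) = Ideal.Quotient.mk b ((x + y * t : ℤ) : 𝓞 K) := by
      rw [map_intCast]
    rw [e, Ideal.Quotient.eq]
    have e2 : ((x + y * t : ℤ) : 𝓞 K) - ((x : 𝓞 K) + (y : 𝓞 K) * S) =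
        -(y : 𝓞 K) * (S - (t : 𝓞 K)) := by
      push_cast
      ring
    rw [e2]
    exact b.mul_mem_left _ ht
  have hcard : Ideal.absNorm (RingHom.ker (Int.castRingHom (𝓞 K ⧸ b))) = Ideal.absNorm b := by
    rw [Ideal.absNorm_apply, Ideal.absNorm_apply, Submodule.cardQuot_apply,
      Submodule.cardQuot_apply]
    exact Nat.card_congr (RingHom.quotientKerEquivOfSurjective hsurj).toEquiv
  have hker : n ∈ RingHom.ker (Int.castRingHom (𝓞 K ⧸ b)) := by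
    rw [RingHom.mem_ker, eq_intCast]
    have e : ((n : ℤ) : 𝓞 K ⧸ b) = Ideal.Quotient.mk b (n : 𝓞 K) := by
      rw [map_intCast]
    rw [e, Ideal.Quotient.eq_zero_iff_mem]
    exact hn
  rw [← Int.ideal_span_absNorm_eq_self (RingHom.ker (Int.castRingHom (𝓞 K ⧸ b))), hcard,
    Ideal.mem_span_singleton] at hker
  exact hker

theorem t2a (hb : Base5 K a s) {S : 𝓞 K} (hS : algebraMap (𝓞 K) K S = s)
    {b : Ideal (𝓞 K)} {t : ℤ} (ht : S - (t : 𝓞 K) ∈ b) :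
    (Ideal.absNorm b : ℤ) ∣ t ^ 2 + a := by
  have hQ := cpr_Q5 hb hS
  apply int_mem hb hS ht
  have e : ((t ^ 2 + a : ℤ) : 𝓞 K) = -(S + (t : 𝓞 K)) * (S - (t : 𝓞 K)) := by
    push_cast
    linear_combination hQ.sq
  rw [e]
  exact b.mul_mem_left _ ht

end Pool.Agent.Work.MP_8efaaa_nt.W5
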