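import Mathlib
import Pool.Agent.Work.MP_8efaaa_nt.W5.Defs
import Pool.Agent.Work.MP_8efaaa_nt.W5.CPr
import Pool.Agent.Work.MP_8efaaa_nt.N5.NMi
import Pool.Agent.Work.MP_8efaaa_nt.N5.CDat

/-!
# W5/CEl (M): the element `δ`

`N = absNorm b`, `n = absNorm c`, `m = (1 + a) / 2 = absNorm (mI S a)`. PROOF. `cj m * b * cj c * cj c` is odd and its class is `1` (`kl_mul`, `kl (cj c) = (kl c)⁻¹` by `kl_inv` and `norm_cj`, `hk`), so it is `(δ)` (`kl_eq_one`), `δ = x + y S` (`Q5.coords`). Norms: `x^2 + a y^2 = m N n^2` (`Q5.norm_gen`/`norm_int`).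
`δ ∈ cj m`, `1 - S ∈ cj m` (`mI S a = span {m, 1 + S}`), so `x + y ∈ cj m`, an integer; `m ∣ x + y` (`int_mem` for `cj m`, which contains `S - 1`, with norm `m`). `A := (x - a y)/m`, `B := (x + y)/m` (`x - a y = (x + y) - (1 + a) y`, `1 + a = 2 m`): `A = B - 2 y`. `A^2 + a B^2 = ((x - a y)^2 + a (x + y)^2)/m^2 = (1 + a)(x^2 + a y^2)/m^2 = 2 N n^2`.
`A, B` have the same parity; if both are even `4 ∣ 2 N n^2`, impossible: both odd. `N ∣ t B + A`: `x + y t ∈ b` (as `δ ∈ b`, `S - t ∈ b`), so `N ∣ x + y t` (`int_mem`), `m (A + t B) = x - a y + t x + t y = (x + y t)(1 + t) - y (t^2 + a)`, hmm: `x - a y + t x + t y = (x + y t) + t (x + y t) - y t^2 - a y`, so `N ∣ m (A + t B)` (`t2a`), and `N` is prime to `m`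
(`hbc`: prime to `1 + a = 2 m`). `IsCoprime A B`: let `r` be a prime number dividing `A` and `B`: `r^2 ∣ 2 N n^2`, `r` odd, so `r ∣ N n`, `r` is prime to `2 a (1 + a)`. `A + B S ∈ (r)`, and `(A + B S) m = (x + y S)(1 + S) = δ (1 + S)`: so `δ (1 + S) ∈ (r)`, multiply by `1 - S`: `δ (1 + a) ∈ (r)`, `r` prime to `1 + a`: `δ ∈ (r)`:
`span {r} ∣ cj m * b * cj c * cj c`. Case `r ∣ N`: then `r ∤ m`, `r ∤ n` (`hcc`): `span {r}` is coprime to `cj m` and to `cj c` (they contain their norms), so `span {r} ∣ b`, so `S - t ∈ span {r}`, impossible (coordinates: `r ∣ 1`). Case `r ∣ n`: `r ∤ m N`, so `span {r} ∣ cj c * cj c`; `S + u ∈ cj c` up to sign (`cj` of `S - u` is `-S - u`), so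
`(S + u)^2 = (u^2 - a) + 2 u S ∈ span {r}`: `r ∣ 2 u`, `r ∣ u`, `r ∣ u^2 - a`, `r ∣ a`: contradiction.
-/

set_option autoImplicit false

namespace Pool.Agent.Work.MP_8efaaa_nt.W5

open NumberField Pool.Agent.Work.MP_8efaaa_nt.R Pool.Agent.Work.MP_8efaaa_nt.N5

private theorem mem_r {K : Type*} [Field K] [NumberField K] {a : ℕ} {S : 𝓞 K} (hQ : Q5 K a S)
    {r p q : ℤ} (h : (p : 𝓞 K) + (q : 𝓞 K) * S ∈ Ideal.span {(r : 𝓞 K)}) : r ∣ p ∧ r ∣ q := by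
  rw [Ideal.mem_span_singleton] at h
  obtain ⟨z, hz⟩ := h
  obtain ⟨u, v, rfl⟩ := hQ.coords z
  have h1 : (p : 𝓞 K) + (q : 𝓞 K) * S = ((r * u : ℤ) : 𝓞 K) + ((r * v : ℤ) : 𝓞 K) * S := by
    rw [hz]
    push_cast
    ring
  obtain ⟨h2, h3⟩ := hQ.unique _ _ _ _ h1
  exact ⟨⟨u, h2⟩, ⟨v, h3⟩⟩

private theorem cancel_r {K : Type*} [Field K] [NumberField K] {r k : ℤ} (h : IsCoprime r k)
    {z : 𝓞 K} (hz : (k : 𝓞 K) * z ∈ Ideal.span {(r : 𝓞 K)}) : z ∈ Ideal.span {(r : 𝓞 K)} := by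
  obtain ⟨u, v, huv⟩ := h
  have h1 : z = ((u : 𝓞 K) * z) * (r : 𝓞 K) + (v : 𝓞 K) * ((k : 𝓞 K) * z) := by
    have h2 := congrArg (Int.cast (R := 𝓞 K)) huv
    push_cast at h2
    linear_combination (-z) * h2
  rw [h1]
  exact Ideal.add_mem _ (Ideal.mul_mem_left _ _ (Ideal.mem_span_singleton_self _))
    (Ideal.mul_mem_left _ _ hz)

private theorem oddI_mul2 {K : Type*} [Field K] [NumberField K] {b c : Ideal (𝓞 K)} (hb : OddI b)
    (hc : OddI c) : OddI (b * c) := oddI_mul'.2 ⟨hb, hc⟩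

private theorem int_part {a m N n : ℕ} {x y t B : ℤ} (hm2 : 1 + a = 2 * m) (hm0 : m ≠ 0)
    (hnorm : x ^ 2 + (a : ℤ) * y ^ 2 = (m : ℤ) * N * n ^ 2) (hB : x + y = m * B)
    (hNo : Odd N) (hno : Odd n) (h4 : (N : ℤ) ∣ x + y * t) (h5 : (N : ℤ) ∣ t ^ 2 + a)
    (h7 : Nat.Coprime N m) :
    (m : ℤ) * (B - 2 * y) = x - a * y ∧
    (B - 2 * y) ^ 2 + (a : ℤ) * B ^ 2 = 2 * (N : ℤ) * (n : ℤ) ^ 2 ∧ Odd (B - 2 * y) ∧ Odd B ∧
      (N : ℤ) ∣ t * B + (B - 2 * y) := by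
  have hm0 : (m : ℤ) ≠ 0 := by exact_mod_cast hm0
  have ham : (a : ℤ) = 2 * (m : ℤ) - 1 := by
    have := congrArg (Nat.cast (R := ℤ)) hm2
    push_cast at this
    linarith
  obtain ⟨A, hA⟩ : ∃ A : ℤ, B - 2 * y = A := ⟨_, rfl⟩
  rw [hA]
  have hmA : (m : ℤ) * A = x - a * y := by
    rw [← hA, ham]
    linear_combination (-1 : ℤ) * hB
  have hAB : A ^ 2 + (a : ℤ) * B ^ 2 = 2 * (N : ℤ) * (n : ℤ) ^ 2 := by
    have h4 : (m : ℤ) ^ 2 * (A ^ 2 + (a : ℤ) * B ^ 2) = (m : ℤ) ^ 2 * (2 * (N : ℤ) * (n : ℤ) ^ 2) := by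
      have h5 : (m : ℤ) ^ 2 * (A ^ 2 + (a : ℤ) * B ^ 2) =
          (m * A) ^ 2 + (a : ℤ) * (m * B) ^ 2 := by ring
      rw [h5, hmA, ← hB]
      have h6 : (x - (a : ℤ) * y) ^ 2 + (a : ℤ) * (x + y) ^ 2 =
          (1 + (a : ℤ)) * (x ^ 2 + (a : ℤ) * y ^ 2) := by ring
      rw [h6, hnorm]
      have h7 : (1 : ℤ) + a = 2 * m := by rw [ham]; ring
      rw [h7]
      ring
    exact mul_left_cancel₀ (pow_ne_zero 2 hm0) h4
  have hNodd : Odd (N : ℤ) := by exact_mod_cast hNo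
  have hnodd : Odd (n : ℤ) := by exact_mod_cast hno
  have hBo : Odd B := by
    by_contra hcon
    rw [Int.not_odd_iff_even] at hcon
    obtain ⟨B', hB'⟩ := hcon
    have hA' : A = 2 * (B' - y) := by rw [← hA, hB']; ring
    have h4 : Even ((N : ℤ) * (n : ℤ) ^ 2) := by
      refine ⟨(B' - y) ^ 2 + (a : ℤ) * B' ^ 2, ?_⟩
      have h6 := hAB
      rw [hA', hB'] at h6
      have h5 : 2 * ((N : ℤ) * (n : ℤ) ^ 2) =
          2 * ((B' - y) ^ 2 + (a : ℤ) * B' ^ 2 + ((B' - y) ^ 2 + (a : ℤ) * B' ^ 2)) := by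
        linear_combination (-1 : ℤ) * h6
      exact mul_left_cancel₀ two_ne_zero h5
    have h5 : Odd ((N : ℤ) * (n : ℤ) ^ 2) := hNodd.mul hnodd.pow
    exact (Int.not_even_iff_odd.2 h5) h4
  have hAo : Odd A := by
    rw [← hA]
    exact hBo.sub_even (even_two_mul y)
  refine ⟨hmA, hAB, hAo, hBo, ?_⟩
  have h6 : (N : ℤ) ∣ (m : ℤ) * (t * B + A) := by
    have h7 : (m : ℤ) * (t * B + A) = (x + y * t) * (1 + t) - y * (t ^ 2 + a) := by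
      linear_combination hmA - t * hB
    rw [h7]
    exact dvd_sub (h4.mul_right _) (h5.mul_left _)
  exact (Nat.isCoprime_iff_coprime.2 h7).dvd_of_dvd_mul_left h6

private theorem delta_mem {R : Type*} [CommRing R] {S : R} {a m r A' B' x y : R}
    (hsq : S * S = -a) (e1 : m * (r * A') = x - a * y) (e2 : x + y = m * (r * B')) :
    r ∣ (1 + a) * (x + y * S) := by
  refine ⟨m * (A' + B' * S) * (1 - S), ?_⟩
  have e3 : (1 + a) = (1 + S) * (1 - S) := by linear_combination hsq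
  have e4 : (x + y * S) * (1 + S) = (x - a * y) + (x + y) * S := by
    linear_combination y * hsq
  calc (1 + a) * (x + y * S) = ((x + y * S) * (1 + S)) * (1 - S) := by rw [e3]; ring
    _ = ((x - a * y) + (x + y) * S) * (1 - S) := by rw [e4]
    _ = (m * (r * A') + m * (r * B') * S) * (1 - S) := by rw [e1, e2]
    _ = r * (m * (A' + B' * S) * (1 - S)) := by ring

private theorem case_N {K : Type*} [Field K] [NumberField K] {a : ℕ} {S : 𝓞 K} (hQ : Q5 K a S)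
    {I b C : Ideal (𝓞 K)} {m n r : ℕ} (hr : r.Prime) {t : ℤ}
    (hm : ((m : ℤ) : 𝓞 K) ∈ I) (hn : ((n : ℤ) : 𝓞 K) ∈ C) (ht : S - (t : 𝓞 K) ∈ b)
    (hJ : I * b * C * C ≤ Ideal.span {((r : ℤ) : 𝓞 K)}) (hrm : Nat.Coprime r m)
    (hrn : Nat.Coprime r n) : False := by
  have hrp : Prime (r : ℤ) := Nat.prime_iff_prime_int.1 hr
  have h4 : S - (t : 𝓞 K) ∈ Ideal.span {((r : ℤ) : 𝓞 K)} := by
    have h5 : IsCoprime (r : ℤ) ((m : ℤ) * ((n : ℤ) * (n : ℤ))) := by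
      have e1 := Nat.isCoprime_iff_coprime.2 hrm
      have e2 := Nat.isCoprime_iff_coprime.2 hrn
      exact e1.mul_right (e2.mul_right e2)
    refine cancel_r h5 (hJ ?_)
    have h6 := Ideal.mul_mem_mul (Ideal.mul_mem_mul (Ideal.mul_mem_mul hm ht) hn) hn
    have h7 : (((m : ℤ) * ((n : ℤ) * (n : ℤ)) : ℤ) : 𝓞 K) * (S - (t : 𝓞 K)) =
        ((m : ℤ) : 𝓞 K) * (S - (t : 𝓞 K)) * ((n : ℤ) : 𝓞 K) * ((n : ℤ) : 𝓞 K) := by
      rw [Int.cast_mul, Int.cast_mul]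
      ring
    rw [h7]
    exact h6
  have h5 : (((-t : ℤ)) : 𝓞 K) + ((1 : ℤ) : 𝓞 K) * S ∈ Ideal.span {((r : ℤ) : 𝓞 K)} := by
    have e : (((-t : ℤ)) : 𝓞 K) + ((1 : ℤ) : 𝓞 K) * S = S - (t : 𝓞 K) := by
      rw [Int.cast_neg, Int.cast_one]
      ring
    rw [e]
    exact h4
  have h6 := (mem_r hQ h5).2
  exact hrp.not_isUnit (isUnit_of_dvd_one h6)

private theorem case_n {K : Type*} [Field K] [NumberField K] {a : ℕ} {S : 𝓞 K} (hQ : Q5 K a S)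
    {I b C : Ideal (𝓞 K)} {m N r : ℕ} (hr : r.Prime) (hr2 : r ≠ 2) {u : ℤ}
    (hm : ((m : ℤ) : 𝓞 K) ∈ I) (hN : ((N : ℤ) : 𝓞 K) ∈ b) (hu : S + (u : 𝓞 K) ∈ C)
    (hJ : I * b * C * C ≤ Ideal.span {((r : ℤ) : 𝓞 K)}) (hrm : Nat.Coprime r m)
    (hrN : Nat.Coprime r N) (hra : Nat.Coprime r a) : False := by
  have hrp : Prime (r : ℤ) := Nat.prime_iff_prime_int.1 hr
  have hr2' : ¬ (r : ℤ) ∣ 2 := by
    intro h4
    have h5 : r ∣ 2 := by exact_mod_cast h4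
    exact hr2 ((Nat.prime_dvd_prime_iff_eq hr Nat.prime_two).1 h5)
  have h4 : (S + (u : 𝓞 K)) * (S + (u : 𝓞 K)) ∈ Ideal.span {((r : ℤ) : 𝓞 K)} := by
    have h5 : IsCoprime (r : ℤ) ((m : ℤ) * (N : ℤ)) := by
      have e1 := Nat.isCoprime_iff_coprime.2 hrm
      have e2 := Nat.isCoprime_iff_coprime.2 hrN
      exact e1.mul_right e2
    refine cancel_r h5 (hJ ?_)
    have h6 := Ideal.mul_mem_mul (Ideal.mul_mem_mul (Ideal.mul_mem_mul hm hN) hu) hu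
    have h7 : (((m : ℤ) * (N : ℤ) : ℤ) : 𝓞 K) * ((S + (u : 𝓞 K)) * (S + (u : 𝓞 K))) =
        ((m : ℤ) : 𝓞 K) * ((N : ℤ) : 𝓞 K) * (S + (u : 𝓞 K)) * (S + (u : 𝓞 K)) := by
      rw [Int.cast_mul]
      ring
    rw [h7]
    exact h6
  have h5 : (((u ^ 2 - a : ℤ)) : 𝓞 K) + ((2 * u : ℤ) : 𝓞 K) * S ∈
      Ideal.span {((r : ℤ) : 𝓞 K)} := by
    have e : (((u ^ 2 - a : ℤ)) : 𝓞 K) + ((2 * u : ℤ) : 𝓞 K) * S =
        (S + (u : 𝓞 K)) * (S + (u : 𝓞 K)) := by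
      have e3 := hQ.sq
      push_cast
      linear_combination (-1 : 𝓞 K) * e3
    rw [e]
    exact h4
  obtain ⟨h6, h7⟩ := mem_r hQ h5
  have h8 : (r : ℤ) ∣ u := (hrp.dvd_or_dvd h7).resolve_left hr2'
  have h9 : (r : ℤ) ∣ a := by
    have e : (a : ℤ) = u ^ 2 - (u ^ 2 - a) := by ring
    rw [e]
    exact dvd_sub (dvd_pow h8 two_ne_zero) h6
  have h10 : r ∣ a := by exact_mod_cast h9
  have h11 := Nat.Coprime.eq_one_of_dvd hra h10
  exact hr.one_lt.ne' h11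

private theorem cop_part {K : Type*} [Field K] [NumberField K] {a : ℕ} {S : 𝓞 K} (hQ : Q5 K a S)
    {I b C : Ideal (𝓞 K)} {m N n : ℕ} (hm2 : 1 + a = 2 * m) {t u : ℤ}
    (hm : ((m : ℤ) : 𝓞 K) ∈ I) (hN : ((N : ℤ) : 𝓞 K) ∈ b) (hn : ((n : ℤ) : 𝓞 K) ∈ C)
    (ht : S - (t : 𝓞 K) ∈ b) (hu : S + (u : 𝓞 K) ∈ C) {x y A B : ℤ}
    (hJ : I * b * C * C ≤ Ideal.span {(x : 𝓞 K) + (y : 𝓞 K) * S})
    (hmA : (m : ℤ) * A = x - a * y) (hB : x + y = m * B)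
    (hAB : A ^ 2 + (a : ℤ) * B ^ 2 = 2 * (N : ℤ) * (n : ℤ) ^ 2) (hAo : Odd A)
    (hbc : Nat.Coprime N (2 * a * (1 + a))) (hcc : Nat.Coprime n (2 * a * (1 + a) * N)) :
    IsCoprime A B := by
  rw [Int.isCoprime_iff_gcd_eq_one]
  by_contra hcon
  obtain ⟨r, hr, hrd⟩ := Nat.exists_prime_and_dvd hcon
  have hrA : (r : ℤ) ∣ A := (Int.natCast_dvd_natCast.2 hrd).trans (Int.gcd_dvd_left ..)
  have hrB : (r : ℤ) ∣ B := (Int.natCast_dvd_natCast.2 hrd).trans (Int.gcd_dvd_right ..)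
  have hr2 : r ≠ 2 := by
    rintro rfl
    have := (Int.not_even_iff_odd.2 hAo)
    exact this (even_iff_two_dvd.2 (by exact_mod_cast hrA))
  have hrp : Prime (r : ℤ) := Nat.prime_iff_prime_int.1 hr
  have hr2' : ¬ (r : ℤ) ∣ 2 := by
    intro h4
    have h5 : r ∣ 2 := by exact_mod_cast h4
    exact hr2 ((Nat.prime_dvd_prime_iff_eq hr Nat.prime_two).1 h5)
  have hrNn : r ∣ N ∨ r ∣ n := by
    have h4 : (r : ℤ) ∣ 2 * (N : ℤ) * (n : ℤ) ^ 2 := by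
      rw [← hAB]
      exact dvd_add (dvd_pow hrA two_ne_zero) ((dvd_pow hrB two_ne_zero).mul_left _)
    rcases hrp.dvd_or_dvd h4 with h5 | h5
    · rcases hrp.dvd_or_dvd h5 with h6 | h6
      · exact absurd h6 hr2'
      · left
        exact_mod_cast h6
    · right
      have := hrp.dvd_of_dvd_pow h5
      exact_mod_cast this
  have hrc : Nat.Coprime r (2 * a * (1 + a)) := by
    rcases hrNn with h4 | h4
    · exact Nat.Coprime.coprime_dvd_left h4 hbc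
    · exact Nat.Coprime.coprime_dvd_left h4 (Nat.Coprime.coprime_dvd_right (dvd_mul_right _ _) hcc)
  have hra : Nat.Coprime r a :=
    Nat.Coprime.coprime_dvd_right ⟨2 * (1 + a), by ring⟩ hrc
  have hr1a : Nat.Coprime r (1 + a) := Nat.Coprime.coprime_dvd_right (dvd_mul_left _ _) hrc
  have hrm : Nat.Coprime r m :=
    Nat.Coprime.coprime_dvd_right (by rw [hm2]; exact dvd_mul_left _ _) hr1a
  have hδr : (x : 𝓞 K) + (y : 𝓞 K) * S ∈ Ideal.span {((r : ℤ) : 𝓞 K)} := by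
    have h4 : IsCoprime (r : ℤ) (1 + a : ℤ) := by
      have := Nat.isCoprime_iff_coprime.2 hr1a
      push_cast at this
      exact this
    refine cancel_r h4 ?_
    obtain ⟨A', hA'⟩ := hrA
    obtain ⟨B', hB'⟩ := hrB
    rw [Ideal.mem_span_singleton]
    have e1 := congrArg (Int.cast (R := 𝓞 K)) hmA
    have e2 := congrArg (Int.cast (R := 𝓞 K)) hB
    rw [hA'] at e1
    rw [hB'] at e2
    push_cast at e1 e2 ⊢
    exact delta_mem hQ.sq e1 e2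
  have hJr : I * b * C * C ≤ Ideal.span {((r : ℤ) : 𝓞 K)} :=
    hJ.trans ((Ideal.span_singleton_le_iff_mem _).2 hδr)
  have hNn : Nat.Coprime n N := Nat.Coprime.coprime_dvd_right (dvd_mul_left _ _) hcc
  rcases hrNn with hrN | hrn
  · exact case_N hQ hr hm hn ht hJr hrm (Nat.Coprime.coprime_dvd_left hrN hNn.symm)
  · exact case_n hQ hr hr2 hm hN hu hJr hrm (Nat.Coprime.coprime_dvd_left hrn hNn) hra

theorem exists_el {K : Type*} [Field K] [NumberField K] {a : ℕ} {s : K} (hb : Base5 K a s)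
    {S : 𝓞 K} (hS : algebraMap (𝓞 K) K S = s) {τ : 𝓞 K ≃+* 𝓞 K} (hτ : τ S = -S)
    {b c : Ideal (𝓞 K)} (hb7 : Ideal.absNorm b % 8 = 7)
    (hbc : Nat.Coprime (Ideal.absNorm b) (2 * a * (1 + a))) {t : ℤ} (ht : S - (t : 𝓞 K) ∈ b)
    (hc1 : Ideal.absNorm c % 4 = 1)
    (hcc : Nat.Coprime (Ideal.absNorm c) (2 * a * (1 + a) * Ideal.absNorm b)) {u : ℤ}
    (hu : S - (u : 𝓞 K) ∈ c) (hk : kl c ^ 2 = kl (cj τ (mI S a) * b)) :
    ∃ (δ : 𝓞 K) (x y A B : ℤ), δ = x + y * S ∧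
      Ideal.span {δ} = cj τ (mI S a) * b * cj τ c * cj τ c ∧ 2 * y = B - A ∧ Odd A ∧ Odd B ∧
      IsCoprime A B ∧
      A ^ 2 + a * B ^ 2 = 2 * (Ideal.absNorm b : ℤ) * (Ideal.absNorm c : ℤ) ^ 2 ∧
      (Ideal.absNorm b : ℤ) ∣ t * B + A := by
  obtain ⟨S', h3, hQ⟩ := exists_Q5 hb
  obtain rfl : S' = S := RingOfIntegers.ext (h3.trans hS.symm)
  have ha8 := hQ.mod
  obtain ⟨m, hm⟩ : ∃ m : ℕ, (1 + a) / 2 = m := ⟨_, rfl⟩
  have hm2 : 1 + a = 2 * m := by omega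
  have hmodd : Odd m := Nat.odd_iff.2 (by omega)
  have hm0 : m ≠ 0 := by omega
  have hNm : Ideal.absNorm (mI S' a) = m := (norm_mI hb hS).trans hm
  obtain ⟨N, hN⟩ : ∃ N : ℕ, Ideal.absNorm b = N := ⟨_, rfl⟩
  obtain ⟨n, hn⟩ : ∃ n : ℕ, Ideal.absNorm c = n := ⟨_, rfl⟩
  obtain ⟨cm1, cm2, cm3⟩ := norm_cj hb hS hτ (mI S' a)
  obtain ⟨cc1, cc2, cc3⟩ := norm_cj hb hS hτ c
  have h1S : (1 : 𝓞 K) - S' ∈ cj τ (mI S' a) := by
    have h4 : (1 : 𝓞 K) + S' ∈ mI S' a := Ideal.subset_span (by simp)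
    have h5 := Ideal.mem_map_of_mem (τ : 𝓞 K →+* 𝓞 K) h4
    have h6 : (τ : 𝓞 K →+* 𝓞 K) (1 + S') = 1 - S' := by
      rw [map_add, map_one]
      have : (τ : 𝓞 K →+* 𝓞 K) S' = -S' := hτ
      rw [this]
      ring
    rw [h6] at h5
    exact h5
  have hSu : S' + (u : 𝓞 K) ∈ cj τ c := by
    have h5 := Ideal.mem_map_of_mem (τ : 𝓞 K →+* 𝓞 K) hu
    have h6 : (τ : 𝓞 K →+* 𝓞 K) (S' - (u : 𝓞 K)) = -(S' + (u : 𝓞 K)) := by
      rw [map_sub, map_intCast]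
      have : (τ : 𝓞 K →+* 𝓞 K) S' = -S' := hτ
      rw [this]
      ring
    rw [h6] at h5
    exact neg_mem_iff.1 h5
  rw [hNm] at cm1
  rw [hn] at cc1 hc1 hcc
  rw [hN] at hb7 hbc hcc
  have ob : OddI b := by
    unfold OddI
    exact Nat.odd_iff.2 (by omega)
  have oc : OddI c := by
    unfold OddI
    exact Nat.odd_iff.2 (by omega)
  have occ : OddI (cj τ c) := by
    unfold OddI
    rw [cc1, ← hn]
    exact oc
  have ocm : OddI (cj τ (mI S' a)) := by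
    unfold OddI
    rw [cm1]
    exact hmodd
  generalize cj τ (mI S' a) = I at *
  have kcc : kl (cj τ c) = (kl c)⁻¹ := kl_inv oc occ cc2
  generalize cj τ c = C at *
  have o1 := oddI_mul2 ocm ob
  have o2 := oddI_mul2 o1 occ
  have oJ := oddI_mul2 o2 occ
  have hkJ : kl (I * b * C * C) = 1 := by
    rw [kl_mul o2 occ, kl_mul o1 occ, ← hk, kcc]
    group
  obtain ⟨δ, hδ⟩ := (kl_eq_one oJ).1 hkJ
  obtain ⟨x, y, hxy⟩ := hQ.coords δ
  have hδJ : δ ∈ I * b * C * C := by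
    rw [hδ]
    exact Ideal.mem_span_singleton_self δ
  have hnorm : x ^ 2 + (a : ℤ) * y ^ 2 = (m : ℤ) * N * n ^ 2 := by
    rw [← hQ.norm_gen x y, ← hxy, ← hδ, map_mul, map_mul, map_mul, cm1, cc1, hN]
    push_cast
    ring
  have le1 : I * b * C * C ≤ I * b := Ideal.mul_le_left.trans Ideal.mul_le_left
  have le2 : I * b * C * C ≤ I := le1.trans Ideal.mul_le_left
  have le3 : I * b * C * C ≤ b := le1.trans Ideal.mul_le_right
  have hδm : δ ∈ I := le2 hδJ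
  have hδb : δ ∈ b := le3 hδJ
  have hmxy : (m : ℤ) ∣ x + y := by
    have h4 : S' - ((1 : ℤ) : 𝓞 K) ∈ I := by
      have h5 := I.neg_mem h1S
      have h6 : S' - ((1 : ℤ) : 𝓞 K) = -(1 - S') := by
        rw [Int.cast_one]
        ring
      rw [h6]
      exact h5
    have h5 : ((x + y : ℤ) : 𝓞 K) ∈ I := by
      have h6 : ((x + y : ℤ) : 𝓞 K) = δ + (y : 𝓞 K) * (1 - S') := by
        rw [hxy, Int.cast_add]
        ring
      rw [h6]
      exact Ideal.add_mem _ hδm (Ideal.mul_mem_left _ _ h1S)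
    have h6 := int_mem hb hS h4 h5
    rwa [cm1] at h6
  obtain ⟨B, hB⟩ := hmxy
  have h4 : (N : ℤ) ∣ x + y * t := by
    have h5 : ((x + y * t : ℤ) : 𝓞 K) ∈ b := by
      have h6 : ((x + y * t : ℤ) : 𝓞 K) = δ - (y : 𝓞 K) * (S' - (t : 𝓞 K)) := by
        rw [hxy, Int.cast_add, Int.cast_mul]
        ring
      rw [h6]
      exact Ideal.sub_mem _ hδb (Ideal.mul_mem_left _ _ ht)
    have h6 := int_mem hb hS ht h5
    rwa [hN] at h6
  have h5 := t2a hb hS ht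
  rw [hN] at h5
  have h7 : Nat.Coprime N m := by
    refine Nat.Coprime.coprime_dvd_right ?_ hbc
    rw [hm2]
    exact ⟨2 * a * 2, by ring⟩
  obtain ⟨hmA, hAB, hAo, hBo, hNt⟩ := int_part hm2 hm0 hnorm hB (Nat.odd_iff.2 (by omega))
    (Nat.odd_iff.2 (by omega)) h4 h5 h7
  have mI' : ((m : ℤ) : 𝓞 K) ∈ I := by
    have h8 := Ideal.absNorm_mem I
    rw [cm1] at h8
    rw [Int.cast_natCast]
    exact h8
  have mb' : ((N : ℤ) : 𝓞 K) ∈ b := by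
    have h8 := Ideal.absNorm_mem b
    rw [hN] at h8
    rw [Int.cast_natCast]
    exact h8
  have mC' : ((n : ℤ) : 𝓞 K) ∈ C := by
    have h8 := Ideal.absNorm_mem C
    rw [cc1] at h8
    rw [Int.cast_natCast]
    exact h8
  have hJ' : I * b * C * C ≤ Ideal.span {(x : 𝓞 K) + (y : 𝓞 K) * S'} := by
    rw [hδ, hxy]
  have hcop := cop_part hQ hm2 mI' mb' mC' ht hSu hJ' hmA hB hAB hAo hbc hcc
  rw [hN, hn]
  exact ⟨δ, x, y, B - 2 * y, B, hxy, hδ.symm, by ring, hAo, hBo, hcop, hAB, hNt⟩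

end Pool.Agent.Work.MP_8efaaa_nt.W5
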