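import Mathlib
import Pool.Agent.Work.MP_8efaaa_nt.W5.Defs

/-!
# W5/FFrb (M): the Frobenius elements on the square root of `A`

`e^2 = A` (with `i = ζ^2`), `e e1 = -ζ^2 s`. PROOF. `e`, `e1`, `ζ` are algebraic integers (`e^2` is in `ℤ[ζ^2]`; `e1^2 = A.re - A.im ζ^2`: from `(e e1)^2 = ζ^4 s^2 = a = (A.re + A.im i)(A.re - A.im i)`, `hn`). Let `k = 𝓞 F ⧸ Q` (a field: `Q` is maximal, since it is prime
and nonzero; characteristic `l` as `l ∈ Q`), `g : GaussianInt →+* k`, `g x = x.re + x.im (ζ^2 mod Q)` (`GaussianInt = Zsqrtd (-1)`: `Zsqrtd.lift`). `t : S - t ∈ Q ∩ 𝓞 K`, so `s = t` in `k`, and `l ∣ t^2 + a` (`t^2 + a = -(S - t)(S + t) ∈ Q ∩ ℤ`, an integer in `Q ∩ 𝓞 K`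
which has norm `l`: `l` divides it; or `(t^2 + a)` is zero in `k` of characteristic `l`). `Frb σ Q l` for `x = e`: `σ e = e^l` in `k`.
`l = 1 (mod 4)`: `e^l = e (e^2)^((l-1)/2) = e g(A)^((l-1)/2) = mu e` in `k`; `(σ e)^2 = σ (e^2) = e^2` because `σ (ζ^2) = ζ^(2 l) = ζ^2` (`hz`), so `σ e = ± e`; `mu = ± 1`; if `σ e ≠ mu e` then `σ e = - mu e`, so `2 e = 0` in `k`, `e^2 = g A = 0`,
but `g A` divides `a` (`A conj A = a`), which is nonzero in `k` (`l ∤ a`), and `2 ≠ 0` (`l` odd).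
`l = 3 (mod 4)`: `e^(l+1) = g(A)^((l+1)/2) = mu i t = -mu e e1`, so `e^l = -mu e1` (cancel `e`), `(σ e)^2 = σ (e^2) = A.re - A.im ζ^2 = e1^2` (`σ (ζ^2) = ζ^(2l) = -ζ^2`), so `σ e = ± e1`, and the same argument (`2 e1 ≠ 0` in `k`, since `e e1` is a square root of `a`).
-/

set_option autoImplicit false

namespace Pool.Agent.Work.MP_8efaaa_nt.W5

open NumberField Pool.Agent.Work.MP_8efaaa_nt.R Pool.Agent.Work.MP_8efaaa_nt.N5

private theorem pow_i1 {R : Type*} [CommRing R] {z : R} (hz : z ^ 4 = -1) {l : ℕ}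
    (hl : l % 4 = 1) : (z ^ l) ^ 2 = z ^ 2 := by
  obtain ⟨n, rfl⟩ : ∃ n, l = 4 * n + 1 := ⟨l / 4, by omega⟩
  have h1 : (z ^ (4 * n + 1)) ^ 2 = ((z ^ 4) ^ 2) ^ n * z ^ 2 := by ring
  rw [h1, hz, neg_one_sq, one_pow, one_mul]

private theorem pow_i3 {R : Type*} [CommRing R] {z : R} (hz : z ^ 4 = -1) {l : ℕ}
    (hl : l % 4 = 3) : (z ^ l) ^ 2 = -z ^ 2 := by
  obtain ⟨n, rfl⟩ : ∃ n, l = 4 * n + 3 := ⟨l / 4, by omega⟩
  have h1 : (z ^ (4 * n + 3)) ^ 2 = ((z ^ 4) ^ 2) ^ n * z ^ 4 * z ^ 2 := by ring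
  rw [h1, hz, neg_one_sq, one_pow]
  ring

theorem frb_e {K : Type*} {F : Type} [Field K] [NumberField K] [Field F] [NumberField F]
    [Algebra K F] {a : ℕ} {s : K} {S : 𝓞 K} (hS : algebraMap (𝓞 K) K S = s)
    (hs : s ^ 2 = -(a : K)) {A : GaussianInt} {nu : ℕ → ℤ → ℤ} (hmu : MuLaw a A nu)
    {ζ e e1 : F} (hz8 : ζ ^ 4 = -1) (he : e ^ 2 = (A.re : F) + (A.im : F) * ζ ^ 2)
    (hee : e * e1 = -(ζ ^ 2 * algebraMap K F s)) {l : ℕ} (hl : l.Prime) (hl2 : l ≠ 2)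
    (hla : ¬ l ∣ a) {Q : Ideal (𝓞 F)} (hQ : Q.IsPrime) {σ : F ≃ₐ[K] F} (hlQ : (l : 𝓞 F) ∈ Q)
    (hσ : Frb σ Q l) (hz : σ ζ = ζ ^ l) {t : ℤ}
    (ht : S - (t : 𝓞 K) ∈ Q.comap (algebraMap (𝓞 K) (𝓞 F))) :
    (l % 4 = 1 → σ e = (nu l t : F) * e) ∧ (l % 4 = 3 → σ e = -((nu l t : F) * e1)) := by
  classical
  have hl0 : (l : F) ≠ 0 := by exact_mod_cast hl.ne_zero
  have hodd : Odd l := hl.odd_of_ne_two hl2
  have hcop : l.Coprime a := (Nat.Prime.coprime_iff_not_dvd hl).2 hla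
  -- the residue field
  have hQ0 : Q ≠ ⊥ := by
    rintro rfl
    rw [Ideal.mem_bot] at hlQ
    exact hl.ne_zero (by exact_mod_cast hlQ)
  have hQm : Q.IsMaximal := hQ.isMaximal hQ0
  letI : Field (𝓞 F ⧸ Q) := Ideal.Quotient.field Q
  have hlk : (l : 𝓞 F ⧸ Q) = 0 := by
    have h1 := Ideal.Quotient.eq_zero_iff_mem.2 hlQ
    rwa [map_natCast] at h1
  haveI hchar : CharP (𝓞 F ⧸ Q) l := (CharP.charP_iff_prime_eq_zero hl).2 hlk
  have h2k : (2 : 𝓞 F ⧸ Q) ≠ 0 := by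
    intro h2
    have h3 : ((2 : ℕ) : 𝓞 F ⧸ Q) = 0 := by exact_mod_cast h2
    rw [CharP.cast_eq_zero_iff (𝓞 F ⧸ Q) l] at h3
    exact hl2 ((Nat.prime_dvd_prime_iff_eq hl Nat.prime_two).1 h3)
  have hak : (a : 𝓞 F ⧸ Q) ≠ 0 := by
    intro h2
    rw [CharP.cast_eq_zero_iff (𝓞 F ⧸ Q) l] at h2
    exact hla h2
  -- the algebraic relations in `F`
  have hsF : algebraMap K F s ^ 2 = -(a : F) := by
    rw [← map_pow, hs, map_neg, map_natCast]
  have hA : ((A.re : F)) ^ 2 + (A.im : F) ^ 2 = (a : F) := by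
    have h1 := hmu.nrm
    exact_mod_cast congrArg (fun x : ℤ => (x : F)) h1
  have ha0 : (a : F) ≠ 0 := by
    intro h
    have h1 : a = 0 := by exact_mod_cast h
    exact hla (h1 ▸ dvd_zero l)
  have hprod : e ^ 2 * e1 ^ 2 = (a : F) := by
    have h1 : e ^ 2 * e1 ^ 2 = (e * e1) ^ 2 := by ring
    rw [h1, hee]
    linear_combination (algebraMap K F s ^ 2) * hz8 - hsF
  have hfac : ((A.re : F) + A.im * ζ ^ 2) * (A.re - A.im * ζ ^ 2) = a := by
    linear_combination hA - (A.im : F) ^ 2 * hz8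
  have he0 : e ^ 2 ≠ 0 := by
    intro h
    rw [h, zero_mul] at hprod
    exact ha0 hprod.symm
  have he1 : e1 ^ 2 = (A.re : F) - A.im * ζ ^ 2 := by
    apply mul_left_cancel₀ he0
    rw [hprod, ← hfac, he]
  -- the integers
  have iζ : IsIntegral ℤ ζ := by
    refine IsIntegral.of_pow (n := 4) (by norm_num) ?_
    rw [hz8]
    exact isIntegral_one.neg
  have iA : IsIntegral ℤ ((A.re : F) + (A.im : F) * ζ ^ 2) :=
    (isIntegral_algebraMap (x := A.re)).add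
      ((isIntegral_algebraMap (x := A.im)).mul (iζ.pow 2))
  have iA' : IsIntegral ℤ ((A.re : F) - (A.im : F) * ζ ^ 2) :=
    (isIntegral_algebraMap (x := A.re)).sub
      ((isIntegral_algebraMap (x := A.im)).mul (iζ.pow 2))
  have ie : IsIntegral ℤ e := IsIntegral.of_pow (n := 2) (by norm_num) (by rw [he]; exact iA)
  have ie1 : IsIntegral ℤ e1 := IsIntegral.of_pow (n := 2) (by norm_num) (by rw [he1]; exact iA')
  let Z : 𝓞 F := ⟨ζ, iζ⟩
  let E : 𝓞 F := ⟨e, ie⟩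
  let E1 : 𝓞 F := ⟨e1, ie1⟩
  let S' : 𝓞 F := algebraMap (𝓞 K) (𝓞 F) S
  have vZ : algebraMap (𝓞 F) F Z = ζ := rfl
  have vE : algebraMap (𝓞 F) F E = e := rfl
  have vE1 : algebraMap (𝓞 F) F E1 = e1 := rfl
  have vS : algebraMap (𝓞 F) F S' = algebraMap K F s := by
    rw [← hS]
    show algebraMap (𝓞 F) F (algebraMap (𝓞 K) (𝓞 F) S) = _
    rw [← IsScalarTower.algebraMap_apply, ← IsScalarTower.algebraMap_apply]
  have hinj : Function.Injective (algebraMap (𝓞 F) F) := FaithfulSMul.algebraMap_injective _ _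
  have rE : E ^ 2 = (A.re : 𝓞 F) + A.im * Z ^ 2 := by
    apply hinj
    rw [map_pow, map_add, map_mul, map_pow, map_intCast, map_intCast, vE, vZ, he]
  have rE1 : E1 ^ 2 = (A.re : 𝓞 F) - A.im * Z ^ 2 := by
    apply hinj
    rw [map_pow, map_sub, map_mul, map_pow, map_intCast, map_intCast, vE1, vZ, he1]
  have rEE : E * E1 = -(Z ^ 2 * S') := by
    apply hinj
    rw [map_mul, map_neg, map_mul, map_pow, vE, vE1, vZ, vS, hee]
  have rZ : Z ^ 4 = -1 := by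
    apply hinj
    rw [map_pow, map_neg, map_one, vZ, hz8]
  have rS : S' ^ 2 = -(a : 𝓞 F) := by
    apply hinj
    rw [map_pow, map_neg, map_natCast, vS, hsF]
  -- in the residue field
  set π : 𝓞 F →+* (𝓞 F ⧸ Q) := Ideal.Quotient.mk Q with hπ
  have pS : π S' = (t : 𝓞 F ⧸ Q) := by
    have h1 : algebraMap (𝓞 K) (𝓞 F) (S - (t : 𝓞 K)) ∈ Q := Ideal.mem_comap.1 ht
    rw [map_sub, map_intCast] at h1
    have h2 := Ideal.Quotient.eq_zero_iff_mem.2 h1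
    rw [map_sub, map_intCast, sub_eq_zero] at h2
    exact h2
  have hdvd : (l : ℤ) ∣ t ^ 2 + a := by
    rw [← CharP.intCast_eq_zero_iff (𝓞 F ⧸ Q) l]
    have h1 := congrArg π rS
    rw [map_pow, map_neg, map_natCast, pS] at h1
    push_cast
    rw [h1]
    ring
  have pZ : π Z ^ 4 = -1 := by
    rw [← map_pow, rZ, map_neg, map_one]
  let g : GaussianInt →+* (𝓞 F ⧸ Q) := Zsqrtd.lift ⟨π Z ^ 2, by
    have h1 : π Z ^ 2 * π Z ^ 2 = π Z ^ 4 := by ring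
    rw [h1, pZ]
    push_cast
    rfl⟩
  have gx : ∀ x : GaussianInt, g x = (x.re : 𝓞 F ⧸ Q) + x.im * π Z ^ 2 := fun x => rfl
  have gA : g A = π E ^ 2 := by
    rw [gx, ← map_pow π E, rE, map_add, map_mul, map_pow, map_intCast, map_intCast]
  have gI : g ⟨0, 1⟩ = π Z ^ 2 := by
    rw [gx]
    simp
  have pEE : π E * π E1 = -(π Z ^ 2 * (t : 𝓞 F ⧸ Q)) := by
    rw [← map_mul, rEE, map_neg, map_mul, map_pow, pS]
  have ht2 : (t : 𝓞 F ⧸ Q) ^ 2 = -(a : 𝓞 F ⧸ Q) := by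
    have h1 := congrArg π rS
    rwa [map_pow, map_neg, map_natCast, pS] at h1
  have pEE2 : (π E * π E1) ^ 2 = (a : 𝓞 F ⧸ Q) := by
    rw [pEE]
    linear_combination ((t : 𝓞 F ⧸ Q) ^ 2) * pZ - ht2
  have pE0 : π E ≠ 0 := by
    intro h
    rw [h] at pEE2
    apply hak
    rw [← pEE2]
    ring
  have pE10 : π E1 ≠ 0 := by
    intro h
    rw [h] at pEE2
    apply hak
    rw [← pEE2]
    ring
  -- the Frobenius element on `e`
  obtain ⟨y, hyQ, hy⟩ := hσ E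
  rw [vE] at hy
  have hy' : σ e = algebraMap (𝓞 F) F (y + E ^ l) := by
    rw [map_add, map_pow, hy, vE]
    ring
  have hpy : π (y + E ^ l) = π E ^ l := by
    rw [map_add, map_pow, show π y = 0 from Ideal.Quotient.eq_zero_iff_mem.2 hyQ, zero_add]
  have key : ∀ x : 𝓞 F, σ e = algebraMap (𝓞 F) F x → π x = π E ^ l := by
    intro x hx
    rw [hy'] at hx
    rw [← hinj hx, hpy]
  have hσ2 : (σ e) ^ 2 = (A.re : F) + A.im * (ζ ^ l) ^ 2 := by
    rw [← map_pow, he, map_add, map_mul, map_pow, map_intCast, map_intCast, hz]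
  have hpm := hmu.pm l t hodd hcop hdvd
  have hneg : ∀ x : 𝓞 F ⧸ Q, x ≠ 0 → x ≠ -x := by
    intro x hx h
    have h1 : 2 * x = 0 := by linear_combination h
    exact (mul_ne_zero h2k hx) h1
  constructor
  · intro h4
    have h1 := hmu.frob1 l t hl h4 hla hdvd (𝓞 F ⧸ Q) g
    rw [gA, ← pow_mul] at h1
    have h2 : π E ^ l = (nu l t : 𝓞 F ⧸ Q) * π E := by
      rw [← h1, ← pow_succ]
      congr 1
      omega
    rw [pow_i1 hz8 h4, ← he] at hσ2
    rcases sq_eq_sq_iff_eq_or_eq_neg.1 hσ2 with h3 | h3 <;> rcases hpm with h5 | h5 <;>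
      rw [h5] at h2 ⊢ <;> push_cast at h2 ⊢
    · rw [h3, one_mul]
    · exfalso
      have h6 := key E (by rw [h3, vE])
      rw [h2] at h6
      exact hneg _ pE0 (by linear_combination h6)
    · exfalso
      have h6 := key (-E) (by rw [h3, map_neg, vE])
      rw [h2, map_neg] at h6
      exact hneg _ pE0 (by linear_combination -h6)
    · rw [h3]
      ring
  · intro h4
    have h1 := hmu.frob3 l t hl h4 hla hdvd (𝓞 F ⧸ Q) g
    rw [gA, gI, ← pow_mul] at h1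
    have h2 : π E ^ l = -((nu l t : 𝓞 F ⧸ Q) * π E1) := by
      apply mul_left_cancel₀ pE0
      rw [← pow_succ']
      have h3 : π E ^ (l + 1) = π E ^ (2 * ((l + 1) / 2)) := by
        congr 1
        omega
      rw [h3, h1]
      linear_combination ((nu l t : 𝓞 F ⧸ Q)) * pEE
    rw [pow_i3 hz8 h4] at hσ2
    have h2' : (σ e) ^ 2 = e1 ^ 2 := by
      rw [hσ2, he1]
      ring
    rcases sq_eq_sq_iff_eq_or_eq_neg.1 h2' with h3 | h3 <;> rcases hpm with h5 | h5 <;>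
      rw [h5] at h2 ⊢ <;> push_cast at h2 ⊢
    · exfalso
      have h6 := key E1 (by rw [h3, vE1])
      rw [h2] at h6
      exact hneg _ pE10 (by linear_combination h6)
    · rw [h3]
      ring
    · rw [h3]
      ring
    · exfalso
      have h6 := key (-E1) (by rw [h3, map_neg, vE1])
      rw [h2, map_neg] at h6
      exact hneg _ pE10 (by linear_combination -h6)

end Pool.Agent.Work.MP_8efaaa_nt.W5
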