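import Mathlib
import Pool.Agent.Work.MP_8efaaa_nt.R.EInt

/-!
# W5/FInd (M): induction over Frobenius elements at distinct primes

PROOF. `G = F ≃ₐ[K] F` is finite. For `N ≠ 0` let `Fr N` be the set of the `σ : G` for which there are a prime number `l`, `¬ l ∣ N`, and a prime ideal `Q` of `𝓞 F` with `absNorm (Q ∩ 𝓞 K) = l` and `Frb σ Q l`. `N ∣ N'` implies `Fr N' ⊆ Fr N`. Choose `k ≠ 0` such that
`Nat.card (Fr (N0 k))` is minimal (`Nat.find` / `WellFounded.min` on the set of the values; `Set.ncard`); put `N1 = N0 k`. Then for every `M ≠ 0`: `Fr (N1 M) ⊆ Fr N1` and the cardinalities are equal by minimality, so `Fr (N1 M) = Fr N1` (`Set.eq_of_subset_of_ncard_le`).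
`frob_closure` (R/EInt.lean) for `N1`: `Subgroup.closure (Fr N1) = ⊤`, and since `G` is finite every element is a product of elements of `Fr N1` (as in N5/CAct.lean: `closure_induction` with inverses replaced by powers; or `Submonoid.closure`: for finite groups
`Subgroup.closure_toSubmonoid_of_finite`). Claim: for every list `σ_1, .., σ_m` of elements of `Fr N1` and every `M ≠ 0` there is `n ≠ 0`, prime to `M`, with `P (σ_1 .. σ_m) n`: induction on the list: for the empty list `n = 1`; for `τ * σ`: take `n` for `σ` and `M`; `τ ∈ Fr N1 = Fr (N1 M n)`: there is a prime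
`l`, not dividing `N1 M n`, and `Q`; `hmul` gives `P (τ * σ) (l * n)`, `l n` is prime to `M`.
-/

set_option autoImplicit false

namespace Pool.Agent.Work.MP_8efaaa_nt.W5

open NumberField Pool.Agent.Work.MP_8efaaa_nt.R

/-- The set of the Frobenius elements at primes of degree one not dividing `N`. -/
private def FrS (K F : Type*) [Field K] [NumberField K] [Field F] [NumberField F] [Algebra K F]
    (N : ℕ) : Set (F ≃ₐ[K] F) :=
  {σ : F ≃ₐ[K] F | ∃ (l : ℕ) (Q : Ideal (𝓞 F)), l.Prime ∧ ¬ l ∣ N ∧ Q.IsPrime ∧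
      Ideal.absNorm (Q.comap (algebraMap (𝓞 K) (𝓞 F))) = l ∧ Frb σ Q l}

private theorem frS_mono {K F : Type*} [Field K] [NumberField K] [Field F] [NumberField F]
    [Algebra K F] {N N' : ℕ} (h : N ∣ N') : FrS K F N' ⊆ FrS K F N := by
  rintro σ ⟨l, Q, hl, hlN, hQ, hn, hf⟩
  exact ⟨l, Q, hl, fun h2 => hlN (h2.trans h), hQ, hn, hf⟩

private theorem frS_stab {K F : Type*} [Field K] [NumberField K] [Field F] [NumberField F]
    [Algebra K F] (hfin : Finite (F ≃ₐ[K] F)) (N0 : ℕ) (hN0 : N0 ≠ 0) :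
    ∃ N1 : ℕ, N1 ≠ 0 ∧ N0 ∣ N1 ∧ ∀ M : ℕ, M ≠ 0 → FrS K F (N1 * M) = FrS K F N1 := by
  classical
  have hex : ∃ c : ℕ, ∃ k : ℕ, k ≠ 0 ∧ (FrS K F (N0 * k)).ncard = c :=
    ⟨_, 1, one_ne_zero, rfl⟩
  obtain ⟨k, hk, hc⟩ := Nat.find_spec hex
  refine ⟨N0 * k, mul_ne_zero hN0 hk, dvd_mul_right _ _, fun M hM => ?_⟩
  have hsub : FrS K F (N0 * k * M) ⊆ FrS K F (N0 * k) := frS_mono (dvd_mul_right _ _)
  refine Set.eq_of_subset_of_ncard_le hsub ?_ (Set.toFinite _)
  rw [hc]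
  refine Nat.find_min' hex ⟨k * M, mul_ne_zero hk hM, ?_⟩
  rw [mul_assoc]

theorem frob_ind {K F : Type*} [Field K] [NumberField K] [Field F] [NumberField F] [Algebra K F]
    [IsGalois K F] (N0 : ℕ) (hN0 : N0 ≠ 0) (P : (F ≃ₐ[K] F) → ℕ → Prop) (h1 : P 1 1)
    (hmul : ∀ (σ : F ≃ₐ[K] F) (n : ℕ) (τ : F ≃ₐ[K] F) (l : ℕ) (Q : Ideal (𝓞 F)), n ≠ 0 → P σ n →
      l.Prime → ¬ l ∣ N0 → ¬ l ∣ n → Q.IsPrime →
      Ideal.absNorm (Q.comap (algebraMap (𝓞 K) (𝓞 F))) = l → Frb τ Q l → P (τ * σ) (l * n)) :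
    ∀ (σ : F ≃ₐ[K] F) (M : ℕ), M ≠ 0 → ∃ n : ℕ, n ≠ 0 ∧ n.Coprime M ∧ P σ n := by
  classical
  have hfd : FiniteDimensional K F := Module.Finite.of_restrictScalars_finite ℚ K F
  have hfin : Finite (F ≃ₐ[K] F) := inferInstance
  obtain ⟨N1, hN1, hN01, hstab⟩ := frS_stab hfin N0 hN0
  have hcl : Subgroup.closure (FrS K F N1) = ⊤ := frob_closure N1 hN1
  intro σ
  have hσ : σ ∈ Submonoid.closure (FrS K F N1) := by
    rw [← Subgroup.closure_toSubmonoid_of_finite, hcl]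
    exact Subgroup.mem_top σ
  induction hσ using Submonoid.closure_induction_left with
  | one => exact fun M _ => ⟨1, one_ne_zero, Nat.coprime_one_left M, h1⟩
  | mul_left τ hτ σ hσ ih =>
    intro M hM
    obtain ⟨n, hn, hcop, hP⟩ := ih M hM
    have hτ2 : τ ∈ FrS K F (N1 * (M * n)) := by
      rw [hstab _ (mul_ne_zero hM hn)]
      exact hτ
    obtain ⟨l, Q, hl, hlN, hQ, hQn, hf⟩ := hτ2
    have hl0 : ¬ l ∣ N0 := fun h => hlN ((h.trans hN01).trans (dvd_mul_right _ _))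
    have hlM : ¬ l ∣ M := fun h => hlN (((h.mul_right n)).mul_left N1)
    have hln : ¬ l ∣ n := fun h => hlN (((h.mul_left M)).mul_left N1)
    refine ⟨l * n, mul_ne_zero hl.ne_zero hn, ?_, hmul σ n τ l Q hn hP hl hl0 hln hQ hQn hf⟩
    exact Nat.Coprime.mul_left ((Nat.Prime.coprime_iff_not_dvd hl).2 hlM) hcop

end Pool.Agent.Work.MP_8efaaa_nt.W5
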