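import Mathlib
import Pool.Agent.Work.MP_8efaaa_nt.N5.CFrb
import Pool.Agent.Work.MP_8efaaa_nt.W5.Defs
import Pool.Agent.Work.MP_8efaaa_nt.W5.FFrb
import Pool.Agent.Work.MP_8efaaa_nt.W5.FInd

/-!
# W5/FAct (M): all automorphisms over `K` act by primitive ideals

PROOF. `frob_ind` (W5/FInd) with `N0` = the number `N` of `frob_mact` (N5/CFrb; it is divisible by `2` and `a`), and
`P σ n := ∃ (b : Ideal (𝓞 K)) (t : ℤ), Ideal.absNorm b = n ∧ Odd n ∧ n.Coprime a ∧ S - t ∈ b ∧ (n : ℤ) ∣ t^2 + a ∧ MAct d ζ w z k v vm σ b ∧ (n % 4 = 1 → σ e = nu n t * e) ∧ (n % 4 = 3 → σ e = -(nu n t * e1)) ∧` the same two statements for `e1`: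
`(n % 4 = 1 → σ e1 = nu n t * e1) ∧ (n % 4 = 3 → σ e1 = nu n t * e)`. (The statements for `e1` follow from those for `e`: `e1 = -ζ^2 s / e`, `σ s = s`, `σ (ζ^2) = ζ^2` or `-ζ^2` for `n = 1, 3 (mod 4)`, `nu = ± 1`: `n = 1`: `σ e1 = -ζ^2 s / (nu e) = nu e1`;
`n = 3`: `σ e1 = ζ^2 s / (-nu e1) = -nu ζ^2 s / e1 = nu e`; prove them as a lemma.)
`P 1 1`: `b = 1`, `t = 0`, `nu 1 0 = 1`. Step: `σ` with `b`, `t1`, `n`; `τ` a Frobenius element at `Q`, `r = Q ∩ 𝓞 K` of norm `l`, `l ∤ N0`, `l ∤ n`. There is `t2` with `S - t2 ∈ r` (`𝓞 K ⧸ r` has `l` elements, so `ℤ → 𝓞 K ⧸ r` is surjective; e.g. `R/..`: look for a lemma used for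
Kronecker congruences, or `Ideal.absNorm` prime implies `ZMod l ≃ 𝓞 K ⧸ r`). CRT: `t = t1 (mod n)`, `t = t2 (mod l)` (`Int`/`Nat` chinese remainder, `n` and `l` coprime). `S - t ∈ b` (`n ∈ b` since `absNorm b ∈ b`), `S - t ∈ r`; `b` and `r` are coprime (coprime norms), so `S - t ∈ r ⊓ b = r * b`.
`MAct (τ σ) (r b)`: as `good_mul` in N5/CAct.lean. `nu (l n) t = nu l t * nu n t * (-1)^((l-1)/2 (n-1)/2)` (`MuLaw.mul`), `nu n t = nu n t1`, `nu l t = nu l t2` (`cong`). Four cases for `(l, n)` modulo `4`: `(1,1)`: `τ σ e = τ (nu n e) = nu n nu l e`. `(1,3)` (`l = 1`, `n = 3`): `τ (-(nu n e1)) = -(nu n nu l e1)`.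
`(3,1)`: `τ (nu n e) = -(nu n nu l e1)`. `(3,3)`: `τ (-(nu n e1)) = -(nu n nu l e)`, `l n = 1 (mod 4)`, sign `(-1)^(odd odd) = -1`: correct. The same for `e1` (or again by the lemma).
`frb_e` (W5/FFrb) gives the statement for `τ` (needs `(l : 𝓞 F) ∈ Q`: `absNorm r ∈ r`; `τ ζ = ζ^l` from `frob_mact`). Finally from `P σ n` with `n` prime to `M` read off the conclusion.
-/

set_option autoImplicit false

namespace Pool.Agent.Work.MP_8efaaa_nt.W5

open NumberField Pool.Agent.Work.CM Pool.Agent.Work.MP_8efaaa_nt.R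
  Pool.Agent.Work.MP_8efaaa_nt.N5

universe u

private theorem fa_int {K : Type*} [Field K] [NumberField K] {l : ℕ} (hl : l.Prime)
    {q : Ideal (𝓞 K)} (hq : q.IsPrime) (hql : Ideal.absNorm q = l) (t : 𝓞 K) :
    ∃ n : ℤ, t - n ∈ q := by
  have : Fact l.Prime := ⟨hl⟩
  have hcard : Nat.card (𝓞 K ⧸ q) = l := by
    rw [← hql, Ideal.absNorm_apply, Submodule.cardQuot_apply]
  have h1 : (1 : 𝓞 K ⧸ q) ≠ 0 := by
    have := Ideal.Quotient.nontrivial_iff.mpr hq.ne_top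
    exact one_ne_zero
  have := mem_zmultiples_of_prime_card (p := l) hcard (g' := Ideal.Quotient.mk q t) h1
  obtain ⟨n, hn⟩ := AddSubgroup.mem_zmultiples_iff.mp this
  refine ⟨n, ?_⟩
  rw [← Ideal.Quotient.eq_zero_iff_mem, map_sub, sub_eq_zero, ← hn]
  simp

/-- the action on `e1` from the action on `e` -/
private theorem fa_e1 {K F : Type*} [Field K] [Field F] [CharZero F] [Algebra K F] {s : K}
    (hs0 : algebraMap K F s ≠ 0) {ζ e e1 : F} (hz : ζ ^ 4 = -1)
    (hee : e * e1 = -(ζ ^ 2 * algebraMap K F s)) {σ : F ≃ₐ[K] F} {n : ℕ} (hσ : σ ζ = ζ ^ n)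
    {ν : ℤ} (hν : ν = 1 ∨ ν = -1) :
    (n % 4 = 1 → σ e = (ν : F) * e → σ e1 = (ν : F) * e1) ∧
      (n % 4 = 3 → σ e = -((ν : F) * e1) → σ e1 = (ν : F) * e) := by
  have hz0 : ζ ≠ 0 := by
    rintro rfl
    rw [zero_pow (by norm_num)] at hz
    exact one_ne_zero (neg_eq_zero.1 hz.symm)
  have h0 : e * e1 ≠ 0 := by
    rw [hee]
    exact neg_ne_zero.2 (mul_ne_zero (pow_ne_zero _ hz0) hs0)
  have he0 : e ≠ 0 := left_ne_zero_of_mul h0
  have he10 : e1 ≠ 0 := right_ne_zero_of_mul h0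
  have hν2 : (ν : F) * ν = 1 := by
    rcases hν with rfl | rfl <;> norm_num
  have hν0 : (ν : F) ≠ 0 := left_ne_zero_of_mul (hν2 ▸ one_ne_zero)
  have h1 := congrArg σ hee
  rw [map_mul, map_neg, map_mul, map_pow, hσ, AlgEquiv.commutes] at h1
  constructor
  · intro hn h
    have h2 : (ζ ^ n) ^ 2 = ζ ^ 2 := by
      rw [← pow_mul, show n * 2 = 4 * (2 * (n / 4)) + 2 by omega, pow_add, pow_mul, hz, pow_mul]
      norm_num
    rw [h2, ← hee, h] at h1
    apply mul_left_cancel₀ (mul_ne_zero hν0 he0)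
    rw [h1]
    linear_combination (-(e * e1)) * hν2
  · intro hn h
    have h2 : (ζ ^ n) ^ 2 = -ζ ^ 2 := by
      rw [← pow_mul, show n * 2 = 4 * (2 * (n / 4) + 1) + 2 by omega, pow_add, pow_mul, hz,
        pow_succ, pow_mul]
      norm_num
    rw [h2, h] at h1
    apply mul_left_cancel₀ (mul_ne_zero hν0 he10)
    linear_combination (-1 : F) * h1 - hee - (e * e1) * hν2

/-- the product of two actions -/
private theorem fa_mul {K F : Type*} [Field K] [NumberField K] [Field F] [Algebra K F] {d : ℕ}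
    {ζ w : F} {z k v vm : Ideal (𝓞 K) → F} {x y : F ≃ₐ[K] F} {b e : Ideal (𝓞 K)}
    (hb1 : OddI b) (he1 : OddI e) (hb3 : MAct d ζ w z k v vm x b)
    (he3 : MAct d ζ w z k v vm y e) : MAct d ζ w z k v vm (x * y : F ≃ₐ[K] F) (b * e) := by
  have hmul : ∀ c : Ideal (𝓞 K), OddI c → OddI (e * c) := by
    intro c hc
    unfold OddI at *
    rw [map_mul]
    exact he1.mul hc
  refine ⟨?_, ?_, ?_, ?_⟩
  · intro c hc
    obtain ⟨h1, h2, h3⟩ := he3.act c hc
    obtain ⟨h4, h5, h6⟩ := hb3.act (e * c) (hmul c hc)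
    refine ⟨?_, ?_, ?_⟩
    · show x (y (z c)) = _
      rw [h1, h4, mul_assoc]
    · show x (y (k c)) = _
      rw [h2, h5, mul_assoc]
    · show x (y (v c)) = _
      rw [h3, h6, mul_assoc]
  · intro c hc
    have h1 := he3.actm c hc
    have h2 := hb3.actm (e * c) (hmul c hc)
    show x (y (vm c)) = _
    rw [h1, h2, mul_assoc]
  · have h1 := he3.z8
    have h2 := hb3.z8
    show x (y ζ) = _
    rw [h1, map_pow, h2, ← pow_mul, map_mul]
  · have h1 := he3.sq
    have h2 := hb3.sq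
    have n1 : NeZero (Ideal.absNorm b) := ⟨fun h0 => by
      unfold OddI at hb1
      rw [h0] at hb1
      exact absurd hb1 (by decide)⟩
    have n2 : NeZero (Ideal.absNorm e) := ⟨fun h0 => by
      unfold OddI at he1
      rw [h0] at he1
      exact absurd he1 (by decide)⟩
    show x (y w) = _
    rw [h1, map_mul, map_intCast, h2, map_mul, jacobiSym.mul_right, Int.cast_mul]
    ring

/-- an integer in a prime ideal of norm `l` is divisible by `l` -/
private theorem fa_dvd {K : Type*} [Field K] [NumberField K] {l : ℕ} (hl : l.Prime)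
    {q : Ideal (𝓞 K)} (hq : q.IsPrime) (hlq : (l : 𝓞 K) ∈ q) {m : ℤ} (hm : (m : 𝓞 K) ∈ q) :
    (l : ℤ) ∣ m := by
  by_contra h
  have hc : IsCoprime (l : ℤ) m := (Nat.prime_iff_prime_int.1 hl).coprime_iff_not_dvd.2 h
  obtain ⟨u, v, huv⟩ := hc
  apply hq.ne_top
  rw [Ideal.eq_top_iff_one]
  have h1 : (1 : 𝓞 K) = u * l + v * m := by exact_mod_cast congrArg (Int.cast : ℤ → 𝓞 K) huv.symm
  rw [h1]
  exact q.add_mem (q.mul_mem_left _ hlq) (q.mul_mem_left _ hm)

theorem act_prim {K : Type u} {F : Type} [Field K] [NumberField K] [Algebra K ℂ] [Field F]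
    [NumberField F] [Algebra K F] [Algebra F ℂ] [IsScalarTower K F ℂ] [IsGalois K F] {a d : ℕ}
    {s : K} (hb : Base5 K a s) {S : 𝓞 K} (hS : algebraMap (𝓞 K) K S = s) {ζ w : F}
    {z k v vm : Ideal (𝓞 K) → F} (h : ICtx K F s d ζ w z k v vm) (hd : d ≠ 0)
    {A : GaussianInt} {nu : ℕ → ℤ → ℤ} (hmu : MuLaw a A nu) {e e1 : F}
    (he : e ^ 2 = (A.re : F) + (A.im : F) * ζ ^ 2)
    (hee : e * e1 = -(ζ ^ 2 * algebraMap K F s)) (σ : F ≃ₐ[K] F) (M : ℕ) (hM : M ≠ 0) :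
    ∃ (b : Ideal (𝓞 K)) (t : ℤ), OddI b ∧ Nat.Coprime (Ideal.absNorm b) M ∧
      S - (t : 𝓞 K) ∈ b ∧ MAct d ζ w z k v vm σ b ∧
      (Ideal.absNorm b % 4 = 1 → σ e = (nu (Ideal.absNorm b) t : F) * e) ∧
      (Ideal.absNorm b % 4 = 3 → σ e = -((nu (Ideal.absNorm b) t : F) * e1)) := by
  obtain ⟨N0, hN0, h2N, haN, hact⟩ := frob_mact hb h hd
  have hz4 : ζ ^ 4 = -1 := h.dc.z8
  have hSq : S * S = -(a : 𝓞 K) := by
    apply FaithfulSMul.algebraMap_injective (𝓞 K) K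
    rw [map_mul, hS, map_neg, map_natCast, ← hb.sq, pow_two]
  have hs0 : algebraMap K F s ≠ 0 := by
    rw [Ne, map_eq_zero]
    intro h0
    have h1 := hb.sq
    rw [h0, zero_pow (by norm_num)] at h1
    have h2 : a = 0 := by exact_mod_cast neg_eq_zero.1 h1.symm
    have := hb.mod
    omega
  -- the property
  set P : (F ≃ₐ[K] F) → ℕ → Prop := fun σ n => ∃ (b : Ideal (𝓞 K)) (t : ℤ),
    Ideal.absNorm b = n ∧ Odd n ∧ n.Coprime a ∧ S - (t : 𝓞 K) ∈ b ∧ (n : ℤ) ∣ t ^ 2 + a ∧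
    MAct d ζ w z k v vm σ b ∧ (n % 4 = 1 → σ e = (nu n t : F) * e) ∧
    (n % 4 = 3 → σ e = -((nu n t : F) * e1)) with hP
  have hP1 : P 1 1 := by
    refine ⟨1, 0, by simp, by decide, by simp, ?_, by simp, ?_, ?_, by omega⟩
    · rw [Ideal.one_eq_top]
      trivial
    · refine ⟨?_, ?_, ?_, ?_⟩
      · intro c _
        rw [one_mul]
        exact ⟨rfl, rfl, rfl⟩
      · intro c _
        rw [one_mul]
        rfl
      · rw [map_one, pow_one]
        rfl
      · rw [map_one, jacobiSym.one_right, Int.cast_one, one_mul]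
        rfl
    · intro _
      rw [hmu.one, Int.cast_one, one_mul]
      rfl
  have hmul : ∀ (σ : F ≃ₐ[K] F) (n : ℕ) (τ : F ≃ₐ[K] F) (l : ℕ) (Q : Ideal (𝓞 F)), n ≠ 0 →
      P σ n → l.Prime → ¬ l ∣ N0 → ¬ l ∣ n → Q.IsPrime →
      Ideal.absNorm (Q.comap (algebraMap (𝓞 K) (𝓞 F))) = l → Frb τ Q l → P (τ * σ) (l * n) := by
    intro σ n τ l Q hn hσ hl hlN hln hQ hql hτ
    obtain ⟨b, t1, hbn, hno, hna, hSb, hnt, hMb, hσ1, hσ3⟩ := hσ
    have hl2 : l ≠ 2 := by
      rintro rfl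
      exact hlN h2N
    have hlo : Odd l := hl.odd_of_ne_two hl2
    have hla : ¬ l ∣ a := fun h0 => hlN (h0.trans haN)
    have hlac : l.Coprime a := hl.coprime_iff_not_dvd.2 hla
    have hlnc : l.Coprime n := hl.coprime_iff_not_dvd.2 hln
    set r : Ideal (𝓞 K) := Q.comap (algebraMap (𝓞 K) (𝓞 F)) with hr
    have hrp : r.IsPrime := Ideal.IsPrime.comap _
    have hlr : (l : 𝓞 K) ∈ r := by
      have h1 : ((Ideal.absNorm r : ℕ) : 𝓞 K) ∈ r := Ideal.absNorm_mem r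
      rwa [hql] at h1
    have hlQ : (l : 𝓞 F) ∈ Q := by
      have h1 := hlr
      rw [hr, Ideal.mem_comap, map_natCast] at h1
      exact h1
    have hnb : (n : 𝓞 K) ∈ b := by
      have h1 : ((Ideal.absNorm b : ℕ) : 𝓞 K) ∈ b := Ideal.absNorm_mem b
      rwa [hbn] at h1
    obtain ⟨t2, ht2⟩ := fa_int hl hrp hql S
    obtain ⟨u, v', huv⟩ : IsCoprime (n : ℤ) (l : ℤ) := Nat.isCoprime_iff_coprime.2 hlnc.symm
    set t : ℤ := t1 + (t2 - t1) * (u * n) with ht
    have htn : t ≡ t1 [ZMOD n] := by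
      refine (Int.modEq_iff_dvd.2 ⟨-((t2 - t1) * u), ?_⟩)
      rw [ht]
      ring
    have htt1 : t - t1 = (t2 - t1) * u * n := by
      rw [ht]
      ring
    have htt2 : t - t2 = (t1 - t2) * v' * l := by
      rw [ht]
      linear_combination (t2 - t1) * huv
    have hSb' : S - (t : 𝓞 K) ∈ b := by
      have h1 : S - (t : 𝓞 K) = (S - (t1 : 𝓞 K)) - ((t2 - t1) * u : ℤ) * (n : 𝓞 K) := by
        have h2 := congrArg (Int.cast : ℤ → 𝓞 K) htt1
        push_cast at h2 ⊢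
        linear_combination -h2
      rw [h1]
      exact b.sub_mem hSb (b.mul_mem_left _ hnb)
    have hSr' : S - (t : 𝓞 K) ∈ r := by
      have h1 : S - (t : 𝓞 K) = (S - (t2 : 𝓞 K)) - ((t1 - t2) * v' : ℤ) * (l : 𝓞 K) := by
        have h2 := congrArg (Int.cast : ℤ → 𝓞 K) htt2
        push_cast at h2 ⊢
        linear_combination -h2
      rw [h1]
      exact r.sub_mem ht2 (r.mul_mem_left _ hlr)
    have hnt' : (n : ℤ) ∣ t ^ 2 + a := by
      have h1 : t ^ 2 + (a : ℤ) = (t1 ^ 2 + a) + n * ((t2 - t1) * u * (t + t1)) := by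
        linear_combination (t + t1) * htt1
      rw [h1]
      exact dvd_add hnt (dvd_mul_right _ _)
    have hlt' : (l : ℤ) ∣ t ^ 2 + a := by
      apply fa_dvd hl hrp hlr
      have h1 : ((t ^ 2 + (a : ℤ) : ℤ) : 𝓞 K) = -((S + t) * (S - (t : 𝓞 K))) := by
        push_cast
        linear_combination hSq
      rw [h1]
      exact r.neg_mem (r.mul_mem_left _ hSr')
    have hcop : IsCoprime r b := by
      rw [Ideal.isCoprime_iff_exists]
      refine ⟨(v' : 𝓞 K) * l, r.mul_mem_left _ hlr, (u : 𝓞 K) * n, b.mul_mem_left _ hnb, ?_⟩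
      have h2 := congrArg (Int.cast : ℤ → 𝓞 K) huv
      push_cast at h2
      linear_combination h2
    have hMr := hact l Q τ hl hlN hQ hql hτ
    have hodr : OddI r := by
      unfold OddI
      rw [hql]
      exact hlo
    have hodb : OddI b := by
      unfold OddI
      rw [hbn]
      exact hno
    have hτζ : τ ζ = ζ ^ l := by
      have h1 := hMr.z8
      rw [hql] at h1
      exact h1
    have hσζ : σ ζ = ζ ^ n := by
      have h1 := hMb.z8
      rw [hbn] at h1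
      exact h1
    obtain ⟨hτ1, hτ3⟩ := frb_e hS hb.sq hmu hz4 he hee hl hl2 hla hQ hlQ hτ hτζ hSr'
    have hνl := hmu.pm l t hlo hlac hlt'
    have hνn := hmu.pm n t hno hna hnt'
    have hcong := hmu.cong n t t1 htn
    have hmm := hmu.mul l n t hlo hno hlnc hlac hna hlt' hnt'
    obtain ⟨k1, k3⟩ := fa_e1 hs0 hz4 hee hτζ hνl
    rw [← hcong] at hσ1 hσ3
    refine ⟨r * b, t, ?_, hlo.mul hno, Nat.Coprime.mul_left hlac hna, ?_, ?_,
      fa_mul hodr hodb hMr hMb, ?_, ?_⟩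
    · rw [map_mul, hql, hbn]
    · rw [Ideal.mul_eq_inf_of_isCoprime hcop]
      exact ⟨hSr', hSb'⟩
    · push_cast
      exact IsCoprime.mul_dvd (Nat.isCoprime_iff_coprime.2 hlnc) hlt' hnt'
    · intro hln1
      have hl4 : l % 4 = 1 ∨ l % 4 = 3 := by
        have := Nat.odd_iff.1 hlo
        omega
      rcases hl4 with hl4 | hl4
      · have hn4 : n % 4 = 1 := by
          rw [Nat.mul_mod, hl4] at hln1
          omega
        have hev : Even ((l - 1) / 2 * ((n - 1) / 2)) :=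
          Even.mul_right (Nat.even_iff.2 (by omega)) _
        have h1 : (τ * σ) e = τ (σ e) := rfl
        rw [h1, hσ1 hn4, map_mul, map_intCast, hτ1 hl4, hmm, hev.neg_one_pow]
        push_cast
        ring
      · have hn4 : n % 4 = 3 := by
          rw [Nat.mul_mod, hl4] at hln1
          omega
        have hod : Odd ((l - 1) / 2 * ((n - 1) / 2)) :=
          Odd.mul (Nat.odd_iff.2 (by omega)) (Nat.odd_iff.2 (by omega))
        have h1 : (τ * σ) e = τ (σ e) := rfl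
        rw [h1, hσ3 hn4, map_neg, map_mul, map_intCast, k3 hl4 (hτ3 hl4), hmm, hod.neg_one_pow]
        push_cast
        ring
    · intro hln3
      have hl4 : l % 4 = 1 ∨ l % 4 = 3 := by
        have := Nat.odd_iff.1 hlo
        omega
      rcases hl4 with hl4 | hl4
      · have hn4 : n % 4 = 3 := by
          rw [Nat.mul_mod, hl4] at hln3
          omega
        have hev : Even ((l - 1) / 2 * ((n - 1) / 2)) :=
          Even.mul_right (Nat.even_iff.2 (by omega)) _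
        have h1 : (τ * σ) e = τ (σ e) := rfl
        rw [h1, hσ3 hn4, map_neg, map_mul, map_intCast, k1 hl4 (hτ1 hl4), hmm, hev.neg_one_pow]
        push_cast
        ring
      · have hn4 : n % 4 = 1 := by
          rw [Nat.mul_mod, hl4] at hln3
          omega
        have hev : Even ((l - 1) / 2 * ((n - 1) / 2)) :=
          Even.mul_left (Nat.even_iff.2 (by omega)) _
        have h1 : (τ * σ) e = τ (σ e) := rfl
        rw [h1, hσ1 hn4, map_mul, map_intCast, hτ3 hl4, hmm, hev.neg_one_pow]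
        push_cast
        ring
  obtain ⟨n, hn0, hnM, b, t, hbn, hno, hna, hSb, hnt, hMb, hσ1, hσ3⟩ :=
    frob_ind N0 hN0 P hP1 hmul σ M hM
  subst hbn
  exact ⟨b, t, hno, hnM, hSb, hMb, hσ1, hσ3⟩

end Pool.Agent.Work.MP_8efaaa_nt.W5
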