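import Mathlib
import Pool.Agent.Work.MP_8efaaa_nt.W5.Defs
import Pool.Agent.Work.MP_8efaaa_nt.N5.EIo

/-!
# W5/TDe (S-M): translations by principal ideals

PROOF of `tt_par`. `δ = x + y S` odd, `δ^2 = (x^2 - a y^2) + 2 x y S`, and `x y` is even (`x + y` is odd), so `δ^2 = x' + 4 y' S` with `x' = x^2 - a y^2` odd, `4 y' = 2 x y`, and
`x' + 4 y' = x^2 - a y^2 + 2 x y`. `y` even: it is `1` modulo `8` (`y = 2 z`: `x^2 - 4 a z^2 + 4 x z = 1 - 4 z^2 + 4 z (x) = 1 + 4 z (x - z a) ..`, check the residues: `a = 5`, `x` odd, `4 z (x - a z)` is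
`0 (mod 8)`), so `2 tt δ = tt (δ^2) = 0` by `h.gd.tr1` (`tt_mul`). `y` odd, `x` even: it is `-a + x (x + 2 y) = -5 + 0 = 3 (mod 8)` (`x (x + 2 y) = 0 (mod 8)`), so `e8 = -1`, `tt (δ^2) = (0,0)`
(`tr1` for `c = 1`: `X (δ^2) = -1/X`, `Y (δ^2) = Y/X^2`, this is `PP 1 + (0,0)`: see `pt_add_T`, N5/EFr.lean, `trans_n`).
`tt_five`: let `t = tt δ`, `δ' = τ δ`, `t' = tt δ'`. `δ δ' = N` (`N = absNorm = 5 (mod 8)`), so `t + t' = tt (N) = (0,0)` (`tr1`, `e8 5 = -1`). `κ`: `gal κ (PP c) = -I (PP (cj c))` for `N c = 1 (mod 4)`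
(`cX`, `cY1`: `(-X, -ζ^2 Y)`), and `κ (ζ^2) = -ζ^2`. So `gal κ t = -I t' = -I (Ez - t) = Ez + I t`. If `gpi I t = Ep` then `t = (i, 1 - i)` or `(i, 1 - i) + Ez` (`gpi I (i, 1-i) = (1, 0)`; kernel of `gpi I` is
`{0, Ez}`: `hI.gmod.gpi_eq_zero`), and in both cases `gal κ t = I t` (`κ (i, 1-i) = (-i, 1 + i) = I (i, 1 - i)`; `gal κ Ez = Ez = I Ez`): so `Ez = 0`, contradiction.
(`absNorm (span {δ}) = x^2 + a y^2`: `Q5.norm_gen` or `norm_int`; `norm_principal`: it is `1 (mod 4)`.)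
-/

set_option autoImplicit false

namespace Pool.Agent.Work.MP_8efaaa_nt.W5

open NumberField Pool.Agent.Work.MP_8efaaa_nt.R Pool.Agent.Work.MP_8efaaa_nt.N5
open scoped Classical

variable {K : Type*} {F : Type*} [Field K] [NumberField K] [Field F] [NumberField F]
  [Algebra K F] {a d : ℕ} {s : K} {S : 𝓞 K} {τ : 𝓞 K ≃+* 𝓞 K} {ζ w : F}
  {X Y V U : Ideal (𝓞 K) → F} {κ : F ≃ₐ[ℚ] F}

private theorem tde_add_T {F : Type*} [Field F] [CharZero F] {x y : F} (h : y ^ 2 = x ^ 3 - x)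
    (hx : x ≠ 0) (h0 : (0 : F) ^ 2 = 0 ^ 3 - 0) :
    ∃ h', pt x y h + pt 0 0 h0 = pt (-1 / x) (y / x ^ 2) h' := by
  have hs : (cQ F).slope x 0 y 0 = y / x := by
    rw [WeierstrassCurve.Affine.slope_of_X_ne hx]
    simp
  have hX : (cQ F).addX x 0 (y / x) = -1 / x := by
    simp only [WeierstrassCurve.Affine.addX, cQ]
    field_simp
    linear_combination h
  have hY : (cQ F).addY x 0 y (y / x) = y / x ^ 2 := by
    simp only [WeierstrassCurve.Affine.addY, WeierstrassCurve.Affine.negY,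
      WeierstrassCurve.Affine.negAddY, hX]
    simp only [cQ]
    field_simp
    ring
  have hadd : pt x y h + pt 0 0 h0 = WeierstrassCurve.Affine.Point.some
      ((cQ F).addX x 0 (y / x)) ((cQ F).addY x 0 y (y / x)) (by
        rw [← hs]
        exact WeierstrassCurve.Affine.nonsingular_add (cQ_nonsingular.2 h) (cQ_nonsingular.2 h0)
          (fun hc => hx hc.1)) := by
    unfold pt
    rw [WeierstrassCurve.Affine.Point.add_of_X_ne hx, WeierstrassCurve.Affine.Point.some.injEq, hs]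
    exact ⟨rfl, rfl⟩
  refine ⟨?_, ?_⟩
  · rw [← hX, ← hY, ← cQ_nonsingular, ← hs]
    exact WeierstrassCurve.Affine.nonsingular_add (cQ_nonsingular.2 h) (cQ_nonsingular.2 h0)
          (fun hc => hx hc.1)
  · rw [hadd]
    unfold pt
    rw [WeierstrassCurve.Affine.Point.some.injEq]
    exact ⟨hX, hY⟩

/-- the point `(i, 1 - i)` is mapped to `(1, 0)` -/
private theorem tde_A {F : Type*} [Field F] [CharZero F] {i : F}
    {I : (cQ F).Point →+ (cQ F).Point} (hI : CMI i I) (hA : (1 - i) ^ 2 = i ^ 3 - i) :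
    gpi I (pt i (1 - i) hA) = Ep F := by
  have hi0 : i ≠ 0 := by
    rintro rfl
    have := hI.i2
    norm_num at this
  have hne : i ≠ -i := by
    intro h
    apply hi0
    have h2 : (2 : F) * i = 0 := by linear_combination h
    exact (mul_eq_zero.1 h2).resolve_left two_ne_zero
  have hn := hI.i_eq hA
  have hs : (cQ F).slope i (-i) (1 - i) (i * (1 - i)) = -1 := by
    rw [WeierstrassCurve.Affine.slope_of_X_ne hne, div_eq_iff (sub_ne_zero.2 hne)]
    linear_combination hI.i2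
  have hX : (cQ F).addX i (-i) (-1) = 1 := by
    simp only [WeierstrassCurve.Affine.addX, cQ]
    ring
  have hY : (cQ F).addY i (-i) (1 - i) (-1) = 0 := by
    simp only [WeierstrassCurve.Affine.addY, WeierstrassCurve.Affine.negY,
      WeierstrassCurve.Affine.negAddY, hX]
    simp only [cQ]
    ring
  rw [gpi_apply, hI.pt hA]
  unfold Ep pt
  rw [WeierstrassCurve.Affine.Point.add_of_X_ne hne, WeierstrassCurve.Affine.Point.some.injEq, hs]
  exact ⟨hX, hY⟩

private theorem tde_e8 (hS : algebraMap (𝓞 K) K S = s) (hG : GDat K F s ζ X Y) {x y : ℤ}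
    {δ : 𝓞 K} (hδ : δ = x + 4 * y * S) (hx : Odd x) (ho : OddI (Ideal.span {δ})) :
    (e8 (x + 4 * y) = 1 → tt hG (Ideal.span {δ}) = 0) ∧
    (e8 (x + 4 * y) = -1 → tt hG (Ideal.span {δ}) = Ez F) := by
  have hδ' : algebraMap (𝓞 K) K δ = x + 4 * y * s := by
    rw [hδ, ← hS]
    simp only [map_add, map_mul, map_intCast, map_ofNat]
  obtain ⟨t1, t2⟩ := hG.tr1 x y δ hx hδ' 1 oddI_one
  rw [mul_one] at t1 t2
  unfold tt
  rw [PP_eq hG ho, PP_eq hG oddI_one]
  constructor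
  · intro he
    obtain ⟨u1, u2⟩ := t1 he
    rw [sub_eq_zero, pt_inj]
    exact ⟨u1, u2⟩
  · intro he
    obtain ⟨u1, u2⟩ := t2 he
    obtain ⟨h', g⟩ := tde_add_T (hG.eqn 1 oddI_one) (hG.ne 1 oddI_one) (by ring)
    have : pt (X (Ideal.span {δ})) (Y (Ideal.span {δ})) (hG.eqn _ ho) =
        pt (X 1) (Y 1) (hG.eqn 1 oddI_one) + pt 0 0 (by ring) := by
      rw [g]
      exact pt_inj.2 ⟨u1, u2⟩
    rw [this, add_sub_cancel_left]
    rfl

private theorem tde_zmod {z : ℤ} {r : ℤ} (h : ((z : ℤ) : ZMod 8) = ((r : ℤ) : ZMod 8)) :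
    z % 8 = r % 8 := by
  have := (ZMod.intCast_eq_intCast_iff' z r 8).1 h
  exact_mod_cast this

theorem tt_par (hb : Base5 K a s) (hS : algebraMap (𝓞 K) K S = s)
    (h : IDat K F a d s S τ ζ w X Y V U κ) {x y : ℤ} {δ : 𝓞 K} (hδ : δ = x + y * S)
    (ho : OddI (Ideal.span {δ})) :
    (Even y → (2 : ℤ) • tt h.gd (Ideal.span {δ}) = 0) ∧
    (Odd y → (2 : ℤ) • tt h.gd (Ideal.span {δ}) = Ez F) := by
  have hδ' : algebraMap (𝓞 K) K δ = x + y * s := by
    rw [hδ, ← hS]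
    simp only [map_add, map_mul, map_intCast]
  have hn := norm_lin hb hδ'
  have hodd : Odd (x ^ 2 + a * y ^ 2) := by
    rw [← hn]
    exact_mod_cast ho
  have ha8 : ((a : ℤ) : ZMod 8) = 5 := by
    have h1 : ((a : ℤ) : ZMod 8) = ((5 : ℤ) : ZMod 8) := by
      rw [ZMod.intCast_eq_intCast_iff']
      have := hb.mod
      omega
    rw [h1]
    rfl
  have hao : Odd (a : ℤ) := by
    have := hb.mod
    exact_mod_cast Nat.odd_iff.2 (by omega : a % 2 = 1)
  have hS2 : S ^ 2 = -(a : 𝓞 K) := by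
    apply RingOfIntegers.ext
    have : algebraMap (𝓞 K) K (S ^ 2) = algebraMap (𝓞 K) K (-(a : 𝓞 K)) := by
      rw [map_pow, hS, map_neg, map_natCast, hb.sq]
    exact this
  have hsq : Ideal.span {δ ^ 2} = Ideal.span {δ} * Ideal.span {δ} := by
    rw [Ideal.span_singleton_mul_span_singleton, pow_two]
  have hosq : OddI (Ideal.span {δ ^ 2}) := by
    rw [hsq]
    exact oddI_mul'.2 ⟨ho, ho⟩
  have h2 : (2 : ℤ) • tt h.gd (Ideal.span {δ}) = tt h.gd (Ideal.span {δ ^ 2}) := by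
    rw [hsq, tt_mul hb h.gd ho ho, two_zsmul]
  rw [h2]
  rcases Int.even_or_odd y with hy | hy
  · refine ⟨fun _ => ?_, fun hc => absurd hy (Int.not_even_iff_odd.2 hc)⟩
    have hx : Odd x := by
      by_contra hc
      rw [Int.not_odd_iff_even] at hc
      apply Int.not_even_iff_odd.2 hodd
      exact (hc.pow_of_ne_zero two_ne_zero).add ((hy.pow_of_ne_zero two_ne_zero).mul_left _)
    obtain ⟨z, hz⟩ := hy
    obtain ⟨k, hk⟩ := hx
    have e1 : δ ^ 2 = ((x ^ 2 - a * y ^ 2 : ℤ) : 𝓞 K) + 4 * ((x * z : ℤ) : 𝓞 K) * S := by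
      have hy' : (y : 𝓞 K) = 2 * (z : 𝓞 K) := by rw [hz]; push_cast; ring
      rw [hδ, hy']
      push_cast
      rw [hy']
      linear_combination (4 * (z : 𝓞 K) ^ 2) * hS2
    have hx' : Odd (x ^ 2 - a * y ^ 2) := by
      refine Odd.sub_even ?_ ?_
      · exact Odd.pow ⟨k, hk⟩
      · exact (Even.pow_of_ne_zero (⟨z, hz⟩ : Even y) two_ne_zero).mul_left _
    refine (tde_e8 hS h.gd e1 hx' hosq).1 ?_
    have h8 : (x ^ 2 - a * y ^ 2 + 4 * (x * z)) % 8 = 1 % 8 := by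
      apply tde_zmod
      rw [hz, hk]
      push_cast
      have ha8' : ((a : ℕ) : ZMod 8) = 5 := by
        have := ha8
        push_cast at this
        exact this
      rw [ha8']
      generalize (k : ZMod 8) = k'
      generalize (z : ZMod 8) = z'
      revert k' z'
      decide
    unfold e8
    rw [if_pos]
    left
    rw [h8]
    norm_num
  · refine ⟨fun hc => absurd hy (Int.not_odd_iff_even.2 hc), fun _ => ?_⟩
    have hx : Even x := by
      by_contra hc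
      rw [Int.not_even_iff_odd] at hc
      apply Int.not_even_iff_odd.2 hodd
      exact (hc.pow (n := 2)).add_odd (hao.mul (hy.pow (n := 2)))
    obtain ⟨z, hz⟩ := hx
    obtain ⟨k, hk⟩ := hy
    have e1 : δ ^ 2 = ((x ^ 2 - a * y ^ 2 : ℤ) : 𝓞 K) + 4 * ((z * y : ℤ) : 𝓞 K) * S := by
      have hx' : (x : 𝓞 K) = 2 * (z : 𝓞 K) := by rw [hz]; push_cast; ring
      rw [hδ, hx']
      push_cast
      rw [hx']
      linear_combination ((y : 𝓞 K) ^ 2) * hS2
    have hx' : Odd (x ^ 2 - a * y ^ 2) := by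
      refine Even.sub_odd ?_ ?_
      · exact Even.pow_of_ne_zero (⟨z, hz⟩ : Even x) two_ne_zero
      · exact hao.mul (Odd.pow ⟨k, hk⟩)
    refine (tde_e8 hS h.gd e1 hx' hosq).2 ?_
    have h8 : (x ^ 2 - a * y ^ 2 + 4 * (z * y)) % 8 = 3 % 8 := by
      apply tde_zmod
      rw [hz, hk]
      push_cast
      have ha8' : ((a : ℕ) : ZMod 8) = 5 := by
        have := ha8
        push_cast at this
        exact this
      rw [ha8']
      generalize (k : ZMod 8) = k'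
      generalize (z : ZMod 8) = z'
      revert k' z'
      decide
    unfold e8
    rw [if_neg]
    omega

theorem tt_five (hb : Base5 K a s) (hS : algebraMap (𝓞 K) K S = s) (hτ : τ S = -S)
    (h : IDat K F a d s S τ ζ w X Y V U κ)
    {I : (cQ F).Point →+ (cQ F).Point} (hI : CMI (ζ ^ 2) I) {δ : 𝓞 K}
    (h5 : Ideal.absNorm (Ideal.span {δ}) % 8 = 5) :
    gpi I (tt h.gd (Ideal.span {δ})) ≠ Ep F := by
  intro hEp
  have hG := h.gd
  have ho : OddI (Ideal.span {δ}) := Nat.odd_iff.2 (by omega)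
  obtain ⟨n1, n2, -⟩ := norm_cj hb hS hτ (Ideal.span {δ})
  have hc : cj τ (Ideal.span {δ}) = Ideal.span {τ δ} := by
    unfold cj
    rw [Ideal.map_span, Set.image_singleton]
    rfl
  rw [hc] at n1 n2
  have ho' : OddI (Ideal.span {τ δ}) := by
    unfold OddI at ho ⊢
    rw [n1]
    exact ho
  -- `t + t' = (0, 0)`
  have hEz : tt h.gd (Ideal.span {δ}) + tt h.gd (Ideal.span {τ δ}) = Ez F := by
    rw [← tt_mul hb h.gd ho ho', n2]
    have e1 : (((Ideal.absNorm (Ideal.span {δ}) : ℕ) : 𝓞 K)) =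
        (((Ideal.absNorm (Ideal.span {δ}) : ℕ) : ℤ) : 𝓞 K) + 4 * ((0 : ℤ) : 𝓞 K) * S := by
      push_cast
      ring
    refine (tde_e8 hS h.gd e1 ?_ ?_).2 ?_
    · exact_mod_cast ho
    · rw [← n2]
      exact oddI_mul'.2 ⟨ho, ho'⟩
    · unfold e8
      rw [if_neg]
      omega
  have hTz : Ez F = pt 0 0 (by ring) := rfl
  have hIz : I (Ez F) = Ez F := hI.gmod.I_T
  have hzz : (2 : ℤ) • Ez F = 0 := hI.gmod.two_T
  have hzn : -Ez F = Ez F := by
    rw [two_zsmul] at hzz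
    exact neg_eq_of_add_eq_zero_left hzz
  -- the conjugation
  have hκi : κ (ζ ^ 2) = -ζ ^ 2 := by
    rw [map_pow, h.cz]
    linear_combination (ζ ^ 10 - ζ ^ 6 + ζ ^ 2) * h.gd.z8
  have hκP : ∀ c, Ideal.absNorm c % 4 = 1 → gal κ (PP h.gd c) = -I (PP h.gd (cj τ c)) := by
    intro c h4
    have hco : OddI c := oddI_of_one h4
    have hco' : OddI (cj τ c) := by
      have := (norm_cj hb hS hτ c).1
      unfold OddI at hco ⊢
      rw [this]
      exact hco
    rw [PP_eq h.gd hco, PP_eq h.gd hco', gal_pt, hI.pt, neg_pt, pt_inj, h.cX c hco, h.cY1 c h4]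
    exact ⟨rfl, rfl⟩
  have hcj1 : cj τ (1 : Ideal (𝓞 K)) = 1 := by
    unfold cj
    rw [Ideal.one_eq_top, Ideal.map_top]
  have hκt : gal κ (tt h.gd (Ideal.span {δ})) = Ez F + I (tt h.gd (Ideal.span {δ})) := by
    have e1 : gal κ (tt h.gd (Ideal.span {δ})) = -I (tt h.gd (Ideal.span {τ δ})) := by
      unfold tt
      rw [map_sub, hκP _ (by omega), hκP 1 (by rw [map_one]; norm_num), hc, hcj1, map_sub]
      abel
    have e2 : tt h.gd (Ideal.span {τ δ}) = Ez F - tt h.gd (Ideal.span {δ}) := by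
      rw [← hEz]
      abel
    rw [e1, e2, map_sub, hIz, neg_sub, sub_eq_add_neg, hzn, add_comm]
  -- the point `(i, 1 - i)`
  have hA : (1 - ζ ^ 2) ^ 2 = (ζ ^ 2) ^ 3 - ζ ^ 2 := by
    linear_combination (1 - ζ ^ 2) * h.gd.z8
  have hgA := tde_A hI hA
  have hκA : gal κ (pt (ζ ^ 2) (1 - ζ ^ 2) hA) = I (pt (ζ ^ 2) (1 - ζ ^ 2) hA) := by
    rw [gal_pt, hI.pt, pt_inj, map_sub, map_one, hκi]
    refine ⟨rfl, ?_⟩
    linear_combination h.gd.z8
  have hκz : gal κ (Ez F) = Ez F := by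
    have : gal κ (Ez F) = gal κ (pt (0 : F) 0 (by ring)) := rfl
    rw [this, gal_pt, hTz, pt_inj, map_zero]
    exact ⟨rfl, rfl⟩
  have hker : gpi I (tt h.gd (Ideal.span {δ}) - pt (ζ ^ 2) (1 - ζ ^ 2) hA) = 0 := by
    rw [map_sub, hEp, hgA, sub_self]
  have hfin : gal κ (tt h.gd (Ideal.span {δ})) = I (tt h.gd (Ideal.span {δ})) := by
    rcases hI.gmod.gpi_eq_zero.1 hker with h0 | h0
    · rw [sub_eq_zero] at h0
      rw [h0, hκA]
    · have h1 : tt h.gd (Ideal.span {δ}) = Ez F + pt (ζ ^ 2) (1 - ζ ^ 2) hA := by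
        rw [hTz, ← h0]
        abel
      rw [h1, map_add, map_add, hκA, hκz, hIz]
  rw [hfin] at hκt
  have h0 : Ez F = 0 := by
    have := hκt.symm
    rwa [add_eq_right] at this
  exact pt_ne _ h0

end Pool.Agent.Work.MP_8efaaa_nt.W5
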