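import Mathlib
import Pool.Agent.Work.MP_8efaaa_nt.W5.Defs

/-!
# W5/TCo (S-M): coordinates

`i = ζ ^ 2`. PROOF of `phi_PP`: there are formulas for `gpi I (pt x y h)` in R (see `gpi_three` and the lemmas used in its proof, R/FTor.lean .. R/FShift.lean): for `x ≠ 0`
the point `(1 + i) (x, y)` is `((x^2 - 1) / (2 i x), y (x^2 + 1) / (2 i (1 + i) x^2))`. With `h.uv`: `X^2 - 1 = 2 X (1 + U) / V^2`, `Y (X^2 + 1) V = 4 X^2 (1 + U) / V^2`: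
`x' = (1 + U) / (i V^2) = -i (1 + U) / V^2`, `y' = 4 (1 + U) / V^3 / (2 i (1 + i)) = -(1 + i) (1 + U) / V^3`.
`phi2_PP`: the same formula for `x' = -i (1 + U) / V^2` (`≠ 0` as `1 + U ≠ 0`): `(x'^2 - 1)/(2 i x') = -1/V^2` (`U^2 = 1 - V^4`).
`dbl_x`: doubling formula (or `2 = -i (1 + i)^2` twice the formula above): `x(2 P) = (x^2 + 1)^2 / (4 (x^3 - x))`, if `y ≠ 0`.
-/

set_option autoImplicit false

namespace Pool.Agent.Work.MP_8efaaa_nt.W5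

open NumberField Pool.Agent.Work.MP_8efaaa_nt.R Pool.Agent.Work.MP_8efaaa_nt.N5
open scoped Classical

variable {K : Type*} {F : Type*} [Field K] [NumberField K] [Field F] [NumberField F]
  [Algebra K F] {a d : ℕ} {s : K} {S : 𝓞 K} {τ : 𝓞 K ≃+* 𝓞 K} {ζ w : F}
  {X Y V U : Ideal (𝓞 K) → F} {κ : F ≃ₐ[ℚ] F}

private theorem tc_data (h : IDat K F a d s S τ ζ w X Y V U κ) {c : Ideal (𝓞 K)} (hc : OddI c) :
    ∃ e : Y c ^ 2 = X c ^ 3 - X c, X c ≠ 0 ∧ PP h.gd c = pt (X c) (Y c) e := by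
  exact ⟨h.gd.eqn c hc, h.gd.ne c hc, PP_eq h.gd hc⟩

theorem phi_PP (h : IDat K F a d s S τ ζ w X Y V U κ)
    {I : (cQ F).Point →+ (cQ F).Point} (hI : CMI (ζ ^ 2) I) {c : Ideal (𝓞 K)} (hc : OddI c) :
    ∃ e, gpi I (PP h.gd c) = pt (-(ζ ^ 2 * (1 + U c) / V c ^ 2))
      (-((1 + ζ ^ 2) * (1 + U c) / V c ^ 3)) e := by
  obtain ⟨hxy, hx0, hP⟩ := tc_data h hc
  obtain ⟨hV, hUV, hU, h1, h2⟩ := h.uv c hc
  obtain ⟨e1, f1⟩ := gpi_pt hI hxy hx0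
  rw [hP]
  generalize X c = x at *
  generalize Y c = y at *
  generalize V c = v at *
  generalize U c = u at *
  generalize ζ ^ 2 = i at *
  have ex1 : -(i / 2) * (x - 1 / x) = -(i * (1 + u) / v ^ 2) := by
    have h3 : x - 1 / x = (x ^ 2 - 1) / x := by
      field_simp
    rw [h3, h1]
    field_simp
  have ey1 : -((1 + i) / 4) * y * (1 + 1 / x ^ 2) = -((1 + i) * (1 + u) / v ^ 3) := by
    have h3 : 1 + 1 / x ^ 2 = (x ^ 2 + 1) / x ^ 2 := by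
      field_simp
    rw [h3]
    have h4 : y * (x ^ 2 + 1) = 4 * x ^ 2 * (1 + u) / v ^ 3 := by
      rw [eq_div_iff (pow_ne_zero 3 hV)]
      rw [eq_div_iff (pow_ne_zero 2 hV)] at h2
      linear_combination h2
    have h5 : -((1 + i) / 4) * y * ((x ^ 2 + 1) / x ^ 2) =
        -((1 + i) / 4) * (y * (x ^ 2 + 1)) / x ^ 2 := by
      ring
    rw [h5, h4]
    field_simp
  refine ⟨?_, ?_⟩
  · rw [← ex1, ← ey1]
    exact e1
  · rw [f1, pt_inj]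
    exact ⟨ex1, ey1⟩

theorem phi2_PP (h : IDat K F a d s S τ ζ w X Y V U κ)
    {I : (cQ F).Point →+ (cQ F).Point} (hI : CMI (ζ ^ 2) I) {c : Ideal (𝓞 K)} (hc : OddI c) :
    ∃ y e, gpi I (gpi I (PP h.gd c)) = pt (-(1 / V c ^ 2)) y e := by
  obtain ⟨hV, hUV, hU, -, -⟩ := h.uv c hc
  obtain ⟨e1, f1⟩ := phi_PP h hI hc
  have hi : (ζ ^ 2) ^ 2 = -1 := hI.i2
  have hi0 : ζ ^ 2 ≠ 0 := by
    intro h0
    rw [h0] at hi
    norm_num at hi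
  have hx1 : -(ζ ^ 2 * (1 + U c) / V c ^ 2) ≠ 0 :=
    neg_ne_zero.2 (div_ne_zero (mul_ne_zero hi0 hU) (pow_ne_zero 2 hV))
  obtain ⟨e2, f2⟩ := gpi_pt hI e1 hx1
  have ex2 : -(ζ ^ 2 / 2) * (-(ζ ^ 2 * (1 + U c) / V c ^ 2) -
      1 / -(ζ ^ 2 * (1 + U c) / V c ^ 2)) = -(1 / V c ^ 2) := by
    generalize V c = v at *
    generalize U c = u at *
    generalize ζ ^ 2 = i at *
    field_simp
    linear_combination (1 + u) ^ 2 * hi - hUV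
  have e3 : (-((1 + ζ ^ 2) / 4) * (-((1 + ζ ^ 2) * (1 + U c) / V c ^ 3)) *
      (1 + 1 / (-(ζ ^ 2 * (1 + U c) / V c ^ 2)) ^ 2)) ^ 2 =
      (-(1 / V c ^ 2)) ^ 3 - -(1 / V c ^ 2) := by
    rw [← ex2]
    exact e2
  refine ⟨_, e3, ?_⟩
  rw [f1, f2, pt_inj]
  exact ⟨ex2, rfl⟩

theorem dbl_x {F : Type*} [Field F] [CharZero F] {x y : F} (e : y ^ 2 = x ^ 3 - x) (hy : y ≠ 0) :
    ∃ x' y' e', (2 : ℤ) • pt x y e = pt x' y' e' ∧ x' * (4 * (x ^ 3 - x)) = (x ^ 2 + 1) ^ 2 := by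
  obtain ⟨x3, y3, h3, h4, h5⟩ := dbl_pt e hy
  refine ⟨x3, y3, h3, ?_, ?_⟩
  · rw [two_zsmul, h4]
  · rw [← h5, ← e]
    ring

end Pool.Agent.Work.MP_8efaaa_nt.W5
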