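import Mathlib
import Pool.Agent.Work.MP_8efaaa_nt.W5.Defs
import Pool.Agent.Work.MP_8efaaa_nt.W5.TCo
import Pool.Agent.Work.MP_8efaaa_nt.N5.EFr
import Pool.Agent.Work.MP_8efaaa_nt.N5.EIo

/-!
# W5/TFr (M): the Fricke involution and the inertia relation on the points `gpi I (PP c)`

PROOF of `exists_T`. Write `A c = gpi I (PP c)` (`phi_PP`). For ONE `c` with `N c = 1 (mod 4)`: `fr1`, `fr2` give (as in the proof of `fricke_pt`, N5/EFr.lean): with `v, u` for `c` and `v', u'` for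
`mI * c`, `i = ζ^2`: `v'^2 = -(1 - v^2)/(1 + v^2)`, `u' = 2 i v v'/u`, `u^2 = (1 - v^2)(1 + v^2)`, everything nonzero. Then `A (mI c) = I (A c) + Tg` or `I (A c) - Tg`, `Tg = (i, -1 + i)`, `-Tg = (i, 1 - i)`:
the sign depends on the sign of `v'` (`(v', u')` and `(-v', -u')` satisfy the same relations). Direct way: both `(v', u')` and the coordinates of `I (A c) ± Tg` are known: for given `u, v` put
`r = (1 + v^2) v' / u` (so `r^2 = -1`: `v'^2 (1+v^2)^2 / ((1-v^2)(1+v^2)) = -1`), so `r = i` or `r = -i`; `v' = r u/(1+v^2)`, `u' = 2 i v r/(1+v^2)`: two cases, in each case a rational identity in `u, v, i`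
modulo `i^2 = -1`, `u^2 = 1 - v^4` (numerically checked: one case gives `+Tg`, the other `-Tg`; use the slope formula for the sum with `x1 ≠ x2`; if `x(I (A c)) = i` treat it separately: this means
`(1 + u)/v^2 = 1`, i.e. `u = v^2 - 1`, with `u^2 = 1 - v^4`: `v^2 (2 v^2 - 2) = 0`, `v^2 = 1`, `u = 0`, impossible since `u ≠ 0`).
`T` does not depend on `c`: `act2` for the ideal `c` (`N c = 1 (mod 4)`) gives `σ` with `σ (PP 1) = PP c`, `σ (PP (mI)) = PP (c * mI)`, `σ (ζ^2) = ζ^2`, `gal σ` commutes with `I` and `gpi I` and fixes `Tg`. So `T := A (mI) - I (A 1)`.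
`T_prop`: `gpi I (I T) = Em` : for `T = ± Tg`, `I T = ±(-i, -1 - i)`, its image under `1 + i` has `x`-coordinate `((-i)^2 - 1)/(2 i (-i)) = -1`, `y = 0` (formula of W5/TCo; both signs, `-Em = Em`). `4 T = 0`:
`gpi I T = (1,0)`, `gpi^2 = (0,0)`, `gpi^3 = 0`.
`star`: `y = cj m * b * cj c`, `N y = 1 (mod 4)`, `m * y = (n) * (b * cj c)`, `n = N m` (see the proof of `iota_R`, N5/EIR.lean). `gal ι (gpi I (PP c)) = gpi I (I (PP (b cj c))) = I (gpi I (PP (b cj c)))`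
(`gal ι` commutes with `I` as `ι ζ = ζ`), `gpi I (PP (b cj c)) = gpi I (PP ((n) b cj c))` (`trans_n`) `= gpi I (PP (m y)) = I (gpi I (PP y)) + T`. Apply `I`, `I I = -1`.
-/

set_option autoImplicit false

namespace Pool.Agent.Work.MP_8efaaa_nt.W5

open NumberField Pool.Agent.Work.MP_8efaaa_nt.R Pool.Agent.Work.MP_8efaaa_nt.N5
open scoped Classical

variable {K : Type*} {F : Type*} [Field K] [NumberField K] [Field F] [NumberField F]
  [Algebra K F] {a d : ℕ} {s : K} {S : 𝓞 K} {τ : 𝓞 K ≃+* 𝓞 K} {ζ w : F}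
  {X Y V U : Ideal (𝓞 K) → F} {κ : F ≃ₐ[ℚ] F}

/-- the double of `1 + i` in coordinates -/
private theorem gpi_two' {F : Type*} [Field F] [CharZero F] {i : F}
    {I : (cQ F).Point →+ (cQ F).Point} (h : CMI i I) {x y V U : F} (hxy : y ^ 2 = x ^ 3 - x)
    (hx0 : x ≠ 0) (hV : V ≠ 0) (hUV : U ^ 2 + V ^ 4 = 1) (hU : 1 + U ≠ 0)
    (h1 : x ^ 2 - 1 = 2 * x * (1 + U) / V ^ 2)
    (h2 : y * (x ^ 2 + 1) * V = 4 * x ^ 2 * (1 + U) / V ^ 2) :
    ∃ h', gpi I (gpi I (pt x y hxy)) = pt (-1 / V ^ 2) (i * U / V ^ 3) h' := by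
  have hi := h.i2
  have hi0 : i ≠ 0 := by
    intro h0
    rw [h0] at hi
    norm_num at hi
  obtain ⟨e1, f1⟩ := gpi_pt h hxy hx0
  have ex1 : -(i / 2) * (x - 1 / x) = -i * (1 + U) / V ^ 2 := by
    have : x - 1 / x = (x ^ 2 - 1) / x := by
      field_simp
    rw [this, h1]
    field_simp
  have ey1 : -((1 + i) / 4) * y * (1 + 1 / x ^ 2) = -(1 + i) * (1 + U) / V ^ 3 := by
    have : 1 + 1 / x ^ 2 = (x ^ 2 + 1) / x ^ 2 := by
      field_simp
    rw [this]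
    have h3 : y * (x ^ 2 + 1) = 4 * x ^ 2 * (1 + U) / V ^ 3 := by
      rw [eq_div_iff (pow_ne_zero 3 hV)]
      rw [eq_div_iff (pow_ne_zero 2 hV)] at h2
      linear_combination h2
    have h4 : -((1 + i) / 4) * y * ((x ^ 2 + 1) / x ^ 2) =
        -((1 + i) / 4) * (y * (x ^ 2 + 1)) / x ^ 2 := by
      ring
    rw [h4, h3]
    field_simp
  have e1' : (-(1 + i) * (1 + U) / V ^ 3) ^ 2 =
      (-i * (1 + U) / V ^ 2) ^ 3 - -i * (1 + U) / V ^ 2 := by
    rw [← ex1, ← ey1]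
    exact e1
  have f1' : gpi I (pt x y hxy) = pt (-i * (1 + U) / V ^ 2) (-(1 + i) * (1 + U) / V ^ 3) e1' := by
    rw [f1, pt_inj]
    exact ⟨ex1, ey1⟩
  have hx1 : -i * (1 + U) / V ^ 2 ≠ 0 :=
    div_ne_zero (mul_ne_zero (neg_ne_zero.2 hi0) hU) (pow_ne_zero 2 hV)
  obtain ⟨e2, f2⟩ := gpi_pt h e1' hx1
  have ex2 : -(i / 2) * (-i * (1 + U) / V ^ 2 - 1 / (-i * (1 + U) / V ^ 2)) = -1 / V ^ 2 := by
    field_simp
    linear_combination (1 + U) ^ 2 * hi - hUV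
  have ey2 : -((1 + i) / 4) * (-(1 + i) * (1 + U) / V ^ 3) *
      (1 + 1 / (-i * (1 + U) / V ^ 2) ^ 2) = i * U / V ^ 3 := by
    field_simp
    linear_combination (i ^ 2 + 2 * U * i ^ 2 + U ^ 2 * i ^ 2 + V ^ 4 + 2 * i * (1 - U ^ 2)) * hi +
      2 * i * hUV
  have e2' : (i * U / V ^ 3) ^ 2 = (-1 / V ^ 2) ^ 3 - -1 / V ^ 2 := by
    rw [← ex2, ← ey2]
    exact e2
  refine ⟨e2', ?_⟩
  rw [f1', f2, pt_inj]
  exact ⟨ex2, ey2⟩

private theorem pt_add_E {F : Type*} [Field F] [CharZero F] {x y : F} (h : y ^ 2 = x ^ 3 - x)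
    (hx : x ≠ 1) (h0 : (0 : F) ^ 2 = 1 ^ 3 - 1) :
    ∃ h', pt x y h + pt 1 0 h0 = pt ((x + 1) / (x - 1)) (-2 * y / (x - 1) ^ 2) h' := by
  have hx1 : x - 1 ≠ 0 := sub_ne_zero.2 hx
  have hs : (cQ F).slope x 1 y 0 = y / (x - 1) := by
    rw [WeierstrassCurve.Affine.slope_of_X_ne hx]
    simp
  have hX : (cQ F).addX x 1 (y / (x - 1)) = (x + 1) / (x - 1) := by
    simp only [WeierstrassCurve.Affine.addX, cQ]
    field_simp
    linear_combination h
  have hY : (cQ F).addY x 1 y (y / (x - 1)) = -2 * y / (x - 1) ^ 2 := by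
    simp only [WeierstrassCurve.Affine.addY, WeierstrassCurve.Affine.negY,
      WeierstrassCurve.Affine.negAddY, hX]
    simp only [cQ]
    field_simp
    ring
  have hadd : pt x y h + pt 1 0 h0 = WeierstrassCurve.Affine.Point.some
      ((cQ F).addX x 1 (y / (x - 1))) ((cQ F).addY x 1 y (y / (x - 1))) (by
        rw [← hs]
        exact WeierstrassCurve.Affine.nonsingular_add (cQ_nonsingular.2 h) (cQ_nonsingular.2 h0)
          (fun hc => hx hc.1)) := by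
    unfold pt
    rw [WeierstrassCurve.Affine.Point.add_of_X_ne hx, WeierstrassCurve.Affine.Point.some.injEq, hs]
    exact ⟨rfl, rfl⟩
  refine ⟨?_, ?_⟩
  · rw [← hX, ← hY, ← cQ_nonsingular, ← hs]
    exact WeierstrassCurve.Affine.nonsingular_add (cQ_nonsingular.2 h) (cQ_nonsingular.2 h0)
          (fun hc => hx hc.1)
  · rw [hadd]
    unfold pt
    rw [WeierstrassCurve.Affine.Point.some.injEq]
    exact ⟨hX, hY⟩

/-- the difference of the two points is `(1, 0)` after multiplication by `(1 + i) ^ 2` -/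
private theorem phi_T (hb : Base5 K a s) (hS : algebraMap (𝓞 K) K S = s)
    (h : IDat K F a d s S τ ζ w X Y V U κ)
    {I : (cQ F).Point →+ (cQ F).Point} (hI : CMI (ζ ^ 2) I) {c : Ideal (𝓞 K)}
    (hc : Ideal.absNorm c % 4 = 1) :
    gpi I (gpi I (PP h.gd (mI S a * c))) = I (gpi I (gpi I (PP h.gd c))) + Ep F := by
  have hc1 := oddI_of_one hc
  have hm : OddI (mI S a) := by
    unfold OddI
    rw [norm_mI hb hS]
    have := hb.mod
    exact Nat.odd_iff.2 (by omega)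
  have hc2 : OddI (mI S a * c) := oddI_mul'.2 ⟨hm, hc1⟩
  obtain ⟨a1, a2, a3, a4, a5⟩ := h.uv c hc1
  obtain ⟨b1, b2, b3, b4, b5⟩ := h.uv _ hc2
  have f1 := h.fr1 c hc
  have f2 := h.fr2 c hc
  have hi := hI.i2
  have hi0 : ζ ^ 2 ≠ 0 := by
    intro h0
    rw [h0] at hi
    norm_num at hi
  rw [PP_eq h.gd hc1, PP_eq h.gd hc2]
  obtain ⟨e1, g1⟩ := gpi_two' hI (h.gd.eqn c hc1) (h.gd.ne c hc1) a1 a2 a3 a4 a5
  obtain ⟨e2, g2⟩ := gpi_two' hI (h.gd.eqn _ hc2) (h.gd.ne _ hc2) b1 b2 b3 b4 b5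
  rw [g1, g2, hI.pt e1]
  clear g1 g2 a3 a4 a5 b3 b4 b5
  have hIe := hI.i_eq e1
  generalize V c = v at *
  generalize U c = u at *
  generalize V (mI S a * c) = v' at *
  generalize U (mI S a * c) = u' at *
  generalize ζ ^ 2 = i at *
  have hu : u ≠ 0 := by
    rintro rfl
    rw [mul_zero] at f2
    exact mul_ne_zero (mul_ne_zero (mul_ne_zero two_ne_zero hi0) a1) b1 f2.symm
  have hu2 : u ^ 2 = (1 - v ^ 2) * (1 + v ^ 2) := by linear_combination a2
  have h1 : 1 - v ^ 2 ≠ 0 := by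
    intro h0
    rw [h0, zero_mul] at hu2
    exact hu (pow_eq_zero_iff two_ne_zero |>.1 hu2)
  have h2 : 1 + v ^ 2 ≠ 0 := by
    intro h0
    rw [h0, mul_zero] at hu2
    exact hu (pow_eq_zero_iff two_ne_zero |>.1 hu2)
  have hv' : v' ^ 2 = -(1 - v ^ 2) / (1 + v ^ 2) := by
    rw [eq_div_iff h2]
    exact f1
  have hx : -(-1 / v ^ 2) ≠ (1 : F) := by
    intro hh
    apply h1
    rw [neg_div, neg_neg, div_eq_iff (pow_ne_zero 2 a1)] at hh
    linear_combination hh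
  obtain ⟨e3, g3⟩ := pt_add_E hIe hx (by norm_num)
  unfold Ep
  rw [g3, pt_inj]
  constructor
  · rw [hv']
    have h3 : -(-1 / v ^ 2) - 1 ≠ 0 := sub_ne_zero.2 hx
    rw [div_eq_div_iff (by
      refine div_ne_zero (neg_ne_zero.2 h1) h2) h3]
    field_simp
  · have h9 : u' / v' = 2 * i * v / u := by
      rw [div_eq_div_iff b1 hu]
      linear_combination f2
    have h10 : i * u' / v' ^ 3 = i * (u' / v') / v' ^ 2 := by
      field_simp
    rw [h10, h9, hv']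
    have h3 : -(-1 / v ^ 2) - 1 = (1 - v ^ 2) / v ^ 2 := by
      field_simp
    rw [h3]
    have h5 : i * (2 * i * v / u) / (-(1 - v ^ 2) / (1 + v ^ 2)) =
        (2 * v * u) / (1 - v ^ 2) ^ 2 := by
      rw [div_div_eq_mul_div, div_eq_div_iff (neg_ne_zero.2 h1) (pow_ne_zero 2 h1)]
      rw [← mul_div_assoc, div_mul_eq_mul_div, div_mul_eq_mul_div, div_eq_iff hu]
      linear_combination (2 * v * (1 + v ^ 2) * (1 - v ^ 2) ^ 2) * hi + (2 * v * (1 - v ^ 2)) * hu2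
    rw [h5]
    have h6 : -2 * (i * (i * u / v ^ 3)) = 2 * u / v ^ 3 := by
      field_simp
      linear_combination (-1 : F) * hi
    rw [h6]
    field_simp

theorem exists_T (hb : Base5 K a s) (hS : algebraMap (𝓞 K) K S = s)
    (h : IDat K F a d s S τ ζ w X Y V U κ)
    {I : (cQ F).Point →+ (cQ F).Point} (hI : CMI (ζ ^ 2) I) :
    ∃ T : (cQ F).Point, gpi I (I T) = Em F ∧ (4 : ℤ) • T = 0 ∧
      ∀ c, Ideal.absNorm c % 4 = 1 →
        gpi I (PP h.gd (mI S a * c)) = I (gpi I (PP h.gd c)) + T := by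
  have h1 : Ideal.absNorm (1 : Ideal (𝓞 K)) % 4 = 1 := by
    rw [map_one]
    norm_num
  have f0 := fricke_pt hb hS h hI h1
  have f1 := phi_T hb hS h hI h1
  rw [mul_one] at f0 f1
  have hm : OddI (mI S a) := by
    unfold OddI
    rw [norm_mI hb hS]
    have := hb.mod
    exact Nat.odd_iff.2 (by omega)
  have f2 : (gpi I)^[3] (gpi I (PP h.gd (mI S a)) - I (gpi I (PP h.gd 1))) = 0 := by
    have : gpi I (PP h.gd (mI S a)) - I (gpi I (PP h.gd 1)) =
        gpi I (PP h.gd (mI S a) - I (PP h.gd 1)) := by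
      rw [map_sub, gpi_I]
    rw [this, ← Function.iterate_succ_apply]
    exact f0
  refine ⟨gpi I (PP h.gd (mI S a)) - I (gpi I (PP h.gd 1)), ?_, ?_, ?_⟩
  · rw [gpi_I, map_sub, gpi_I, f1, add_sub_cancel_left]
    unfold Ep Em
    rw [hI.pt, pt_inj]
    exact ⟨rfl, mul_zero _⟩
  · have f3 := hI.gmod.gpi_four (gpi I (PP h.gd (mI S a)) - I (gpi I (PP h.gd 1)))
    rw [Function.iterate_succ_apply', f2, map_zero] at f3
    exact neg_eq_zero.1 f3.symm
  · intro c hc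
    have hco := oddI_of_one hc
    obtain ⟨σ, hσ1, hσ2⟩ := h.gd.act2 c hco
    have hσi := map_i_one h.gd.z8 hσ1 hc
    have g1 := gal_PP h.gd (σ := σ) hσ2 hco hm
    have g2 := gal_PP h.gd (σ := σ) hσ2 hco oddI_one
    rw [mul_one] at g2
    have g3 := hI.gal_three hσi f2
    have g4 : ∀ P, gal σ (gpi I P) = gpi I (gal σ P) := by
      intro P
      rw [gpi_apply, gpi_apply, map_add, hI.gal_comm hσi]
    rw [map_sub, g4, hI.gal_comm hσi, g4, g1, g2] at g3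
    rw [mul_comm, ← g3]
    abel

theorem star (hb : Base5 K a s) (hS : algebraMap (𝓞 K) K S = s) (hτ : τ S = -S)
    (h : IDat K F a d s S τ ζ w X Y V U κ)
    {I : (cQ F).Point →+ (cQ F).Point} (hI : CMI (ζ ^ 2) I) {T : (cQ F).Point}
    (hT : ∀ c, Ideal.absNorm c % 4 = 1 →
      gpi I (PP h.gd (mI S a * c)) = I (gpi I (PP h.gd c)) + T)
    {ι : F ≃ₐ[ℚ] F} (hz : ι ζ = ζ) {b : Ideal (𝓞 K)} (hb7 : Ideal.absNorm b % 8 = 7)
    (hi1 : ∀ c, Ideal.absNorm c % 4 = 1 → gal ι (PP h.gd c) = I (PP h.gd (b * cj τ c)))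
    {c : Ideal (𝓞 K)} (hc : Ideal.absNorm c % 4 = 1) :
    Ideal.absNorm (cj τ (mI S a) * b * cj τ c) % 4 = 1 ∧
    kl (cj τ (mI S a) * b * cj τ c) = kl (cj τ (mI S a) * b) * (kl c)⁻¹ ∧
    gal ι (gpi I (PP h.gd c)) + gpi I (PP h.gd (cj τ (mI S a) * b * cj τ c)) = I T := by
  have ha5 := hb.mod
  have hnm := norm_mI hb hS
  obtain ⟨n, hn⟩ : ∃ n : ℕ, (1 + a) / 2 = n := ⟨_, rfl⟩
  have hn2 : 2 * n = 1 + a := by omega
  have hn4 : n % 4 = 3 := by omega
  rw [hn] at hnm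
  obtain ⟨m1, m2, -⟩ := norm_cj hb hS hτ (mI S a)
  rw [hnm] at m1 m2
  have hgN : Ideal.absNorm (cj τ (mI S a) * b) = n * Ideal.absNorm b := by
    rw [map_mul, m1]
  have hg4 : Ideal.absNorm (cj τ (mI S a) * b) % 4 = 1 := by
    rw [hgN, Nat.mul_mod, hn4]
    have : Ideal.absNorm b % 4 = 3 := by omega
    rw [this]
  have hgo := oddI_of_one hg4
  obtain ⟨c1, c2, -⟩ := norm_cj hb hS hτ c
  have hco := oddI_of_one hc
  have hco' : OddI (cj τ c) := oddI_of_one (by rw [c1]; exact hc)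
  have hy4 : Ideal.absNorm (cj τ (mI S a) * b * cj τ c) % 4 = 1 := by
    rw [map_mul, c1, Nat.mul_mod, hg4, hc]
  refine ⟨hy4, ?_, ?_⟩
  · rw [kl_mul hgo hco', kl_inv hco hco' c2]
  · have hbo : OddI b := Nat.odd_iff.2 (by omega)
    have hno : Odd n := Nat.odd_iff.2 (by omega)
    have f2 := trans_n h.gd hI hno (oddI_mul'.2 ⟨hbo, hco'⟩)
    have e1 : mI S a * (cj τ (mI S a) * b * cj τ c) =
        Ideal.span {(n : 𝓞 K)} * (b * cj τ c) := by
      rw [← m2, mul_assoc, mul_assoc]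
    have f1 := hT _ hy4
    rw [e1] at f1
    rw [map_sub, sub_eq_zero] at f2
    have hzi : ι (ζ ^ 2) = ζ ^ 2 := by rw [map_pow, hz]
    have g4 : gal ι (gpi I (PP h.gd c)) = gpi I (gal ι (PP h.gd c)) := by
      rw [gpi_apply, gpi_apply, map_add, hI.gal_comm hzi]
    rw [g4, hi1 c hc, gpi_I, ← f2, f1, map_add, hI.sq]
    abel

end Pool.Agent.Work.MP_8efaaa_nt.W5
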