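import Mathlib
import Pool.Agent.Work.MP_8efaaa_nt.W5.Defs
import Pool.Agent.Work.MP_8efaaa_nt.W5.TFr
import Pool.Agent.Work.MP_8efaaa_nt.W5.TDe

/-!
# W5/GTy (S-M): the fixed class

`A c = gpi I (PP c)`, `n = absNorm c`, `y_c = cj m * b * cj c`. PROOF of `a_y`: `(n) * y_c = (cj c * c) * (cj m * b * cj c) = (δ) * c` (`norm_cj`, `hδ`), `A ((n) y_c) = A y_c` (`trans_n` (N5/EFr): `gpi I (PP ((n) * y_c) - PP y_c) = 0`, `n` odd), and `PP ((δ) * c) = PP c + tt δ` (`shift`, R/FShift).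
`type_pt`: `star` (W5/TFr): `gal ι (A c) + A y_c = I T`, so with `a_y`: `2 A c = I T - gpi I (tt δ) - (gal ι (A c) - A c)`, the last term is in `E1 W` (`gal_sub_mem`, W5/E1). Apply `gpi I` (`gpi_mem`): `2 gpi I (A c) - gpi I (I T) + gpi I (gpi I (tt δ)) ∈ E1 W`; `gpi I (I T) = Em` and
`gpi I (gpi I (tt δ)) = (2 : ℤ) • I (tt δ) = I (2 tt δ)` (`hI.gmod.gpi_gpi`) is `0` for `y` even and `I Ez = Ez` for `y` odd (`tt_par`, W5/TDe; `hI.gmod.I_T`); `Em - Ez = Ep` (an explicit sum: `(-1, 0) + (0, 0) = (1, 0)`; `Ez = -Ez`).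
-/

set_option autoImplicit false

namespace Pool.Agent.Work.MP_8efaaa_nt.W5

open NumberField Pool.Agent.Work.MP_8efaaa_nt.R Pool.Agent.Work.MP_8efaaa_nt.N5
open scoped Classical

variable {K : Type*} {F : Type*} [Field K] [NumberField K] [Field F] [NumberField F]
  [Algebra K F] {a d : ℕ} {s : K} {S : 𝓞 K} {τ : 𝓞 K ≃+* 𝓞 K} {ζ w : F}
  {X Y V U : Ideal (𝓞 K) → F} {κ : F ≃ₐ[ℚ] F}

private theorem gt_add_T {F : Type*} [Field F] [CharZero F] {x y : F} (h : y ^ 2 = x ^ 3 - x)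
    (hx : x ≠ 0) (h0 : (0 : F) ^ 2 = 0 ^ 3 - 0) :
    ∃ h', pt x y h + pt 0 0 h0 = pt (-1 / x) (y / x ^ 2) h' := by
  have hs : (cQ F).slope x 0 y 0 = y / x := by
    rw [WeierstrassCurve.Affine.slope_of_X_ne hx]
    simp
  have hX : (cQ F).addX x 0 (y / x) = -1 / x := by
    simp only [WeierstrassCurve.Affine.addX, cQ]
    field_simp
    linear_combination h
  have hY : (cQ F).addY x 0 y (y / x) = y / x ^ 2 := by
    simp only [WeierstrassCurve.Affine.addY, WeierstrassCurve.Affine.negY,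
      WeierstrassCurve.Affine.negAddY, hX]
    simp only [cQ]
    field_simp
    ring
  have hadd : pt x y h + pt 0 0 h0 = WeierstrassCurve.Affine.Point.some
      ((cQ F).addX x 0 (y / x)) ((cQ F).addY x 0 y (y / x)) (by
        rw [← hs]
        exact WeierstrassCurve.Affine.nonsingular_add (cQ_nonsingular.2 h) (cQ_nonsingular.2 h0)
          (fun hc => hx hc.1)) := by
    unfold pt
    rw [WeierstrassCurve.Affine.Point.add_of_X_ne hx, WeierstrassCurve.Affine.Point.some.injEq, hs]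
    exact ⟨rfl, rfl⟩
  refine ⟨?_, ?_⟩
  · rw [← hX, ← hY, ← cQ_nonsingular, ← hs]
    exact WeierstrassCurve.Affine.nonsingular_add (cQ_nonsingular.2 h) (cQ_nonsingular.2 h0)
          (fun hc => hx hc.1)
  · rw [hadd]
    unfold pt
    rw [WeierstrassCurve.Affine.Point.some.injEq]
    exact ⟨hX, hY⟩

/-- `(-1, 0) - (0, 0) = (1, 0)` -/
private theorem em_ez {F : Type*} [Field F] [CharZero F] {i : F}
    {I : (cQ F).Point →+ (cQ F).Point} (hI : CMI i I) : Em F - Ez F = Ep F := by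
  have hne : (-1 : F) ≠ 0 := neg_ne_zero.2 one_ne_zero
  have h2 : Ez F + Ez F = 0 := by
    have := hI.gmod.two_T
    rw [two_zsmul] at this
    exact this
  have h3 : -Ez F = Ez F := neg_eq_of_add_eq_zero_left h2
  rw [sub_eq_add_neg, h3]
  obtain ⟨h', e⟩ := gt_add_T (F := F) (x := -1) (y := 0) (by norm_num) hne (by norm_num)
  unfold Em Ez Ep
  rw [e, pt_inj]
  constructor
  · norm_num
  · norm_num

theorem a_y (hb : Base5 K a s) (hS : algebraMap (𝓞 K) K S = s) (hτ : τ S = -S)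
    (h : IDat K F a d s S τ ζ w X Y V U κ)
    {I : (cQ F).Point →+ (cQ F).Point} (hI : CMI (ζ ^ 2) I) {b c : Ideal (𝓞 K)}
    (hb7 : Ideal.absNorm b % 8 = 7) (hc1 : Ideal.absNorm c % 4 = 1) {δ : 𝓞 K}
    (hδ : Ideal.span {δ} = cj τ (mI S a) * b * cj τ c * cj τ c) :
    gpi I (PP h.gd (cj τ (mI S a) * b * cj τ c)) =
      gpi I (PP h.gd c) + gpi I (tt h.gd (Ideal.span {δ})) := by
  have ha5 := hb.mod
  have hnm := norm_mI hb hS
  obtain ⟨m1, -, -⟩ := norm_cj hb hS hτ (mI S a)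
  obtain ⟨c1, c2, -⟩ := norm_cj hb hS hτ c
  have hco := oddI_of_one hc1
  have hco' : OddI (cj τ c) := oddI_of_one (by rw [c1]; exact hc1)
  have hbo : OddI b := Nat.odd_iff.2 (by omega)
  have hmo : OddI (cj τ (mI S a)) := by
    unfold OddI
    rw [m1, hnm, Nat.odd_iff]
    omega
  have hyo : OddI (cj τ (mI S a) * b * cj τ c) :=
    oddI_mul'.2 ⟨oddI_mul'.2 ⟨hmo, hbo⟩, hco'⟩
  have hδo : OddI (Ideal.span {δ}) := by
    rw [hδ]
    exact oddI_mul'.2 ⟨hyo, hco'⟩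
  have hno : Odd (Ideal.absNorm c) := hco
  have h1 := trans_n h.gd hI hno hyo
  have h2 : Ideal.span {((Ideal.absNorm c : ℕ) : 𝓞 K)} * (cj τ (mI S a) * b * cj τ c) =
      Ideal.span {δ} * c := by
    rw [← c2, hδ]
    ring
  rw [h2, shift h.gd hc1 hδo, map_sub, sub_eq_zero, map_add] at h1
  exact h1.symm

theorem type_pt (hb : Base5 K a s) (hS : algebraMap (𝓞 K) K S = s) (hτ : τ S = -S)
    (h : IDat K F a d s S τ ζ w X Y V U κ)
    {I : (cQ F).Point →+ (cQ F).Point} (hI : CMI (ζ ^ 2) I) {T : (cQ F).Point}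
    (hTm : gpi I (I T) = Em F)
    (hT : ∀ c, Ideal.absNorm c % 4 = 1 →
      gpi I (PP h.gd (mI S a * c)) = I (gpi I (PP h.gd c)) + T)
    {ι : F ≃ₐ[ℚ] F} (hz : ι ζ = ζ) {b : Ideal (𝓞 K)} (hb7 : Ideal.absNorm b % 8 = 7)
    (hi1 : ∀ c, Ideal.absNorm c % 4 = 1 → gal ι (PP h.gd c) = I (PP h.gd (b * cj τ c)))
    {c : Ideal (𝓞 K)} (hc1 : Ideal.absNorm c % 4 = 1) {x y : ℤ} {δ : 𝓞 K}
    (hxy : δ = x + y * S) (hδ : Ideal.span {δ} = cj τ (mI S a) * b * cj τ c * cj τ c)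
    {Γ : Type*} [LinearOrderedCommGroupWithZero Γ] (W : Valuation F Γ) (hW2 : W 2 = 1)
    (hW : ∀ x, W (ι x) = W x) (hW' : ∀ x, W x ≤ 1 → W (ι x - x) < 1) :
    (Even y → (2 : ℤ) • gpi I (gpi I (PP h.gd c)) - Em F ∈ E1 W) ∧
    (Odd y → (2 : ℤ) • gpi I (gpi I (PP h.gd c)) - Ep F ∈ E1 W) := by
  obtain ⟨hy4, -, h1⟩ := star hb hS hτ h hI hT hz hb7 hi1 hc1
  rw [a_y hb hS hτ h hI hb7 hc1 hδ] at h1
  have hm := norm_mI hb hS
  have ha5 := hb.mod
  obtain ⟨m1, -, -⟩ := norm_cj hb hS hτ (mI S a)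
  obtain ⟨c1, -, -⟩ := norm_cj hb hS hτ c
  have hδo : OddI (Ideal.span {δ}) := by
    rw [hδ]
    exact oddI_mul'.2 ⟨oddI_of_one hy4, oddI_of_one (by rw [c1]; exact hc1)⟩
  obtain ⟨t1, t2⟩ := tt_par hb hS h hxy hδo
  obtain ⟨D, hD⟩ : ∃ D, D = gal ι (gpi I (PP h.gd c)) - gpi I (PP h.gd c) := ⟨_, rfl⟩
  have hDm : gpi I D ∈ E1 W := by
    apply gpi_mem hI
    rw [hD]
    exact gal_sub_mem hW2 hW hW' _
  have h2 : (2 : ℤ) • gpi I (PP h.gd c) = I T - gpi I (tt h.gd (Ideal.span {δ})) - D := by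
    rw [← h1, hD, two_zsmul]
    abel
  have h3 : (2 : ℤ) • gpi I (gpi I (PP h.gd c)) =
      Em F - I ((2 : ℤ) • tt h.gd (Ideal.span {δ})) - gpi I D := by
    rw [← map_zsmul, h2, map_sub, map_sub, hTm, hI.gmod.gpi_gpi, map_zsmul]
  constructor
  · intro hev
    rw [h3, t1 hev, map_zero, sub_zero]
    have : Em F - gpi I D - Em F = -gpi I D := by abel
    rw [this]
    exact (E1 W).neg_mem hDm
  · intro hod
    have hEz : I (Ez F) = Ez F := hI.gmod.I_T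
    rw [h3, t2 hod, hEz, em_ez hI]
    have : Ep F - gpi I D - Ep F = -gpi I D := by abel
    rw [this]
    exact (E1 W).neg_mem hDm

end Pool.Agent.Work.MP_8efaaa_nt.W5
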