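import Mathlib
import Pool.Agent.Work.MP_8efaaa_nt.W5.Defs
import Pool.Agent.Work.MP_8efaaa_nt.W5.FAct
import Pool.Agent.Work.MP_8efaaa_nt.K5.RCtx
import Pool.Agent.Work.MP_8efaaa_nt.K5.RDt

/-!
# W5/FDat (M): existence of the data

`orient` is helper9's theorem W5/O (import it when it is there; here it is the hypothesis `hor`).
PROOF. Choose the embedding `φ : K →+* ℂ` (any; `let _ : Algebra K ℂ := φ.toAlgebra`). Let `r = algebraMap K ℂ s`, `r^2 = -a`, so `r = i √a` or `-i √a`. Let `j : ℂ` be the number `-(vm 1 / v 1)` below (`= ζ^2`); `hor` says: `0 < Re ((Vm s 1 / Vc s 1) * r)`, and `Vm s 1 / Vc s 1 = -j`,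
`(-j r)^2 = -r^2 = a` (`j^2 = -1`), so `-j r = √a` is the positive root. Let `E : ℂ` with `E^2 = A.re + A.im j` (`IsAlgClosed.exists_pow_nat_eq`). As `j = ± I` we have `conj E * E = |E|^2 = |A.re + A.im j| = √(A.re^2 + A.im^2) = √a` (`hmu.nrm`), so `E * conj E = -j r`.
`j` is needed before the field `F`: define `j := -(Vm s 1 / Vc s 1)` (`qm` in N5/BQm: `Vm^2 = -Vc^2`, `Vc ≠ 0`), `E` algebraic over `K`. `K5.exists_ictx' hb d {E}` gives `F`, `ICtx ..` and `e : F` with `algebraMap F ℂ e = E`. `K5.rdat_of'` gives `ζ`, `κ`, `ICtx` for the new `ζ`, `RDat`, `κ` = complex conjugation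
and `vm 1 = -(ζ^2 v 1)`, so `algebraMap F ℂ (ζ^2) = j`. Then `sq` and `conj` hold (check after the injective `algebraMap F ℂ`; `algebraMap F ℂ (κ e) = conj E`). `act4`: `act_prim` (W5/FAct) with `e1 = κ e`; `X, Y, V, U` are expressed by `z, k, v` (`MAct.act`: as in `idat_of`, N5/CDat.lean; `U c = 2/z c^2 - 1`).
`F : IntermediateField K ℂ` is a `Type` when... (the coercion of `F` to a type lives in `Type`), see the end of N5/CDat.lean for the instances.
-/

set_option autoImplicit false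

namespace Pool.Agent.Work.MP_8efaaa_nt.W5

open NumberField Pool.Agent.Work.CM Pool.Agent.Work.MP_8efaaa_nt.R
  Pool.Agent.Work.MP_8efaaa_nt.N5

universe u

/-- the complex numbers `j` and `E` -/
private theorem exists_jE {K : Type u} [Field K] [NumberField K] [Algebra K ℂ] {a : ℕ} {s : K}
    (hb : Base5 K a s) (hor : 0 < ((Vm s 1 / Vc s 1) * algebraMap K ℂ s).re)
    {A : GaussianInt} (hnrm : A.re ^ 2 + A.im ^ 2 = (a : ℤ)) :
    ∃ j E : ℂ, Vc s 1 ≠ 0 ∧ Vm s 1 = -(j * Vc s 1) ∧ E ^ 2 = (A.re : ℂ) + (A.im : ℂ) * j ∧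
      IsAlgebraic K E ∧ E * (starRingEnd ℂ) E = -(j * algebraMap K ℂ s) := by
  have hO : OddI (1 : Ideal (𝓞 K)) := by
    unfold OddI
    rw [Ideal.one_eq_top, Ideal.absNorm_top]
    exact odd_one
  have hq := (qm hb hO).2.2
  have hV : Vc s (1 : Ideal (𝓞 K)) ≠ 0 := by
    intro h0
    rw [h0, div_zero, zero_mul, Complex.zero_re] at hor
    exact lt_irrefl _ hor
  set q : ℂ := Vm s 1 / Vc s 1 with hqd
  have hq2 : q ^ 2 = -1 := by
    rw [hqd, div_pow, hq, neg_div, div_self (pow_ne_zero 2 hV)]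
  set r : ℂ := algebraMap K ℂ s with hr
  have hr2 : r ^ 2 = -(a : ℂ) := by
    rw [hr, ← map_pow, hb.sq]
    simp
  obtain ⟨E, hE⟩ := IsAlgClosed.exists_pow_nat_eq ((A.re : ℂ) + (A.im : ℂ) * (-q))
    (n := 2) (by norm_num)
  refine ⟨-q, E, hV, ?_, hE, ?_, ?_⟩
  · rw [neg_mul, neg_neg, hqd, div_mul_cancel₀ _ hV]
  · have hqa : IsIntegral K q := by
      refine ⟨Polynomial.X ^ 2 + 1, ?_, ?_⟩
      · exact Polynomial.monic_X_pow_add_C (1 : K) (n := 2) (by norm_num)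
      · simp [hq2]
    have hE2 : IsIntegral K (E ^ 2) := by
      rw [hE]
      have h1 : ∀ n : ℤ, IsIntegral K ((n : ℤ) : ℂ) := by
        intro n
        have : ((n : ℤ) : ℂ) = algebraMap K ℂ (n : K) := by simp
        rw [this]
        exact isIntegral_algebraMap
      exact (h1 _).add ((h1 _).mul hqa.neg)
    exact (IsIntegral.of_pow (by norm_num) hE2).isAlgebraic
  · -- the absolute value
    have hqI : q = Complex.I ∨ q = -Complex.I := by
      have h1 : q ^ 2 = Complex.I ^ 2 := by rw [hq2, Complex.I_sq]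
      exact sq_eq_sq_iff_eq_or_eq_neg.1 h1
    have hns : Complex.normSq ((A.re : ℂ) + (A.im : ℂ) * (-q)) = (a : ℝ) := by
      have h1 : ((A.re : ℝ)) ^ 2 + (A.im : ℝ) ^ 2 = (a : ℝ) := by exact_mod_cast hnrm
      rcases hqI with h | h
      · rw [h, ← h1]
        have h2 : (A.re : ℂ) + (A.im : ℂ) * (-Complex.I) =
            ((A.re : ℝ) : ℂ) + ((-(A.im : ℝ) : ℝ) : ℂ) * Complex.I := by
          push_cast
          ring
        rw [h2, Complex.normSq_add_mul_I]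
        ring
      · rw [h, ← h1]
        have h2 : (A.re : ℂ) + (A.im : ℂ) * (-(-Complex.I)) =
            ((A.re : ℝ) : ℂ) + (((A.im : ℝ) : ℝ) : ℂ) * Complex.I := by
          push_cast
          ring
        rw [h2, Complex.normSq_add_mul_I]
    have hx : Complex.normSq E ^ 2 = (a : ℝ) := by
      rw [← hns, ← hE, map_pow]
    have hx0 : 0 ≤ Complex.normSq E := Complex.normSq_nonneg E
    rw [Complex.mul_conj]
    have h1 : (q * r) ^ 2 = ((Complex.normSq E : ℝ) : ℂ) ^ 2 := by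
      rw [mul_pow, hq2, hr2]
      have h2 : (((Complex.normSq E) ^ 2 : ℝ) : ℂ) = ((a : ℝ) : ℂ) := by rw [hx]
      push_cast at h2
      rw [h2]
      ring
    rcases sq_eq_sq_iff_eq_or_eq_neg.1 h1 with h | h
    · rw [← h]
      ring
    · exfalso
      rw [h, Complex.neg_re, Complex.ofReal_re] at hor
      linarith

private theorem qdat_of {K : Type u} {F : Type} [Field K] [NumberField K] [Algebra K ℂ] [Field F]
    [NumberField F] [Algebra K F] [Algebra F ℂ] [IsScalarTower K F ℂ] [IsGalois K F]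
    [IsGalois ℚ F] {a : ℕ} {s : K} (hb : Base5 K a s)
    {S : 𝓞 K} (hS : algebraMap (𝓞 K) K S = s) {τ : 𝓞 K ≃+* 𝓞 K} (hτ : τ S = -S)
    {d : ℕ} (hd : d ≠ 0) {A : GaussianInt} {nu : ℕ → ℤ → ℤ} (hmu : MuLaw a A nu)
    {j E : ℂ} (hV : Vc s (1 : Ideal (𝓞 K)) ≠ 0) (hVm : Vm s (1 : Ideal (𝓞 K)) = -(j * Vc s 1))
    (hE : E ^ 2 = (A.re : ℂ) + (A.im : ℂ) * j)
    (hEE : E * (starRingEnd ℂ) E = -(j * algebraMap K ℂ s)) {e : F} (he : algebraMap F ℂ e = E)
    {ζ0 w : F} {z k v vm : Ideal (𝓞 K) → F}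
    (h0 : ICtx K F s d ζ0 w z k v vm) : ∃ (ζ : F)
      (X Y V U : Ideal (𝓞 K) → F) (κ : F ≃ₐ[ℚ] F),
      QDat K F a d s S τ ζ w X Y V U κ A nu e := by
  have hO : OddI (1 : Ideal (𝓞 K)) := by
    unfold OddI
    rw [Ideal.one_eq_top, Ideal.absNorm_top]
    exact odd_one
  obtain ⟨ζ, κ, h, hR, hκ, hv1⟩ := K5.rdat_of' hb hS hτ hd h0
  have inj : Function.Injective (algebraMap F ℂ) := (algebraMap F ℂ).injective
  have hζj : algebraMap F ℂ (ζ ^ 2) = j := by
    have h1 := congrArg (algebraMap F ℂ) hv1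
    rw [map_neg, map_mul, h.hvm 1 hO, h.dc.hv 1 hO, hVm] at h1
    exact (mul_right_cancel₀ hV (neg_injective h1)).symm
  have hsq : e ^ 2 = (A.re : F) + (A.im : F) * ζ ^ 2 := by
    apply inj
    rw [map_pow, he, hE, map_add, map_mul, map_intCast, map_intCast, hζj]
  have hconj : e * κ e = -(ζ ^ 2 * algebraMap K F s) := by
    apply inj
    rw [map_mul, hκ, he, hEE, map_neg, map_mul, hζj, ← IsScalarTower.algebraMap_apply K F ℂ]
  refine ⟨ζ, _, _, _, _, κ, ⟨hR, hsq, hconj, fun σ M hM => ?_⟩⟩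
  obtain ⟨b, t, hb1, hb2, hb3, hM1, hb4, hb5⟩ := act_prim hb hS h hd hmu hsq hconj σ M hM
  refine ⟨b, t, hb1, hb2, hb3, hM1.z8, hM1.sq, fun c hc => ?_, hb4, hb5⟩
  obtain ⟨q1, q2, q3⟩ := hM1.act c hc
  refine ⟨?_, ?_, q3, ?_⟩
  · show σ ((1 + z c) / k c) = (1 + z (b * c)) / k (b * c)
    rw [map_div₀, map_add, map_one, q1, q2]
  · show σ (2 * ((1 + z c) / k c) / (v c * z c)) =
      2 * ((1 + z (b * c)) / k (b * c)) / (v (b * c) * z (b * c))
    rw [map_div₀, map_mul, map_div₀, map_add, map_one, map_mul, map_ofNat, q1, q2, q3]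
  · show σ (2 / z c ^ 2 - 1) = 2 / z (b * c) ^ 2 - 1
    rw [map_sub, map_div₀, map_pow, map_one, map_ofNat, q1]

theorem exists_qdat {K : Type u} [Field K] [NumberField K] {a : ℕ} {s : K} (hb : Base5 K a s)
    (hor : ∀ _ : Algebra K ℂ, 0 < ((Vm s 1 / Vc s 1) * algebraMap K ℂ s).re)
    {S : 𝓞 K} (hS : algebraMap (𝓞 K) K S = s) {τ : 𝓞 K ≃+* 𝓞 K} (hτ : τ S = -S)
    {d : ℕ} (hd : d ≠ 0) {A : GaussianInt} {nu : ℕ → ℤ → ℤ} (hmu : MuLaw a A nu) :
    ∃ (F : Type) (_ : Field F) (_ : NumberField F) (_ : Algebra K F)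
      (_ : FiniteDimensional K F) (_ : IsGalois K F) (_ : IsGalois ℚ F) (ζ w : F)
      (X Y V U : Ideal (𝓞 K) → F) (κ : F ≃ₐ[ℚ] F) (e : F),
      QDat K F a d s S τ ζ w X Y V U κ A nu e := by
  obtain ⟨φ⟩ : Nonempty (K →+* ℂ) := inferInstance
  let _ : Algebra K ℂ := φ.toAlgebra
  obtain ⟨j, E, hV, hVm, hE, hEa, hEE⟩ := exists_jE hb (hor _) hmu.nrm
  obtain ⟨F, hF1, hF2, hF3, ζ0, w, z, k, v, vm, h0, hT⟩ :=
    K5.exists_ictx' hb d {E} (by
      intro x hx
      rw [Finset.mem_singleton] at hx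
      rw [hx]
      exact hEa)
  obtain ⟨e, he⟩ := hT E (Finset.mem_singleton_self E)
  have hNF : NumberField F := NumberField.of_module_finite K F
  have hF4 : @IsGalois ℚ _ F _ DivisionRing.toRatAlgebra := by
    convert hF3
  obtain ⟨ζ, X, Y, V, U, κ, h⟩ := qdat_of hb hS hτ hd hmu hV hVm hE hEE he h0
  exact ⟨F, inferInstance, hNF, inferInstance, hF1, hF2, hF4, ζ, w, X, Y, V, U, κ, e, h⟩

end Pool.Agent.Work.MP_8efaaa_nt.W5
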