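import Mathlib
import Pool.Agent.Work.MP_8efaaa_nt.W5.Defs
import Pool.Agent.Work.MP_8efaaa_nt.W5.CPr
import Pool.Agent.Work.MP_8efaaa_nt.Rf.Hil

/-!
# W5/CTw (M): the classes of order two, squares, half systems

PROOF of `two_S0`. (1) `kl (rI S q) ≠ 1`: otherwise `rI S q = (x + y S)`, `x^2 + a y^2 = q` (`rI_norm`): `y ≠ 0` gives `≥ a > q`, `y = 0` gives a square. (2) `kl c ^ 2 = 1`, `N c = 1 (mod 4)`: `c * c = (β)` (`kl_mul`, `kl_eq_one`), `hil` (Rf/Hil) with `α = 1`: `(m) c = (ρ) * rI S r * P2^ε`, `m, ρ ≠ 0`, `r ∣ a = p q`,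
so `r ∈ {1, p, q, p q}`, `ε ≤ 1`. `ε = 0`: we may assume that `m`, `ρ`: the class of `c` is that of `rI S r` (`kl` in `ClassGroup`: use `ClassGroup.mk0_eq_mk0_iff` or `kl_mk0`; no oddness needed): `r = 1`: `1`; `r = q`: `kl (rI S q)`; `r = p q`: `rI S a = (S)` (`rI_self`): `1`; `r = p`: `rI S p * rI S q = rI S a = (S)`, so
`kl (rI S p) = (kl (rI S q))⁻¹ = kl (rI S q)` (`rI_sq`: its square is `(q)`). `ε = 1` is impossible: norms: `m^2 N c = N(ρ) r 2` and `N(ρ) = x^2 + a y^2`; divide by powers of `2`: write `x^2 + a y^2 = 4^j u` or `2 * 4^j u`; as `a = 1 (mod 4)`: if `x, y` both odd: `x^2 + a y^2 = 2 (mod 4)`, precisely `= 1 + a = 6 (mod 8)`, so it is `2 v`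
with `v = 3 (mod 4)`; if one is odd: odd and `1 (mod 4)`; both even: divide by `4`. So `N(ρ) = 4^j v` with `v = 1 (mod 4)` or `N(ρ) = 2 4^j v` with `v = 3 (mod 4)`. `m^2 N c = 4^i (1 (mod 4) odd)`. `2 r N(ρ)`: `r = 1 (mod 4)`; it has an even power of `2` only in the second case, and then the odd part is `3 (mod 4)`: contradiction.
`sq_surj`: the homomorphism `x ↦ x^2` from `S0` to `S1` has kernel of at most two elements, so its image has at least `card S0 / 2 = card S1` elements.
`half_sys`: choose `H` = a maximal set, or: by strong induction on the cardinality of the set of non-fixed points; or with a linear order on `J` (`Fintype.equivFin`): `H = {j | j < f j}`. `half_sum`, `half_prod`: `univ = {x0} ∪ {x1} ∪ H ∪ image f H`, disjoint.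
-/

set_option autoImplicit false

namespace Pool.Agent.Work.MP_8efaaa_nt.W5

open NumberField Pool.Agent.Work.MP_8efaaa_nt.R Pool.Agent.Work.MP_8efaaa_nt.N5

private theorem norm_aux (a r N : ℤ) (ha : a % 8 = 5) (hr : r % 4 = 1) (hN : N % 4 = 1) :
    ∀ (n : ℕ) (m x y : ℤ), m.natAbs = n → m ≠ 0 →
      m ^ 2 * N ≠ (x ^ 2 + a * y ^ 2) * r * 2 := by
  obtain ⟨a', rfl⟩ : ∃ a', a = 8 * a' + 5 := ⟨a / 8, by omega⟩
  obtain ⟨r', rfl⟩ : ∃ r', r = 4 * r' + 1 := ⟨r / 4, by omega⟩
  obtain ⟨N', rfl⟩ : ∃ N', N = 4 * N' + 1 := ⟨N / 4, by omega⟩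
  intro n
  induction n using Nat.strong_induction_on with
  | _ n ih =>
    intro m x y hmn hm0 h
    rcases Int.even_or_odd' m with ⟨m', rfl | rfl⟩
    · rcases Int.even_or_odd' x with ⟨x', rfl | rfl⟩ <;>
        rcases Int.even_or_odd' y with ⟨y', rfl | rfl⟩
      · refine ih m'.natAbs ?_ m' x' y' rfl ?_ ?_
        · omega
        · omega
        · linarith
      · exfalso
        have h1 : (2 : ℤ) * (m' ^ 2 * (4 * N' + 1) - x' ^ 2 * (4 * r' + 1) * 2
            - (8 * a' + 5) * (y' ^ 2 + y') * (4 * r' + 1) * 2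
            - (16 * a' * r' + 4 * a' + 10 * r' + 2)) = 1 := by
          linarith
        omega
      · exfalso
        have h1 : (2 : ℤ) * (m' ^ 2 * (4 * N' + 1) - (x' ^ 2 + x') * (4 * r' + 1) * 2
            - (8 * a' + 5) * y' ^ 2 * (4 * r' + 1) * 2 - 2 * r') = 1 := by
          linarith
        omega
      · exfalso
        obtain ⟨t, ht⟩ := Int.even_mul_succ_self x'
        obtain ⟨u, hu⟩ := Int.even_mul_succ_self y'
        have h1 : m' ^ 2 = 4 * ((t + 8 * a' * u + a' + 5 * u) * (4 * r' + 1) + 3 * r'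
            - m' ^ 2 * N') + 3 := by
          have h2 : 4 * m' ^ 2 = 4 * (4 * ((t + 8 * a' * u + a' + 5 * u) * (4 * r' + 1) + 3 * r'
            - m' ^ 2 * N') + 3) := by
            linear_combination h + 8 * (4 * r' + 1) * ht + 8 * (8 * a' + 5) * (4 * r' + 1) * hu
          linarith
        generalize (t + 8 * a' * u + a' + 5 * u) * (4 * r' + 1) + 3 * r' - m' ^ 2 * N' = Z at h1
        rcases Int.even_or_odd' m' with ⟨k, rfl | rfl⟩
        · have h3 : 4 * k ^ 2 = 4 * Z + 3 := by linarith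
          omega
        · have h3 : 4 * (k ^ 2 + k) + 1 = 4 * Z + 3 := by linarith
          omega
    · exfalso
      have h1 : (2 : ℤ) * (2 * (m' ^ 2 + m') * (4 * N' + 1) + 2 * N'
          - (x ^ 2 + (8 * a' + 5) * y ^ 2) * (4 * r' + 1)) = -1 := by
        linarith
      omega

theorem two_S0 {K : Type*} [Field K] [NumberField K] {a : ℕ} {s : K} (hb : Base5 K a s)
    {S : 𝓞 K} (hS : algebraMap (𝓞 K) K S = s) {p q : ℕ} (hp : p.Prime) (hq : q.Prime)
    (hp8 : p % 8 = 1) (hq8 : q % 8 = 5) (ha : a = p * q) :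
    kl (Rf.rI S q) ≠ 1 ∧ ∀ c : Ideal (𝓞 K), Ideal.absNorm c % 4 = 1 → kl c ^ 2 = 1 →
      kl c = 1 ∨ kl c = kl (Rf.rI S q) := by
  have hQ : Q5 K a S := by
    obtain ⟨S', h1, h2⟩ := exists_Q5 hb
    have h3 : S' = S := FaithfulSMul.algebraMap_injective (𝓞 K) K (h1.trans hS.symm)
    rwa [h3] at h2
  have hqa : q ∣ a := ⟨p, by rw [ha, mul_comm]⟩
  have hpa : p ∣ a := ⟨q, ha⟩
  have hNq := Rf.rI_norm hb hS hqa
  have hNp := Rf.rI_norm hb hS hpa
  have hoq : OddI (Rf.rI S q) := by
    unfold OddI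
    rw [hNq, Nat.odd_iff]
    omega
  have hop : OddI (Rf.rI S p) := by
    unfold OddI
    rw [hNp, Nat.odd_iff]
    omega
  have ha8 := hb.mod
  have hoa : OddI (Rf.rI S a) := by
    unfold OddI
    rw [Rf.rI_norm hb hS dvd_rfl, Nat.odd_iff]
    omega
  have hkq2 : kl (Rf.rI S q) * kl (Rf.rI S q) = 1 := by
    rw [← kl_mul hoq hoq, kl_eq_one (hoq.mul hoq)]
    exact ⟨_, Rf.rI_sq hb hS hqa⟩
  have hkpq : kl (Rf.rI S p) * kl (Rf.rI S q) = 1 := by
    rw [← kl_mul hop hoq, kl_eq_one (hop.mul hoq), Rf.rI_mul hb hS (dvd_of_eq ha.symm), ← ha]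
    exact ⟨_, Rf.rI_self hb hS⟩
  refine ⟨?_, ?_⟩
  · intro h1
    obtain ⟨δ, hδ⟩ := (kl_eq_one hoq).1 h1
    obtain ⟨x, y, rfl⟩ := hQ.coords δ
    have h2 := hQ.norm_gen x y
    rw [← hδ, hNq] at h2
    by_cases hy : y = 0
    · subst hy
      have h3 : (q : ℤ) = x ^ 2 := by linarith
      have h4 : q = x.natAbs ^ 2 := by
        have h5 : ((x.natAbs : ℤ)) ^ 2 = x ^ 2 := Int.natAbs_sq x
        zify
        rw [sq_abs]
        exact h3
      rw [h4] at hq
      exact Nat.Prime.not_prime_pow (le_refl 2) hq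
    · have h3 : (1 : ℤ) ≤ y ^ 2 := by
        have := sq_pos_of_ne_zero hy
        linarith
      have h4 : (a : ℤ) = p * q := by
        rw [ha]
        push_cast
        ring
      have h5 : (2 : ℤ) ≤ p := by exact_mod_cast hp.two_le
      have h6 : (2 : ℤ) ≤ q := by exact_mod_cast hq.two_le
      have h7 : (a : ℤ) ≤ q := by nlinarith [sq_nonneg x, mul_nonneg (by positivity : (0 : ℤ) ≤ a) (by linarith : (0 : ℤ) ≤ y ^ 2 - 1)]
      rw [h4] at h7
      nlinarith
  · intro c hc hk
    have hoc : OddI c := by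
      unfold OddI
      rw [Nat.odd_iff]
      omega
    obtain ⟨β, hβ⟩ : ∃ β : 𝓞 K, c ^ 2 = Ideal.span {β} := by
      rw [← kl_eq_one, kl_pow hoc, hk]
      unfold OddI
      rw [map_pow]
      exact Odd.pow hoc
    obtain ⟨m, r, ε, ρ, hm, hρ, hr, hε, h⟩ := Rf.hil hb hS hoc (α := 1) (β := β) one_ne_zero (by
      rw [Ideal.span_singleton_one, Ideal.top_mul, hβ])
    have hr4 : r = 1 ∨ r = p ∨ r = q ∨ r = p * q := by
      rw [ha] at hr
      obtain ⟨k1, k2, h1, h2, h3⟩ := (Nat.dvd_mul).1 hr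
      rcases (Nat.dvd_prime hp).1 h1 with rfl | rfl <;>
        rcases (Nat.dvd_prime hq).1 h2 with rfl | rfl
      · left; rw [← h3]
      · right; right; left; rw [← h3, one_mul]
      · right; left; rw [← h3, mul_one]
      · right; right; right; exact h3.symm
    have hrm : r % 4 = 1 := by
      rcases hr4 with rfl | rfl | rfl | rfl
      · rfl
      · omega
      · omega
      · rw [Nat.mul_mod]
        have e1 : p % 4 = 1 := by omega
        have e2 : q % 4 = 1 := by omega
        rw [e1, e2]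
    have hε0 : ε = 0 := by
      by_contra hne
      have hε1 : ε = 1 := by omega
      subst hε1
      rw [pow_one] at h
      obtain ⟨x, y, rfl⟩ := hQ.coords ρ
      have h1 := congrArg Ideal.absNorm h
      rw [map_mul, map_mul, map_mul, Rf.rI_norm hb hS hr, hQ.norm_p2] at h1
      have h2 := hQ.norm_gen x y
      have h3 := hQ.norm_gen (m : ℤ) 0
      have e3 : ((m : ℤ) : 𝓞 K) + ((0 : ℤ) : 𝓞 K) * S = (m : 𝓞 K) := by push_cast; ring
      rw [e3] at h3
      have h4 : ((m : ℤ)) ^ 2 * (Ideal.absNorm c : ℤ) = (x ^ 2 + a * y ^ 2) * r * 2 := by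
        have h5 := congrArg (Nat.cast (R := ℤ)) h1
        push_cast at h5
        rw [h3, h2] at h5
        linarith
      refine norm_aux a r (Ideal.absNorm c) ?_ ?_ ?_ _ m x y rfl ?_ h4
      · omega
      · omega
      · omega
      · exact_mod_cast hm
    subst hε0
    rw [pow_zero, mul_one] at h
    have hor : OddI (Rf.rI S r) := by
      unfold OddI
      rw [Rf.rI_norm hb hS hr, Nat.odd_iff]
      omega
    have hkc : kl c = kl (Rf.rI S r) := by
      rw [kl_mk0 (ne_bot_of_odd hoc), kl_mk0 (ne_bot_of_odd hor), ClassGroup.mk0_eq_mk0_iff]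
      exact ⟨(m : 𝓞 K), ρ, by exact_mod_cast hm, hρ, h⟩
    rw [hkc]
    rcases hr4 with rfl | rfl | rfl | rfl
    · left
      rw [Rf.rI_one, ← Ideal.one_eq_top]
      exact kl_one (K := K)
    · right
      have h5 : kl (Rf.rI S r) = (kl (Rf.rI S q))⁻¹ := eq_inv_of_mul_eq_one_left hkpq
      rw [h5]
      exact (eq_inv_of_mul_eq_one_left hkq2).symm
    · right
      rfl
    · left
      rw [← ha, kl_eq_one hoa]
      exact ⟨_, Rf.rI_self hb hS⟩

theorem sq_surj {G : Type*} [CommGroup G] [Fintype G] (S0 S1 : Subgroup G)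
    (hcard : Nat.card S0 = 2 * Nat.card S1) (hsq : ∀ C : G, C ^ 2 ∈ S1) {g : G}
    (h2 : ∀ C ∈ S0, C ^ 2 = 1 → C = 1 ∨ C = g) : ∀ C ∈ S1, ∃ D ∈ S0, D ^ 2 = C := by
  classical
  let φ : S0 →* S1 :=
    { toFun := fun D => ⟨(D : G) ^ 2, hsq D⟩
      map_one' := by
        apply Subtype.ext
        simp
      map_mul' := by
        intro x y
        apply Subtype.ext
        simp [mul_pow] }
  have hker : Nat.card φ.ker ≤ 2 := by
    let T : Finset G := {1, g}
    have hT : ∀ x : φ.ker, ((x : S0) : G) ∈ T := by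
      intro x
      have h3 : φ x = 1 := x.2
      have h4 : (((x : S0) : G)) ^ 2 = 1 := congrArg Subtype.val h3
      rcases h2 _ (x : S0).2 h4 with h5 | h5
      · rw [h5]
        exact Finset.mem_insert_self _ _
      · rw [h5]
        exact Finset.mem_insert_of_mem (Finset.mem_singleton_self _)
    have h3 : Nat.card φ.ker ≤ Nat.card T := by
      refine Nat.card_le_card_of_injective (fun x : φ.ker => (⟨((x : S0) : G), hT x⟩ : T)) ?_
      intro x y hxy
      apply Subtype.ext
      apply Subtype.ext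
      exact congrArg (fun z : T => (z : G)) hxy
    refine h3.trans ?_
    rw [Nat.card_eq_fintype_card, Fintype.card_coe]
    exact Finset.card_le_two
  have h4 : Nat.card φ.ker * Nat.card φ.range = Nat.card S0 := by
    rw [← Subgroup.index_ker]
    exact Subgroup.card_mul_index _
  have h5 : Nat.card S1 ≤ Nat.card φ.range := by
    rw [hcard] at h4
    nlinarith
  have h6 : φ.range = ⊤ := Subgroup.eq_top_of_le_card _ h5
  intro C hC
  have h7 : (⟨C, hC⟩ : S1) ∈ φ.range := by
    rw [h6]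
    exact Subgroup.mem_top _
  obtain ⟨D, hD⟩ := h7
  exact ⟨D, D.2, congrArg Subtype.val hD⟩

theorem half_sys {J : Type*} [Fintype J] [DecidableEq J] (f : J → J) (hf : ∀ j, f (f j) = j)
    {x0 x1 : J} (h01 : x0 ≠ x1) (hfix : ∀ j, f j = j ↔ j = x0 ∨ j = x1) :
    ∃ H : Finset J, Fintype.card J = 2 * H.card + 2 ∧ x0 ∉ H ∧ x1 ∉ H ∧ (∀ j ∈ H, f j ∉ H) ∧
      (∀ {M : Type} [AddCommMonoid M] (g : J → M),
        ∑ j, g j = g x0 + g x1 + ∑ j ∈ H, (g j + g (f j))) ∧
      ∀ (g : J → ℕ), ∏ j, g j = g x0 * g x1 * ∏ j ∈ H, (g j * g (f j)) := by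
  classical
  let e : J ≃ Fin (Fintype.card J) := Fintype.equivFin J
  have hinj : Function.Injective f := Function.Involutive.injective hf
  let H : Finset J := Finset.univ.filter fun j => e j < e (f j)
  have hmem : ∀ j, j ∈ H ↔ e j < e (f j) := by
    intro j
    simp [H]
  have f0 : f x0 = x0 := (hfix x0).2 (Or.inl rfl)
  have f1 : f x1 = x1 := (hfix x1).2 (Or.inr rfl)
  have n0 : x0 ∉ H := by
    rw [hmem, f0]
    exact lt_irrefl _
  have n1 : x1 ∉ H := by
    rw [hmem, f1]
    exact lt_irrefl _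
  have hH : ∀ j ∈ H, f j ∉ H := by
    intro j hj hj'
    rw [hmem] at hj hj'
    rw [hf] at hj'
    exact lt_asymm hj hj'
  have m0 : x0 ∉ H.image f := by
    intro h
    obtain ⟨j, hj, hj'⟩ := Finset.mem_image.1 h
    have h1 : j = x0 := by rw [← hf j, hj', f0]
    rw [h1] at hj
    exact n0 hj
  have m1 : x1 ∉ H.image f := by
    intro h
    obtain ⟨j, hj, hj'⟩ := Finset.mem_image.1 h
    have h1 : j = x1 := by rw [← hf j, hj', f1]
    rw [h1] at hj
    exact n1 hj
  have hdisj : Disjoint H (H.image f) := by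
    rw [Finset.disjoint_left]
    intro j hj hj'
    obtain ⟨k, hk, rfl⟩ := Finset.mem_image.1 hj'
    exact hH k hk hj
  have hu : (Finset.univ : Finset J) = insert x0 (insert x1 (H ∪ H.image f)) := by
    symm
    rw [Finset.eq_univ_iff_forall]
    intro j
    rw [Finset.mem_insert, Finset.mem_insert, Finset.mem_union, Finset.mem_image]
    by_cases hj : f j = j
    · rcases (hfix j).1 hj with h | h
      · exact Or.inl h
      · exact Or.inr (Or.inl h)
    · have h1 : e j ≠ e (f j) := fun h => hj (e.injective h).symm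
      rcases lt_or_gt_of_ne h1 with h2 | h2
      · exact Or.inr (Or.inr (Or.inl ((hmem j).2 h2)))
      · refine Or.inr (Or.inr (Or.inr ⟨f j, (hmem _).2 ?_, hf j⟩))
        rw [hf]
        exact h2
  have k1 : x1 ∉ H ∪ H.image f := by
    rw [Finset.mem_union]
    rintro (h | h)
    · exact n1 h
    · exact m1 h
  have k0 : x0 ∉ insert x1 (H ∪ H.image f) := by
    rw [Finset.mem_insert, Finset.mem_union]
    rintro (h | h | h)
    · exact h01 h
    · exact n0 h
    · exact m0 h
  refine ⟨H, ?_, n0, n1, hH, ?_, ?_⟩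
  · rw [← Finset.card_univ, hu, Finset.card_insert_of_notMem k0, Finset.card_insert_of_notMem k1,
      Finset.card_union_of_disjoint hdisj, Finset.card_image_of_injective _ hinj]
    ring
  · intro M _ g
    rw [hu, Finset.sum_insert k0, Finset.sum_insert k1, Finset.sum_union hdisj,
      Finset.sum_image (fun x _ y _ h => hinj h), Finset.sum_add_distrib, add_assoc]
  · intro g
    rw [hu, Finset.prod_insert k0, Finset.prod_insert k1, Finset.prod_union hdisj,
      Finset.prod_image (fun x _ y _ h => hinj h), Finset.prod_mul_distrib, mul_assoc]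

end Pool.Agent.Work.MP_8efaaa_nt.W5
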