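import Mathlib
import Pool.Agent.Work.MP_8efaaa_nt.W5.Defs
import Pool.Agent.Work.MP_8efaaa_nt.W5.Q.QSeven

/-!
# W5/SVal (M): the Frobenius at a ramified prime, and the type

PROOF of `ram_shift`. Let `R = W.valuationSubring` (or `W.integer`), `k` its residue field (a field; characteristic `q` since `W q < 1`), `r : R → k`. `i, v, u, v', u'` are in `R` (`i^2 = -1` so `W i = 1`; `W u' ≤ 1` as `u'^2 = 1 - v'^4`). In `k`: `v ≠ 0`, `v' = v^q`, `u' = u^q`, `u^2 = 1 - v^4`,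
`v^4 + 2 e v^2 - 1 = 0`, `(1 + i)^((q-1)/2) = e`. `frob_point` (W5/Q/QSeven) with `e := e`, `s := e` (`e s = 1`): in `k`: `x ≠ 1`, `x' = (1 + x)/(x - 1)`, `y' = -2 y/(x - 1)^2`, where `x, y, x', y'` are the reductions of the coordinates. In `F`: `W (x - 1) = 1`, so `x ≠ 1` and
`pt x y + (1, 0) = pt ((1 + x)/(x - 1)) (-2 y/(x - 1)^2)` (slope formula; compare `pt_add_T`, N5/EFr.lean, and `add_pt` in W5/E1), with integral coordinates congruent to `x'`, `y'`. `sub_mem` (W5/E1).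
`type_mod`: `Q = pt x y`, `x = -1/v^2`, `W x = 1`. If `y = 0` then `2 Q = 0` and `-Em` (or `-Ep`) `∈ E1`: impossible (`pt_mem`, `W (∓1) = 1`). Otherwise `2 Q = Q + Q = pt x3 y3`, `x3 (2 y)^2 = (x^2 + 1)^2` (`dbl_pt`), `W (x3 - (∓1)) < 1` by `x_of_sub_mem` (W5/E1). Multiply by `v^8`: with `x = -1/v^2`, `y^2 = x^3 - x`:
`x3 * 4 (x^3 - x) v^8 = (1 + v^4)^2`, `4 (x^3 - x) v^8 = -4 v^2 (1 - v^4)`. For `Em` (`x3 = -1 + small`): `(1 + v^4)^2 - 4 v^2 (1 - v^4)` is small, and it is `(v^4 + 2 v^2 - 1)^2`; so `W (v^4 + 2 v^2 - 1) < 1` (`vsq`). For `Ep`: `(1 + v^4)^2 + 4 v^2 (1 - v^4) = (v^4 - 2 v^2 - 1)^2`.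
-/

set_option autoImplicit false

namespace Pool.Agent.Work.MP_8efaaa_nt.W5

open NumberField Pool.Agent.Work.MP_8efaaa_nt.R Pool.Agent.Work.MP_8efaaa_nt.N5
open scoped Classical

private theorem sv_red {F : Type*} [Field F] {Γ : Type*} [LinearOrderedCommGroupWithZero Γ]
    (W : Valuation F Γ) (x : W.valuationSubring) :
    IsLocalRing.residue W.valuationSubring x = 0 ↔ W (x : F) < 1 := by
  rw [IsLocalRing.residue_eq_zero_iff, IsLocalRing.mem_maximalIdeal, mem_nonunits_iff]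
  have hx1 : W (x : F) ≤ 1 := x.2
  constructor
  · intro h
    by_contra h1
    apply h
    have h2 : W (x : F) = 1 := le_antisymm hx1 (not_lt.1 h1)
    have h0 : (x : F) ≠ 0 := by
      intro h0
      rw [h0, map_zero] at h2
      exact zero_ne_one h2
    have hm : ((x : F))⁻¹ ∈ W.valuationSubring := by
      show W _ ≤ 1
      rw [map_inv₀, h2, inv_one]
    refine IsUnit.of_mul_eq_one (⟨((x : F))⁻¹, hm⟩ : W.valuationSubring) ?_
    apply Subtype.ext
    show (x : F) * ((x : F))⁻¹ = 1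
    exact mul_inv_cancel₀ h0
  · intro h hu
    obtain ⟨y, hy⟩ := hu.exists_right_inv
    have h1 : (x : F) * (y : F) = 1 := by
      have := congrArg (fun z : W.valuationSubring => (z : F)) hy
      simpa using this
    have h2 : W ((x : F) * (y : F)) < 1 := by
      rw [mul_comm]
      exact vltm W y.2 h
    rw [h1, map_one] at h2
    exact lt_irrefl _ h2

private theorem pt_add_Ep {F : Type*} [Field F] [CharZero F] {x y : F} (h : y ^ 2 = x ^ 3 - x)
    (hx : x ≠ 1) :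
    ∃ h', pt x y h + Ep F = pt ((1 + x) / (x - 1)) (-2 * y / (x - 1) ^ 2) h' := by
  have hx1 : x - 1 ≠ 0 := sub_ne_zero.2 hx
  have h0 : (0 : F) ^ 2 = 1 ^ 3 - 1 := by norm_num
  have hs : (cQ F).slope x 1 y 0 = y / (x - 1) := by
    rw [WeierstrassCurve.Affine.slope_of_X_ne hx]
    simp
  have hX : (cQ F).addX x 1 (y / (x - 1)) = (1 + x) / (x - 1) := by
    simp only [WeierstrassCurve.Affine.addX, cQ]
    field_simp
    linear_combination h
  have hY : (cQ F).addY x 1 y (y / (x - 1)) = -2 * y / (x - 1) ^ 2 := by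
    simp only [WeierstrassCurve.Affine.addY, WeierstrassCurve.Affine.negY,
      WeierstrassCurve.Affine.negAddY, hX]
    simp only [cQ]
    field_simp
    ring
  have hadd : pt x y h + Ep F = WeierstrassCurve.Affine.Point.some
      ((cQ F).addX x 1 (y / (x - 1))) ((cQ F).addY x 1 y (y / (x - 1))) (by
        rw [← hs]
        exact WeierstrassCurve.Affine.nonsingular_add (cQ_nonsingular.2 h) (cQ_nonsingular.2 h0)
          (fun hc => hx hc.1)) := by
    unfold Ep pt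
    rw [WeierstrassCurve.Affine.Point.add_of_X_ne hx, WeierstrassCurve.Affine.Point.some.injEq, hs]
    exact ⟨rfl, rfl⟩
  refine ⟨?_, ?_⟩
  · rw [← hX, ← hY, ← cQ_nonsingular, ← hs]
    exact WeierstrassCurve.Affine.nonsingular_add (cQ_nonsingular.2 h) (cQ_nonsingular.2 h0)
          (fun hc => hx hc.1)
  · rw [hadd]
    unfold pt
    rw [WeierstrassCurve.Affine.Point.some.injEq]
    exact ⟨hX, hY⟩

theorem ram_shift {F : Type*} [Field F] [CharZero F] {Γ : Type*}
    [LinearOrderedCommGroupWithZero Γ] (W : Valuation F Γ) (h2 : W 2 = 1) {q : ℕ}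
    [Fact q.Prime] (hq8 : q % 8 = 5) (hWq : W (q : F) < 1) {i v u v' u' : F} (hi : i ^ 2 = -1)
    (hv : W v = 1) (hv' : W v' = 1) (hu : u ^ 2 + v ^ 4 = 1) (hu' : u' ^ 2 + v' ^ 4 = 1)
    (kv : W (v' - v ^ q) < 1) (ku : W (u' - u ^ q) < 1) {e : F} (he : e = 1 ∨ e = -1)
    (hty : W (v ^ 4 + 2 * e * v ^ 2 - 1) < 1) (h1 : W ((1 + i) ^ ((q - 1) / 2) - e) < 1)
    {h : (-((1 + i) * (1 + u) / v ^ 3)) ^ 2 =
      (-(i * (1 + u) / v ^ 2)) ^ 3 - -(i * (1 + u) / v ^ 2)}
    {h' : (-((1 + i) * (1 + u') / v' ^ 3)) ^ 2 =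
      (-(i * (1 + u') / v' ^ 2)) ^ 3 - -(i * (1 + u') / v' ^ 2)} :
    pt (-(i * (1 + u') / v' ^ 2)) (-((1 + i) * (1 + u') / v' ^ 3)) h' -
      pt (-(i * (1 + u) / v ^ 2)) (-((1 + i) * (1 + u) / v ^ 3)) h - Ep F ∈ E1 W := by
  have hq := (Fact.out : q.Prime)
  have hm1 : W (-1 : F) ≤ 1 := by rw [Valuation.map_neg, map_one]
  have h1le : W (1 : F) ≤ 1 := by rw [map_one]
  have hi1 : W i ≤ 1 := by
    apply vsq_le
    rw [hi]
    exact hm1
  have hv1 : W v ≤ 1 := hv.le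
  have hv1' : W v' ≤ 1 := hv'.le
  have hu1 : W u ≤ 1 := by
    apply vsq_le
    rw [show u ^ 2 = 1 + -(v ^ 4) by linear_combination hu]
    refine vle W h1le ?_
    rw [Valuation.map_neg, map_pow]
    exact pow_le_one₀ zero_le hv1
  have hu1' : W u' ≤ 1 := by
    apply vsq_le
    rw [show u' ^ 2 = 1 + -(v' ^ 4) by linear_combination hu']
    refine vle W h1le ?_
    rw [Valuation.map_neg, map_pow]
    exact pow_le_one₀ zero_le hv1'
  have he1 : W e ≤ 1 := by
    rcases he with h | h <;> rw [h]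
    · exact h1le
    · exact hm1
  have hv0 : v ≠ 0 := by
    rintro rfl
    rw [map_zero] at hv
    exact zero_ne_one hv
  have hv0' : v' ≠ 0 := by
    rintro rfl
    rw [map_zero] at hv'
    exact zero_ne_one hv'
  obtain ⟨x, hx⟩ : ∃ x : F, x = -(i * (1 + u) / v ^ 2) := ⟨_, rfl⟩
  obtain ⟨y, hy⟩ : ∃ y : F, y = -((1 + i) * (1 + u) / v ^ 3) := ⟨_, rfl⟩
  obtain ⟨x', hx'⟩ : ∃ x : F, x = -(i * (1 + u') / v' ^ 2) := ⟨_, rfl⟩
  obtain ⟨y', hy'⟩ : ∃ y : F, y = -((1 + i) * (1 + u') / v' ^ 3) := ⟨_, rfl⟩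
  revert h h'
  rw [← hx, ← hy, ← hx', ← hy']
  intro h h'
  have hx1 : W x ≤ 1 := by
    rw [hx, Valuation.map_neg, map_div₀, map_pow, hv, one_pow, div_one]
    exact vlem W hi1 (vle W h1le hu1)
  have hy1 : W y ≤ 1 := by
    rw [hy, Valuation.map_neg, map_div₀, map_pow, hv, one_pow, div_one]
    exact vlem W (vle W h1le hi1) (vle W h1le hu1)
  have hx1' : W x' ≤ 1 := by
    rw [hx', Valuation.map_neg, map_div₀, map_pow, hv', one_pow, div_one]
    exact vlem W hi1 (vle W h1le hu1')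
  have hy1' : W y' ≤ 1 := by
    rw [hy', Valuation.map_neg, map_div₀, map_pow, hv', one_pow, div_one]
    exact vlem W (vle W h1le hi1) (vle W h1le hu1')
  -- the reduction
  let R := W.valuationSubring
  let r : R →+* IsLocalRing.ResidueField R := IsLocalRing.residue R
  have hr : ∀ z : R, r z = 0 ↔ W (z : F) < 1 := fun z => sv_red W z
  let eI : R := ⟨i, hi1⟩
  let eV : R := ⟨v, hv1⟩
  let eU : R := ⟨u, hu1⟩
  let eV' : R := ⟨v', hv1'⟩
  let eU' : R := ⟨u', hu1'⟩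
  let eE : R := ⟨e, he1⟩
  let eX : R := ⟨x, hx1⟩
  let eY : R := ⟨y, hy1⟩
  let eX' : R := ⟨x', hx1'⟩
  let eY' : R := ⟨y', hy1'⟩
  have hchar : CharP (IsLocalRing.ResidueField R) q := by
    refine (CharP.charP_iff_prime_eq_zero hq).2 ?_
    have h3 : r (q : R) = 0 := (hr _).2 (by simpa using hWq)
    rw [map_natCast] at h3
    exact h3
  have rI : r eI ^ 2 = -1 := by
    have h3 : eI ^ 2 = -1 := Subtype.ext hi
    rw [← map_pow, h3, map_neg, map_one]
  have rV : r eV ≠ 0 := by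
    intro h3
    have h4 := (hr _).1 h3
    exact absurd h4 (not_lt.2 hv.ge)
  have rV' : r eV' ≠ 0 := by
    intro h3
    have h4 := (hr _).1 h3
    exact absurd h4 (not_lt.2 hv'.ge)
  have rU : r eU ^ 2 = 1 - r eV ^ 4 := by
    have h3 : eU ^ 2 = 1 - eV ^ 4 := Subtype.ext (by
      show u ^ 2 = 1 - v ^ 4
      linear_combination hu)
    rw [← map_pow, h3, map_sub, map_one, map_pow]
  have rE : r eE = 1 ∨ r eE = -1 := by
    rcases he with h3 | h3
    · left
      have h4 : eE = 1 := Subtype.ext h3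
      rw [h4, map_one]
    · right
      have h4 : eE = -1 := Subtype.ext h3
      rw [h4, map_neg, map_one]
  have rE2 : r eE * r eE = 1 := by
    rcases rE with h3 | h3 <;> rw [h3] <;> ring
  have rty : r eV ^ 4 + 2 * r eE * r eV ^ 2 - 1 = 0 := by
    have h3 : r (eV ^ 4 + 2 * eE * eV ^ 2 - 1) = 0 := (hr _).2 hty
    rw [map_sub, map_add, map_pow, map_mul, map_mul, map_pow, map_one, map_ofNat] at h3
    exact h3
  have rh1 : (1 + r eI) ^ ((q - 1) / 2) = r eE := by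
    have h3 : r ((1 + eI) ^ ((q - 1) / 2) - eE) = 0 := (hr _).2 h1
    rw [map_sub, map_pow, map_add, map_one] at h3
    exact sub_eq_zero.1 h3
  have rkv : r eV' = r eV ^ q := by
    have h3 : r (eV' - eV ^ q) = 0 := (hr _).2 kv
    rw [map_sub, map_pow] at h3
    exact sub_eq_zero.1 h3
  have rku : r eU' = r eU ^ q := by
    have h3 : r (eU' - eU ^ q) = 0 := (hr _).2 ku
    rw [map_sub, map_pow] at h3
    exact sub_eq_zero.1 h3
  have rX : r eX = -r eI * (1 + r eU) / r eV ^ 2 := by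
    have h3 : eX * eV ^ 2 = -eI * (1 + eU) := Subtype.ext (by
      show x * v ^ 2 = -i * (1 + u)
      rw [hx]
      field_simp)
    rw [eq_div_iff (pow_ne_zero 2 rV), ← map_pow, ← map_mul, h3, map_mul, map_neg, map_add,
      map_one]
  have rY : r eY = -(1 + r eI) * (1 + r eU) / r eV ^ 3 := by
    have h3 : eY * eV ^ 3 = -(1 + eI) * (1 + eU) := Subtype.ext (by
      show y * v ^ 3 = -(1 + i) * (1 + u)
      rw [hy]
      field_simp)
    rw [eq_div_iff (pow_ne_zero 3 rV), ← map_pow, ← map_mul, h3, map_mul, map_neg, map_add,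
      map_one, map_add, map_one]
  have rX' : r eX' = -r eI * (1 + r eU') / r eV' ^ 2 := by
    have h3 : eX' * eV' ^ 2 = -eI * (1 + eU') := Subtype.ext (by
      show x' * v' ^ 2 = -i * (1 + u')
      rw [hx']
      field_simp)
    rw [eq_div_iff (pow_ne_zero 2 rV'), ← map_pow, ← map_mul, h3, map_mul, map_neg, map_add,
      map_one]
  have rY' : r eY' = -(1 + r eI) * (1 + r eU') / r eV' ^ 3 := by
    have h3 : eY' * eV' ^ 3 = -(1 + eI) * (1 + eU') := Subtype.ext (by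
      show y' * v' ^ 3 = -(1 + i) * (1 + u')
      rw [hy']
      field_simp)
    rw [eq_div_iff (pow_ne_zero 3 rV'), ← map_pow, ← map_mul, h3, map_mul, map_neg, map_add,
      map_one, map_add, map_one]
  obtain ⟨-, f2, f3, f4⟩ := frob_point (q := q) hq8 rI rV rU rE rty rE rh1
  rw [rE2] at f2 f3 f4
  rw [← rX] at f2 f3 f4
  rw [one_mul, ← rkv, ← rku, ← rX'] at f3
  rw [← rkv, ← rku, ← rY', ← rY] at f4
  have rX1 : r eX - 1 ≠ 0 := sub_ne_zero.2 f2
  have hWx : W (x - 1) = 1 := by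
    refine le_antisymm ?_ ?_
    · rw [sub_eq_add_neg]
      exact vle W hx1 hm1
    · rw [← not_lt]
      intro h3
      apply rX1
      have h4 : r (eX - 1) = 0 := (hr _).2 h3
      rw [map_sub, map_one] at h4
      exact h4
  have hxne : x ≠ 1 := by
    rintro h3
    rw [h3, sub_self, map_zero] at hWx
    exact zero_ne_one hWx
  have hxne' : x - 1 ≠ 0 := sub_ne_zero.2 hxne
  obtain ⟨h3, e3⟩ := pt_add_Ep h hxne
  have hx3 : W ((1 + x) / (x - 1)) ≤ 1 := by
    rw [map_div₀, hWx, div_one]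
    exact vle W h1le hx1
  have hy3 : W (-2 * y / (x - 1) ^ 2) ≤ 1 := by
    rw [map_div₀, map_pow, hWx, one_pow, div_one, map_mul, Valuation.map_neg, h2, one_mul]
    exact hy1
  let eX3 : R := ⟨(1 + x) / (x - 1), hx3⟩
  let eY3 : R := ⟨-2 * y / (x - 1) ^ 2, hy3⟩
  have rX3 : r eX3 = (1 + r eX) / (r eX - 1) := by
    have h4 : eX3 * (eX - 1) = 1 + eX := Subtype.ext (by
      show (1 + x) / (x - 1) * (x - 1) = 1 + x
      field_simp)
    rw [eq_div_iff rX1, ← map_one r, ← map_sub, ← map_mul, h4, map_add]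
  have rY3 : r eY3 = -2 * r eY / (r eX - 1) ^ 2 := by
    have h4 : eY3 * (eX - 1) ^ 2 = -2 * eY := Subtype.ext (by
      show -2 * y / (x - 1) ^ 2 * (x - 1) ^ 2 = -2 * y
      field_simp)
    rw [eq_div_iff (pow_ne_zero 2 rX1), ← map_one r, ← map_sub, ← map_pow, ← map_mul, h4, map_mul,
      map_neg, map_ofNat]
  have e4 : pt x' y' h' - pt x y h - Ep F =
      pt x' y' h' - pt ((1 + x) / (x - 1)) (-2 * y / (x - 1) ^ 2) h3 := by
    rw [← e3]
    abel
  rw [e4]
  refine sub_mem h2 hx3 ?_ ?_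
  · have h4 : r (eX' - eX3) = 0 := by
      rw [map_sub, f3, rX3, sub_self]
    exact (hr _).1 h4
  · have h4 : r (eY' - eY3) = 0 := by
      rw [map_sub, f4, rY3, sub_self]
    exact (hr _).1 h4

theorem type_mod {F : Type*} [Field F] [CharZero F] {Γ : Type*}
    [LinearOrderedCommGroupWithZero Γ] (W : Valuation F Γ) (h2 : W 2 = 1) {v y : F}
    (hv : W v = 1) {h : y ^ 2 = (-(1 / v ^ 2)) ^ 3 - -(1 / v ^ 2)} :
    ((2 : ℤ) • pt (-(1 / v ^ 2)) y h - Em F ∈ E1 W → W (v ^ 4 + 2 * v ^ 2 - 1) < 1) ∧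
    ((2 : ℤ) • pt (-(1 / v ^ 2)) y h - Ep F ∈ E1 W → W (v ^ 4 - 2 * v ^ 2 - 1) < 1) := by
  have hv0 : v ≠ 0 := by
    rintro rfl
    rw [map_zero] at hv
    exact zero_ne_one hv
  have h1le : W (1 : F) ≤ 1 := by rw [map_one]
  have hm1 : W (-1 : F) ≤ 1 := by rw [Valuation.map_neg, map_one]
  have h4V : W (4 : F) ≤ 1 := by exact_mod_cast vnat W 4
  obtain ⟨x, hx⟩ : ∃ x : F, x = -(1 / v ^ 2) := ⟨_, rfl⟩
  revert h
  rw [← hx]
  intro h
  have hxv : x * v ^ 2 = -1 := by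
    rw [hx]
    field_simp
  -- the double
  have key : ∀ (s : F) (hs : s = 1 ∨ s = -1) (h0 : (0 : F) ^ 2 = s ^ 3 - s),
      (2 : ℤ) • pt x y h - pt s 0 h0 ∈ E1 W → W (v ^ 4 - 2 * s * v ^ 2 - 1) < 1 := by
    intro s hs h0 hd
    have hs1 : W s = 1 := by
      rcases hs with h3 | h3 <;> rw [h3]
      · rw [map_one]
      · rw [Valuation.map_neg, map_one]
    have hs2 : s ^ 2 = 1 := by rcases hs with h3 | h3 <;> rw [h3] <;> ring
    rw [two_zsmul] at hd
    by_cases hy : y = 0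
    · exfalso
      subst hy
      have h3 : pt x 0 h + pt x 0 h = 0 := by
        have h4 := neg_pt h
        have h5 : pt x (-0) (by rw [neg_sq]; exact h) = pt x 0 h := by
          rw [pt_inj]
          exact ⟨rfl, neg_zero⟩
        rw [h5] at h4
        nth_rw 1 [← h4]
        exact neg_add_cancel _
      rw [h3, zero_sub] at hd
      have h4 := (E1 W).neg_mem hd
      rw [neg_neg, pt_mem, hs1] at h4
      exact lt_irrefl _ h4
    · obtain ⟨x3, y3, h3, e3, h4⟩ := dbl_pt h hy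
      rw [e3] at hd
      have h5 := x_of_sub_mem (V := W) hs1.le hd
      apply vsq W
      have h6 : (v ^ 4 - 2 * s * v ^ 2 - 1) ^ 2 =
          (-(4 * v ^ 2 * (1 - v ^ 4))) * (x3 - s) := by
        have h7 : x3 * (-(4 * v ^ 2 * (1 - v ^ 4))) = (1 + v ^ 4) ^ 2 := by
          have h8 : x3 * (4 * (x ^ 3 - x)) = (x ^ 2 + 1) ^ 2 := by
            rw [← h, ← h4]
            ring
          have h9 : x3 * (4 * (x ^ 3 - x)) * v ^ 8 = (x ^ 2 + 1) ^ 2 * v ^ 8 := by rw [h8]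
          have h10 : x ^ 3 * v ^ 8 = -v ^ 2 := by
            calc x ^ 3 * v ^ 8 = (x * v ^ 2) ^ 3 * v ^ 2 := by ring
              _ = -v ^ 2 := by rw [hxv]; ring
          have h11 : x * v ^ 8 = -v ^ 6 := by
            calc x * v ^ 8 = (x * v ^ 2) * v ^ 6 := by ring
              _ = -v ^ 6 := by rw [hxv]; ring
          have h12 : (x ^ 2 + 1) ^ 2 * v ^ 8 = (1 + v ^ 4) ^ 2 := by
            calc (x ^ 2 + 1) ^ 2 * v ^ 8 = ((x * v ^ 2) ^ 2 + v ^ 4) ^ 2 := by ring
              _ = (1 + v ^ 4) ^ 2 := by rw [hxv]; ring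
          rw [h12] at h9
          rw [← h9]
          linear_combination (-4 * x3) * h10 + (4 * x3) * h11
        linear_combination -h7 + (4 * v ^ 4) * hs2
      rw [h6]
      refine vltm W ?_ h5
      rw [Valuation.map_neg]
      refine vlem W (vlem W h4V ?_) ?_
      · rw [map_pow]
        exact pow_le_one₀ zero_le hv.le
      · rw [sub_eq_add_neg]
        refine vle W h1le ?_
        rw [Valuation.map_neg, map_pow]
        exact pow_le_one₀ zero_le hv.le
  constructor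
  · intro hd
    have := key (-1) (Or.inr rfl) (by norm_num) hd
    rw [show v ^ 4 + 2 * v ^ 2 - 1 = v ^ 4 - 2 * (-1) * v ^ 2 - 1 by ring]
    exact this
  · intro hd
    have := key 1 (Or.inl rfl) (by norm_num) hd
    rw [show v ^ 4 - 2 * v ^ 2 - 1 = v ^ 4 - 2 * 1 * v ^ 2 - 1 by ring]
    exact this

end Pool.Agent.Work.MP_8efaaa_nt.W5
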