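import Mathlib
import Pool.Agent.Work.MP_8efaaa_nt.W5.Defs
import Pool.Agent.Work.MP_8efaaa_nt.W5.TDe

/-!
# W5/GNo (S-M): the two sums give a contradiction

PROOF. `sum_compare` (N5/EKl) for `b2`, `b1`: odd `p`, `q` in `𝓞 K` with `(p) ∏ b2 = (q) ∏ b1` and `∑ PP (b2) = ∑ PP (b1) + tt (q) - tt (p)`. Apply `gpi I` and compare with `s1`, `s2`: `gpi I (tt q) - gpi I (tt p) = -gpi I (tt δ) + Ep`. `gpi^3 (tt p) = 0` (`three_tt`), so `2 gpi I (tt p) = 0` (`gpi_gpi`: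
`gpi (gpi P) = 2 I P`, so `gpi^3 P = 2 I (gpi P)`, apply `I`), so `-gpi I (tt p) = gpi I (tt p)`, and `gpi I (tt (q p δ)) = gpi I (tt q + tt p + tt δ) = Ep` (`tt_mul`, twice; `Ideal.span_singleton_mul_span_singleton`). Norms modulo `8`: `N(p) ∏ N b2 = N(q) ∏ N b1` gives `N(p) 5 N(δ) = N(q) (mod 8)` and all are odd, so
`N(q) N(p) N(δ) = 5 (N(p) N(δ))^2 = 5 (mod 8)`. `tt_five` (W5/TDe) for `q p δ`: contradiction.
-/

set_option autoImplicit false

namespace Pool.Agent.Work.MP_8efaaa_nt.W5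

open NumberField Pool.Agent.Work.MP_8efaaa_nt.R Pool.Agent.Work.MP_8efaaa_nt.N5
open scoped Classical

private theorem gno_mod {p q d x y : ℕ} (hp : Odd p) (hd : Odd d) (h : p * y = q * x)
    (hx : x % 8 = 1) (hy : y % 8 = (5 * d) % 8) : (q * (p * d)) % 8 = 5 := by
  have sq8 : ∀ z : ℕ, Odd z → z * z ≡ 1 [MOD 8] := by
    intro z hz
    have h1 : z % 8 = 1 ∨ z % 8 = 3 ∨ z % 8 = 5 ∨ z % 8 = 7 := by
      have := Nat.odd_iff.1 hz
      omega
    unfold Nat.ModEq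
    rw [Nat.mul_mod]
    rcases h1 with h | h | h | h <;> rw [h]
  have hx' : x ≡ 1 [MOD 8] := hx
  have hy' : y ≡ 5 * d [MOD 8] := hy
  have e1 : q ≡ p * (5 * d) [MOD 8] := by
    have a1 := hx'.mul_left q
    rw [mul_one] at a1
    exact a1.symm.trans (h ▸ (hy'.mul_left p))
  have e2 := e1.mul_right (p * d)
  have e3 : p * (5 * d) * (p * d) = 5 * (p * d * (p * d)) := by ring
  have e4 := (sq8 (p * d) (hp.mul hd)).mul_left 5
  rw [e3] at e2
  exact e2.trans e4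

/-- the two sums give a contradiction -/
theorem no_both {K : Type*} {F : Type*} [Field K] [NumberField K] [Field F] [NumberField F]
    [Algebra K F] {a d : ℕ} {s : K} (hb : Base5 K a s)
    {S : 𝓞 K} (hS : algebraMap (𝓞 K) K S = s) {τ : 𝓞 K ≃+* 𝓞 K}
    (hτ : τ S = -S) {ζ w : F} {X Y V U : Ideal (𝓞 K) → F} {κ : F ≃ₐ[ℚ] F}
    (h : IDat K F a d s S τ ζ w X Y V U κ)
    {I : (cQ F).Point →+ (cQ F).Point} (hI : CMI (ζ ^ 2) I) {J : Type*} [Fintype J]
    (b1 b2 : J → Ideal (𝓞 K)) (n1 : ∀ j, Ideal.absNorm (b1 j) % 4 = 1)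
    (n2 : ∀ j, Ideal.absNorm (b2 j) % 4 = 1) (hkl : ∀ j, kl (b1 j) = kl (b2 j))
    {P : (cQ F).Point} {δ : 𝓞 K} (hδ : OddI (Ideal.span {δ}))
    (m1 : (∏ j, Ideal.absNorm (b1 j)) % 8 = 1)
    (m2 : (∏ j, Ideal.absNorm (b2 j)) % 8 = (5 * Ideal.absNorm (Ideal.span {δ})) % 8)
    (s1 : gpi I (∑ j, PP h.gd (b1 j)) = P)
    (s2 : gpi I (∑ j, PP h.gd (b2 j)) = P - gpi I (tt h.gd (Ideal.span {δ})) + Ep F) :
    False := by
  obtain ⟨p, q, hp, hq, e1, e2⟩ := sum_compare hb h.gd b2 b1 n2 n1 (fun j => (hkl j).symm)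
  have hpd : OddI (Ideal.span {p * δ}) := by
    rw [← Ideal.span_singleton_mul_span_singleton]
    exact oddI_mul'.2 ⟨hp, hδ⟩
  -- the multiplication by two
  have g3 : (gpi I) ((gpi I) ((gpi I) (tt h.gd (Ideal.span {p})))) = 0 := three_tt h.gd hI hp
  have g2 : (2 : ℤ) • gpi I (tt h.gd (Ideal.span {p})) = 0 := by
    rw [hI.gmod.gpi_gpi] at g3
    have g4 := congrArg I g3
    rw [map_zsmul, hI.sq, map_zero, smul_neg, neg_eq_zero] at g4
    exact g4
  have g5 : -gpi I (tt h.gd (Ideal.span {p})) = gpi I (tt h.gd (Ideal.span {p})) := by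
    rw [two_zsmul] at g2
    exact (eq_neg_of_add_eq_zero_left g2).symm
  -- the sum
  have k1 := congrArg (gpi I) e2
  rw [map_sub, map_add, s1, s2] at k1
  have k2 : gpi I (tt h.gd (Ideal.span {q * (p * δ)})) = Ep F := by
    rw [← Ideal.span_singleton_mul_span_singleton, tt_mul hb h.gd hq hpd,
      ← Ideal.span_singleton_mul_span_singleton, tt_mul hb h.gd hp hδ, map_add, map_add]
    have k3 : Ep F = gpi I (tt h.gd (Ideal.span {q})) + -gpi I (tt h.gd (Ideal.span {p})) +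
        gpi I (tt h.gd (Ideal.span {δ})) := by
      have k4 : P - gpi I (tt h.gd (Ideal.span {δ})) + Ep F -
          (P - gpi I (tt h.gd (Ideal.span {δ}))) = P + gpi I (tt h.gd (Ideal.span {q})) -
          gpi I (tt h.gd (Ideal.span {p})) - (P - gpi I (tt h.gd (Ideal.span {δ}))) := by
        rw [k1]
      calc Ep F = P - gpi I (tt h.gd (Ideal.span {δ})) + Ep F -
          (P - gpi I (tt h.gd (Ideal.span {δ}))) := by abel
        _ = P + gpi I (tt h.gd (Ideal.span {q})) -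
          gpi I (tt h.gd (Ideal.span {p})) - (P - gpi I (tt h.gd (Ideal.span {δ}))) := k4
        _ = _ := by abel
    rw [k3, g5, add_assoc]
  -- the norm
  refine tt_five hb hS hτ h hI (δ := q * (p * δ)) ?_ k2
  have m3 := congrArg Ideal.absNorm e1
  rw [map_mul, map_mul, map_prod, map_prod] at m3
  rw [← Ideal.span_singleton_mul_span_singleton, ← Ideal.span_singleton_mul_span_singleton,
    map_mul, map_mul]
  exact gno_mod hp hδ m3 m1 m2

end Pool.Agent.Work.MP_8efaaa_nt.W5
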