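import Mathlib
import Pool.Agent.Work.MP_8efaaa_nt.W5.Defs
import Pool.Agent.Work.MP_8efaaa_nt.W5.TFr
import Pool.Agent.Work.MP_8efaaa_nt.W5.CTw
import Pool.Agent.Work.MP_8efaaa_nt.N5.ETor
import Pool.Agent.Work.MP_8efaaa_nt.N5.DRed

/-!
# W5/GQ (M): the sum at the prime `q`

`A c = gpi I (PP c)`, `m = mI S a`, `g = kl (cj m * b) = (kl c)^2`, `qi = rI S q`, `k = kl qi`, `k^2 = 1` (`rI_sq`), `absNorm qi = q` (`rI_norm`), `k ∈ S0` (`h1`). PROOF. `J = S0`, `f C := g * C⁻¹` (in `S0`), an involution; `f C = C` iff `C^2 = g = (kl c)^2` iff `(C (kl c)⁻¹)^2 = 1` iff `C = kl c` or `C = kl c * k` (`hk2`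
applied to `r (C (kl c)⁻¹)`, and `hk1`: `x0 = kl c`, `x1 = kl c * k` are different). `half_sys` (W5/CTw) gives `H`. `b' C := if C = x0 then c else if C = x1 then qi * c else if C ∈ H then r C else cj m * b * cj (r (f C))`. Norms `1 (mod 4)` and `kl (b' C) = C`: `star` (W5/TFr). With `half_sys` (the sum formula) and `f (f C) = C`:
`gpi I (∑ PP (b' C)) = A c + A (qi c) + ∑_{C ∈ H} (A (r C) + A (cj m * b * cj (r C)))`, and `A (cj m * b * cj (r C)) = I T - gal ι (A (r C))` (`star`), so the sum over `H` is `|H| • I T + (element of E1 W)` (`gal_sub_mem` in W5/E1: `gal ι P - P ∈ E1 W`).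
`A (cj m * b * cj c) = A c + gpi I (tt δ)`: let `y = cj m * b * cj c`, `n = absNorm c`: `(n) * y = (cj c * c) * y = (δ) * c` (`hδ`, `norm_cj`), `A ((n) y) = A y` (`trans_n`: `gpi I (PP ((n) y) - PP y) = 0`, `n` odd), `PP ((δ) c) = PP c + tt δ` (`shift`). So `star` for `c`: `gal ι (A c) + A c + gpi I (tt δ) = I T`, i.e.
`2 A c = I T - gpi I (tt δ) - (gal ι (A c) - A c)`. And `A (qi c) = A c + Ep + (E1 W)` (`hsh`). Total: `gpi I (∑ PP (b' C)) = (|H| + 1) • I T - gpi I (tt δ) + Ep + (E1 W)`, `|S0| = 2 |H| + 2 = 2 card S1`, so `|H| + 1 = card S1`.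
The difference `D` of both sides is in `E1 W` and `4 • D = 0` (`half_tor` and `gpi_four` for the left side, `4 T = 0`, `gpi^3 (tt δ) = 0` (`three_tt`), so `4 • gpi I (tt δ) = 0`; `2 • Ep = 0`), so `D = 0` (`four_tors` in W5/E1).
Norms: `∏ absNorm (b' C) = n * (q n) * ∏_H (N (r C) * (N m N b N (r C)))`, modulo `8`: `= 5 (N m N b)^|H|`, `|H| + 1 = card S1` is even (`8 ∣ h`), so `|H|` is odd: `= 5 N m N b`; `absNorm (δ) = N m N b n^2 = N m N b (mod 8)`.
-/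

set_option autoImplicit false

namespace Pool.Agent.Work.MP_8efaaa_nt.W5

open NumberField Pool.Agent.Work.MP_8efaaa_nt.R Pool.Agent.Work.MP_8efaaa_nt.N5
open scoped Classical nonZeroDivisors

private theorem gq_sq8 {x : ℕ} (hx : Odd x) : x * x ≡ 1 [MOD 8] := by
  have h1 : x % 8 = 1 ∨ x % 8 = 3 ∨ x % 8 = 5 ∨ x % 8 = 7 := by
    have := Nat.odd_iff.1 hx
    omega
  unfold Nat.ModEq
  rw [Nat.mul_mod]
  rcases h1 with h | h | h | h <;> rw [h]

private theorem gq_prod {J : Type*} (H : Finset J) (M : ℕ) (hM : Odd M) (x : J → ℕ)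
    (hx : ∀ j ∈ H, Odd (x j)) (hH : Odd H.card) :
    ∏ j ∈ H, (x j * (M * x j)) ≡ M [MOD 8] := by
  have e1 : ∏ j ∈ H, (x j * (M * x j)) = M ^ H.card * ((∏ j ∈ H, x j) * ∏ j ∈ H, x j) := by
    rw [← Finset.prod_const, ← Finset.prod_mul_distrib, ← Finset.prod_mul_distrib]
    exact Finset.prod_congr rfl fun j _ => by ring
  have e2 : Odd (∏ j ∈ H, x j) :=
    Finset.prod_induction _ Odd (fun a b ha hb => ha.mul hb) odd_one hx
  obtain ⟨t, ht⟩ := hH
  have e3 : M ^ H.card ≡ M [MOD 8] := by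
    rw [ht, pow_add, pow_mul, pow_one, pow_two]
    have h1 := (gq_sq8 hM).pow t
    rw [one_pow] at h1
    have h2 := h1.mul_right M
    rwa [one_mul] at h2
  rw [e1]
  have h3 := e3.mul (gq_sq8 e2)
  rwa [mul_one] at h3

theorem at_q {K : Type*} {F : Type} [Field K] [NumberField K] [Field F] [NumberField F]
    [Algebra K F] [FiniteDimensional K F] [IsGalois K F] {a d : ℕ} {s : K} (hb : Base5 K a s)
    (hnc : ¬ IsCongruent a) {S : 𝓞 K} (hS : algebraMap (𝓞 K) K S = s) {τ : 𝓞 K ≃+* 𝓞 K}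
    (hτ : τ S = -S) {ζ w : F} {X Y V U : Ideal (𝓞 K) → F} {κ : F ≃ₐ[ℚ] F}
    (h : IDat K F a d s S τ ζ w X Y V U κ)
    {I : (cQ F).Point →+ (cQ F).Point} (hI : CMI (ζ ^ 2) I) {T : (cQ F).Point}
    (hT4 : (4 : ℤ) • T = 0)
    (hT : ∀ c, Ideal.absNorm c % 4 = 1 →
      gpi I (PP h.gd (mI S a * c)) = I (gpi I (PP h.gd c)) + T)
    {ι : F ≃ₐ[ℚ] F} (hz : ι ζ = ζ) {b : Ideal (𝓞 K)}
    (hb7 : Ideal.absNorm b % 8 = 7)
    (hi1 : ∀ c, Ideal.absNorm c % 4 = 1 → gal ι (PP h.gd c) = I (PP h.gd (b * cj τ c)))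
    (S0 S1 : Subgroup (ClassGroup (𝓞 K)))
    (h0 : 2 * Nat.card S0 = Fintype.card (ClassGroup (𝓞 K)))
    (h4 : 4 * Nat.card S1 = Fintype.card (ClassGroup (𝓞 K)))
    (h8 : 8 ∣ Fintype.card (ClassGroup (𝓞 K)))
    (h1 : ∀ b : Ideal (𝓞 K), Ideal.absNorm b % 4 = 1 → kl b ∈ S0)
    (r : ClassGroup (𝓞 K) → Ideal (𝓞 K)) (hr1 : ∀ C ∈ S0, Ideal.absNorm (r C) % 4 = 1)
    (hr2 : ∀ C ∈ S0, kl (r C) = C) {q : ℕ} (hqa : q ∣ a) (hq8 : q % 8 = 5)
    (hk1 : kl (Rf.rI S q) ≠ 1)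
    (hk2 : ∀ c : Ideal (𝓞 K), Ideal.absNorm c % 4 = 1 → kl c ^ 2 = 1 →
      kl c = 1 ∨ kl c = kl (Rf.rI S q))
    {c : Ideal (𝓞 K)} (hc1 : Ideal.absNorm c % 4 = 1)
    (hcg : kl c ^ 2 = kl (cj τ (mI S a) * b)) {δ : 𝓞 K}
    (hδ : Ideal.span {δ} = cj τ (mI S a) * b * cj τ c * cj τ c)
    {Γ : Type} [LinearOrderedCommGroupWithZero Γ] (W : Valuation F Γ) (hW2 : W 2 = 1)
    (hW : ∀ x, W (ι x) = W x) (hW' : ∀ x, W x ≤ 1 → W (ι x - x) < 1)
    (hsh : gpi I (PP h.gd (Rf.rI S q * c)) - gpi I (PP h.gd c) - Ep F ∈ E1 W) :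
    ∃ b' : S0 → Ideal (𝓞 K), (∀ C, Ideal.absNorm (b' C) % 4 = 1) ∧ (∀ C, kl (b' C) = C) ∧
      (∏ C, Ideal.absNorm (b' C)) % 8 = (5 * Ideal.absNorm (Ideal.span {δ})) % 8 ∧
      gpi I (∑ C, PP h.gd (b' C)) =
        (Nat.card S1 : ℤ) • I T - gpi I (tt h.gd (Ideal.span {δ})) + Ep F := by
  have ha5 := hb.mod
  -- the points
  set A : Ideal (𝓞 K) → (cQ F).Point := fun x => gpi I (PP h.gd x) with hA
  have hstar := fun (x : Ideal (𝓞 K)) (hx : Ideal.absNorm x % 4 = 1) =>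
    star hb hS hτ h hI hT hz hb7 hi1 hx
  -- the class of `q`
  have hqn : Ideal.absNorm (Rf.rI S q) = q := Rf.rI_norm hb hS hqa
  have hq4 : Ideal.absNorm (Rf.rI S q) % 4 = 1 := by
    rw [hqn]
    omega
  have hqo : OddI (Rf.rI S q) := oddI_of_one hq4
  have hco : OddI c := oddI_of_one hc1
  have hkk : kl (Rf.rI S q) * kl (Rf.rI S q) = 1 := by
    rw [← kl_mul hqo hqo, kl_eq_one (oddI_mul'.2 ⟨hqo, hqo⟩)]
    exact ⟨(q : 𝓞 K), Rf.rI_sq hb hS hqa⟩
  set G0 : S0 := ⟨kl c, h1 c hc1⟩ with hG0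
  set k0 : S0 := ⟨kl (Rf.rI S q), h1 _ hq4⟩ with hk0
  have hk02 : k0 * k0 = 1 := Subtype.ext hkk
  have hk01 : k0 ≠ 1 := fun e => hk1 (congrArg Subtype.val e)
  have h01 : G0 ≠ G0 * k0 := fun e => hk01 (mul_eq_left.1 e.symm)
  set f : S0 → S0 := fun C => G0 ^ 2 * C⁻¹ with hf
  have hff : ∀ C, f (f C) = C := by
    intro C
    show G0 ^ 2 * (G0 ^ 2 * C⁻¹)⁻¹ = C
    rw [mul_inv, inv_inv, mul_inv_cancel_left]
  have hfv : ∀ C : S0, ((f C : S0) : ClassGroup (𝓞 K)) = kl (cj τ (mI S a) * b) * (C : ClassGroup (𝓞 K))⁻¹ := by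
    intro C
    show (kl c) ^ 2 * (C : ClassGroup (𝓞 K))⁻¹ = _
    rw [hcg]
  have hfix : ∀ C, f C = C ↔ C = G0 ∨ C = G0 * k0 := by
    intro C
    constructor
    · intro e
      have e1 : (C * G0⁻¹) ^ 2 = 1 := by
        have e2 : G0 ^ 2 * C⁻¹ = C := e
        have e3 : G0 ^ 2 = C ^ 2 := by
          rw [pow_two C]
          exact mul_inv_eq_iff_eq_mul.1 e2
        rw [mul_pow, inv_pow, e3, mul_inv_cancel]
      have e2 : kl (r ((C * G0⁻¹ : S0) : ClassGroup (𝓞 K))) = ((C * G0⁻¹ : S0) : ClassGroup (𝓞 K)) :=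
        hr2 _ (C * G0⁻¹ : S0).2
      have e3 := hk2 (r ((C * G0⁻¹ : S0) : ClassGroup (𝓞 K))) (hr1 _ (C * G0⁻¹ : S0).2) (by
        rw [e2]
        exact congrArg Subtype.val e1)
      rw [e2] at e3
      rcases e3 with e3 | e3
      · left
        have e4 : C * G0⁻¹ = 1 := Subtype.ext e3
        exact mul_inv_eq_one.1 e4
      · right
        have e4 : C * G0⁻¹ = k0 := Subtype.ext e3
        rw [mul_inv_eq_iff_eq_mul] at e4
        rw [e4, mul_comm]
    · rintro (rfl | rfl)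
      · show G0 ^ 2 * G0⁻¹ = G0
        rw [pow_two, mul_inv_cancel_right]
      · show G0 ^ 2 * (G0 * k0)⁻¹ = G0 * k0
        rw [mul_inv_eq_iff_eq_mul]
        have : G0 * k0 * (G0 * k0) = G0 ^ 2 * (k0 * k0) := by
          rw [pow_two]
          exact mul_mul_mul_comm _ _ _ _
        rw [this, hk02, mul_one]
  obtain ⟨H, hH1, hH2, hH3, hH4, hH5, hH6⟩ := half_sys f hff h01 hfix
  -- the ideals
  set b' : S0 → Ideal (𝓞 K) := fun C =>
    if C = G0 then c else if C = G0 * k0 then Rf.rI S q * c else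
      if C ∈ H then r C else cj τ (mI S a) * b * cj τ (r (f C)) with hb'
  have v0 : b' G0 = c := by
    simp only [hb', if_true]
  have v1 : b' (G0 * k0) = Rf.rI S q * c := by
    simp only [hb', if_neg h01.symm, if_true]
  have nH0 : ∀ j ∈ H, j ≠ G0 := fun j hj e => hH2 (e ▸ hj)
  have nH1 : ∀ j ∈ H, j ≠ G0 * k0 := fun j hj e => hH3 (e ▸ hj)
  have v2 : ∀ j ∈ H, b' j = r j := by
    intro j hj
    simp only [hb', if_neg (nH0 j hj), if_neg (nH1 j hj), if_pos hj]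
  have fH0 : ∀ j ∈ H, f j ≠ G0 := by
    intro j hj e
    apply nH0 j hj
    rw [← hff j, e, (hfix G0).2 (Or.inl rfl)]
  have fH1 : ∀ j ∈ H, f j ≠ G0 * k0 := by
    intro j hj e
    apply nH1 j hj
    rw [← hff j, e, (hfix _).2 (Or.inr rfl)]
  have v3 : ∀ j ∈ H, b' (f j) = cj τ (mI S a) * b * cj τ (r j) := by
    intro j hj
    simp only [hb', if_neg (fH0 j hj), if_neg (fH1 j hj), if_neg (hH4 j hj), hff]
  have hN : ∀ C, Ideal.absNorm (b' C) % 4 = 1 := by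
    intro C
    by_cases e0 : C = G0
    · rw [e0, v0]
      exact hc1
    by_cases e1 : C = G0 * k0
    · rw [e1, v1, map_mul, Nat.mul_mod, hq4, hc1]
    by_cases e2 : C ∈ H
    · rw [v2 C e2]
      exact hr1 _ C.2
    · have e3 : b' C = cj τ (mI S a) * b * cj τ (r (f C)) := by
        simp only [hb', if_neg e0, if_neg e1, if_neg e2]
      rw [e3]
      exact (hstar _ (hr1 _ (f C).2)).1
  have hkl : ∀ C, kl (b' C) = C := by
    intro C
    by_cases e0 : C = G0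
    · rw [e0, v0]
    by_cases e1 : C = G0 * k0
    · rw [e1, v1, kl_mul hqo hco, mul_comm]
      rfl
    by_cases e2 : C ∈ H
    · rw [v2 C e2]
      exact hr2 _ C.2
    · have e3 : b' C = cj τ (mI S a) * b * cj τ (r (f C)) := by
        simp only [hb', if_neg e0, if_neg e1, if_neg e2]
      rw [e3, (hstar _ (hr1 _ (f C).2)).2.1, hr2 _ (f C).2, ← hfv, hff]
  -- norms
  have hNat : Nat.card S0 = Fintype.card S0 := Nat.card_eq_fintype_card
  have hHc : H.card + 1 = Nat.card S1 := by omega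
  have hHo : Odd H.card := by
    rw [Nat.odd_iff]
    omega
  have hM4 := (hstar c hc1).1
  have hcj := norm_cj hb hS hτ c
  set M : ℕ := Ideal.absNorm (cj τ (mI S a) * b) with hM
  set n : ℕ := Ideal.absNorm c with hn
  have hno : Odd n := Nat.odd_iff.2 (by omega)
  rw [map_mul, hcj.1, ← hM] at hM4
  have hMo : Odd M := by
    have h2 : Odd (M * n) := Nat.odd_iff.2 (by omega)
    exact (Nat.odd_mul.1 h2).1
  have hδn : Ideal.absNorm (Ideal.span {δ}) = M * n * n := by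
    rw [hδ, map_mul, map_mul, hcj.1]
  have hδo : OddI (Ideal.span {δ}) := by
    unfold OddI
    rw [hδn]
    exact (hMo.mul hno).mul hno
  have hprod : (∏ C, Ideal.absNorm (b' C)) ≡ 5 * Ideal.absNorm (Ideal.span {δ}) [MOD 8] := by
    have e1 := hH6 (fun C => Ideal.absNorm (b' C))
    rw [v0, v1, map_mul, hqn, ← hn] at e1
    have e2 : ∏ j ∈ H, (Ideal.absNorm (b' j) * Ideal.absNorm (b' (f j))) =
        ∏ j ∈ H, (Ideal.absNorm (r j) * (M * Ideal.absNorm (r j))) := by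
      refine Finset.prod_congr rfl fun j hj => ?_
      rw [v2 j hj, v3 j hj, map_mul (Ideal.absNorm) (cj τ (mI S a) * b), (norm_cj hb hS hτ (r j)).1]
    have e3 := gq_prod H M hMo (fun j => Ideal.absNorm (r (j : ClassGroup (𝓞 K))))
      (fun j _ => oddI_of_one (hr1 _ j.2)) hHo
    have e4 : q ≡ 5 [MOD 8] := hq8
    have e5 := gq_sq8 hno
    rw [e2] at e1
    rw [e1, hδn]
    have e6 : n * (q * n) * ∏ j ∈ H, (Ideal.absNorm (r j) * (M * Ideal.absNorm (r j))) =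
        q * (n * n) * ∏ j ∈ H, (Ideal.absNorm (r j) * (M * Ideal.absNorm (r j))) := by ring
    have e7 : 5 * (M * n * n) = 5 * (n * n) * M := by ring
    rw [e6, e7]
    exact (e4.mul_right _).mul e3
  refine ⟨b', hN, hkl, hprod, ?_⟩
  -- the sum
  have hsum : gpi I (∑ C, PP h.gd (b' C)) =
      A c + A (Rf.rI S q * c) + ∑ j ∈ H, (A (r j) + A (cj τ (mI S a) * b * cj τ (r j))) := by
    rw [map_sum]
    have e1 := hH5 (fun C => gpi I (PP h.gd (b' C)))
    rw [e1, v0, v1]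
    congr 1
    refine Finset.sum_congr rfl fun j hj => ?_
    rw [v2 j hj, v3 j hj]
  -- the ideal `y = cj m * b * cj c`
  have hyo : OddI (cj τ (mI S a) * b * cj τ c) := oddI_of_one (hstar c hc1).1
  have hAy : A (cj τ (mI S a) * b * cj τ c) = A c + gpi I (tt h.gd (Ideal.span {δ})) := by
    have e1 := trans_n h.gd hI hno hyo
    have e2 : Ideal.span {(n : 𝓞 K)} * (cj τ (mI S a) * b * cj τ c) = Ideal.span {δ} * c := by
      rw [hδ, ← hcj.2.1]
      ring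
    rw [e2, shift h.gd hc1 hδo, map_sub, map_add, sub_eq_zero] at e1
    exact e1.symm
  have hstc : gal ι (A c) + (A c + gpi I (tt h.gd (Ideal.span {δ}))) = I T := by
    rw [← hAy]
    exact (hstar c hc1).2.2
  have hgal : ∀ R : (cQ F).Point, gal ι R - R ∈ E1 W := fun R => gal_sub_mem hW2 hW hW' R
  have hD : gpi I (∑ C, PP h.gd (b' C)) - ((Nat.card S1 : ℤ) • I T -
      gpi I (tt h.gd (Ideal.span {δ})) + Ep F) ∈ E1 W := by
    have e1 : ∑ j ∈ H, (A (r j) + A (cj τ (mI S a) * b * cj τ (r j))) =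
        (H.card : ℤ) • I T - ∑ j ∈ H, (gal ι (A (r j)) - A (r j)) := by
      rw [natCast_zsmul, ← Finset.sum_const, ← Finset.sum_sub_distrib]
      refine Finset.sum_congr rfl fun j _ => ?_
      rw [← (hstar _ (hr1 _ j.2)).2.2]
      abel
    have e2 : ((Nat.card S1 : ℕ) : ℤ) = (H.card : ℤ) + 1 := by
      rw [← hHc]
      push_cast
      ring
    have e3 : gpi I (∑ C, PP h.gd (b' C)) - ((Nat.card S1 : ℤ) • I T -
        gpi I (tt h.gd (Ideal.span {δ})) + Ep F) =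
        (A (Rf.rI S q * c) - A c - Ep F) - (gal ι (A c) - A c) -
          ∑ j ∈ H, (gal ι (A (r j)) - A (r j)) := by
      rw [hsum, e1, e2, add_smul, one_smul, ← hstc]
      abel
    rw [e3]
    refine (E1 W).sub_mem ((E1 W).sub_mem hsh (hgal _)) ?_
    exact (E1 W).sum_mem fun j _ => hgal _
  -- four times the difference
  have f1 : (4 : ℤ) • ∑ C, PP h.gd (b' C) = 0 := by
    have e1 := half_tor hb h.gd hnc hI S0 h0 h1 b' hN hkl
    rw [hI.gmod.gpi_four, neg_eq_zero] at e1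
    exact e1
  have f2 : (4 : ℤ) • gpi I (tt h.gd (Ideal.span {δ})) = 0 := by
    have e1 := hI.gmod.gpi_four (gpi I (tt h.gd (Ideal.span {δ})))
    have e2 : (gpi I)^[4] (gpi I (tt h.gd (Ideal.span {δ}))) =
        (gpi I)^[2] ((gpi I)^[3] (tt h.gd (Ideal.span {δ}))) := by
      rw [← Function.iterate_succ_apply, ← Function.iterate_add_apply]
    rw [e2, three_tt h.gd hI hδo, iter_zero] at e1
    exact (neg_eq_zero.1 e1.symm)
  have f3 : (4 : ℤ) • Ep F = 0 := by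
    have e1 : Ep F + Ep F = 0 := double_zero _ rfl
    have e2 : (4 : ℤ) • Ep F = (Ep F + Ep F) + (Ep F + Ep F) := by
      rw [show (4 : ℤ) = 1 + 1 + (1 + 1) by norm_num]
      simp only [add_smul, one_smul]
    rw [e2, e1, add_zero]
  have f4 : (4 : ℤ) • (gpi I (∑ C, PP h.gd (b' C)) - ((Nat.card S1 : ℤ) • I T -
      gpi I (tt h.gd (Ideal.span {δ})) + Ep F)) = 0 := by
    rw [smul_sub, smul_add, smul_sub, f2, f3, ← map_zsmul, f1, map_zero, smul_smul, mul_comm,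
      ← smul_smul, ← map_zsmul, hT4, map_zero, smul_zero]
    abel
  exact sub_eq_zero.1 (four_tors hD f4)

end Pool.Agent.Work.MP_8efaaa_nt.W5
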