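import Mathlib
import Pool.Agent.Work.MP_8efaaa_nt.W5.Defs
import Pool.Agent.Work.MP_8efaaa_nt.W5.Q.QDefs
import Pool.Agent.Work.MP_8efaaa_nt.W5.Q.QFour

/-!
# W5/GRes (S-M): the residue of `(1 + i) ^ ((q - 1) / 2)`

PROOF. `k = 𝓞 F ⧸ L` is a field of characteristic `q` (`L` is maximal: nonzero prime; `q ∈ L`), `ζ^2 = algebraMap z` with `z : 𝓞 F`, `z^2 = -1`; `g : GaussianInt →+* k`, `x ↦ x.re + x.im z` (`Zsqrtd.lift` with `z * z = -1`). `g (jacobiSum θ θ) = 0` by `hπ`. `one_add_I` (W5/Q/QFour): `(1 + g gI)^((q-1)/2) = g (θ 2) * g gI^((q-1)/4)`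
`= g (ε) = ε`. So `(1 + z)^((q-1)/2) - ε ∈ L`.
-/

set_option autoImplicit false

namespace Pool.Agent.Work.MP_8efaaa_nt.W5

open NumberField

theorem res_e {F : Type} [Field F] [NumberField F] {L : Ideal (𝓞 F)} (hLp : L.IsPrime)
    (hL0 : L ≠ ⊥) {q : ℕ} [Fact q.Prime] (hq8 : q % 8 = 5) (hqL : (q : 𝓞 F) ∈ L) {ζ : F}
    (hz8 : ζ ^ 4 = -1) {θ : MulChar (ZMod q) GaussianInt} (hθ : Quart q θ)
    (hπ : ∃ π ∈ L, algebraMap (𝓞 F) F π =
      ((jacobiSum θ θ).re : F) + ((jacobiSum θ θ).im : F) * ζ ^ 2) {ε : ℤ}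
    (hε : θ 2 * gI ^ ((q - 1) / 4) = (ε : GaussianInt)) :
    ∃ z ∈ L, algebraMap (𝓞 F) F z = (1 + ζ ^ 2) ^ ((q - 1) / 2) - (ε : F) := by
  have hLm : L.IsMaximal := hLp.isMaximal hL0
  let _ : Field (𝓞 F ⧸ L) := Ideal.Quotient.field L
  have hq : q.Prime := Fact.out
  have _ : CharP (𝓞 F ⧸ L) q := by
    have h0 : ((q : ℕ) : 𝓞 F ⧸ L) = 0 := by
      have := Ideal.Quotient.eq_zero_iff_mem.2 hqL
      rwa [map_natCast] at this
    exact (CharP.charP_iff_prime_eq_zero hq).2 h0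
  -- the integer `z` with `z = ζ ^ 2`
  obtain ⟨z, hz⟩ : ∃ z : 𝓞 F, algebraMap (𝓞 F) F z = ζ ^ 2 := by
    have hint : IsIntegral ℤ (ζ ^ 2) := by
      refine ⟨Polynomial.X ^ 2 + 1, ?_, ?_⟩
      · exact Polynomial.monic_X_pow_add (by simp)
      · simp only [Polynomial.eval₂_add, Polynomial.eval₂_X_pow, Polynomial.eval₂_one]
        linear_combination hz8
    exact ⟨⟨ζ ^ 2, hint⟩, rfl⟩
  have hinj : Function.Injective (algebraMap (𝓞 F) F) := FaithfulSMul.algebraMap_injective _ _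
  have hz2 : z * z = -1 := by
    apply hinj
    rw [map_mul, hz, map_neg, map_one]
    linear_combination hz8
  let zk : 𝓞 F ⧸ L := Ideal.Quotient.mk L z
  have hzk : zk * zk = ((-1 : ℤ) : 𝓞 F ⧸ L) := by
    have := congrArg (Ideal.Quotient.mk L) hz2
    rw [map_mul, map_neg, map_one] at this
    rw [Int.cast_neg, Int.cast_one]
    exact this
  let g : GaussianInt →+* (𝓞 F ⧸ L) := Zsqrtd.lift ⟨zk, hzk⟩
  have hg : ∀ x : GaussianInt, g x = Ideal.Quotient.mk L ((x.re : 𝓞 F) + (x.im : 𝓞 F) * z) := by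
    intro x
    rw [map_add, map_mul, map_intCast, map_intCast]
    rfl
  have hg0 : g (jacobiSum θ θ) = 0 := by
    obtain ⟨π, hπL, hπ⟩ := hπ
    rw [hg, Ideal.Quotient.eq_zero_iff_mem]
    have : ((jacobiSum θ θ).re : 𝓞 F) + ((jacobiSum θ θ).im : 𝓞 F) * z = π := by
      apply hinj
      rw [hπ, map_add, map_mul, hz, map_intCast, map_intCast]
    rw [this]
    exact hπL
  have h1 := one_add_I (by omega) hθ g hg0
  have hgI : g gI = Ideal.Quotient.mk L z := by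
    rw [hg]
    congr 1
    change ((0 : ℤ) : 𝓞 F) + ((1 : ℤ) : 𝓞 F) * z = z
    rw [Int.cast_zero, Int.cast_one, zero_add, one_mul]
  rw [← map_pow, ← map_mul, hε, map_intCast, hgI] at h1
  refine ⟨(1 + z) ^ ((q - 1) / 2) - (ε : 𝓞 F), ?_, ?_⟩
  · rw [← Ideal.Quotient.eq_zero_iff_mem, map_sub, map_pow, map_add, map_one, map_intCast, h1,
      sub_self]
  · rw [map_sub, map_pow, map_add, map_one, hz, map_intCast]

end Pool.Agent.Work.MP_8efaaa_nt.W5
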