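import Mathlib
import Pool.Agent.Work.MP_8efaaa_nt.W5.Defs
import Pool.Agent.Work.MP_8efaaa_nt.N5.DIn
import Pool.Agent.Work.MP_8efaaa_nt.N5.DFix

/-!
# W5/IPi (S-M): an inertia element at a prime containing a given Gaussian prime

PROOF of `exists_inert_pi`. `exists_inert` (N5/DIn) gives `ι`, `L` with `q ∈ L`. `ζ^2` is integral, `i^2 = -1`; let `π, π'` be the algebraic integers `x + y i`, `x - y i`, `π π' = x^2 + y^2 = q ∈ L`, so `π ∈ L` or `π' ∈ L`. In the first case done. In the second case use `κ`: `ι' := κ ι κ⁻¹`,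
`L' := ` the image of `L` under the ring automorphism of `𝓞 F` induced by `κ` (e.g. `L.comap` of the automorphism induced by `κ⁻¹`, `NumberField.RingOfIntegers.mapRingEquiv`/`mapAlgEquiv`): prime, nonzero, `2 ∉ L'`, `triv`: for `x`: apply `triv` for `ι` to `κ⁻¹ x` and then `κ`. `κ π' = π` (`κ (ζ^2) = ζ^14 = -ζ^2`)
so `π ∈ L'`; `q ∈ L'`; `ι' s = κ ι κ⁻¹ s = κ (ι (-s)) = κ s = -s` (`κ⁻¹ s = -s` because `κ (-s) = s`).
`inert_conj`: `e1` is integral (`e1^2 ∈ ℤ[i]`), `ι (ζ^2) = ζ^2` (`inert_zeta`), so `(ι e1)^2 = e1^2`, `ι e1 = e1` or `-e1`. In the second case `2 e1 ∈ L` (`Inert.triv`), so `e1 ∈ L`, so `e1^2 = conj (J1 J2) = J1' J2' ∈ L` (`J' = J.re - J.im i`), so `J1' ∈ L` or `J2' ∈ L`. `J1' ∈ L`: then `J1 J1' = p ∈ L`, and `q ∈ L`,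
`gcd (p, q) = 1`: `1 ∈ L`. `J2' ∈ L`: `J2 = π ∈ L`, so `2 J2.re ∈ L` (an integer), and `q ∈ L`; `q ∤ 2 J2.re`: `q` is odd (`2 ∉ L`), and `q ∣ J2.re` gives `J2.re = 0` (`J2.re^2 ≤ q < q^2`), `J2.im^2 = q` not a square. So `1 ∈ L`.
-/

set_option autoImplicit false

namespace Pool.Agent.Work.MP_8efaaa_nt.W5

open NumberField Pool.Agent.Work.MP_8efaaa_nt.R Pool.Agent.Work.MP_8efaaa_nt.N5

private theorem ipi_j {F : Type*} [Field F] [NumberField F] {ζ : F} (hz8 : ζ ^ 4 = -1) :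
    ∃ j : 𝓞 F, algebraMap (𝓞 F) F j = ζ ^ 2 ∧ j ^ 2 = -1 := by
  have h1 : (ζ ^ 2) ^ 2 = -1 := by rw [← hz8]; ring
  have hint : IsIntegral ℤ (ζ ^ 2) := by
    refine IsIntegral.of_pow (n := 2) (by norm_num) ?_
    rw [h1]
    exact isIntegral_one.neg
  obtain ⟨j, hj⟩ : ∃ j : 𝓞 F, algebraMap (𝓞 F) F j = ζ ^ 2 := ⟨⟨ζ ^ 2, hint⟩, rfl⟩
  refine ⟨j, hj, ?_⟩
  apply NumberField.RingOfIntegers.coe_injective
  rw [map_pow, hj, h1, map_neg, map_one]

private theorem ipi_cop {F : Type*} [Field F] [NumberField F] {L : Ideal (𝓞 F)}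
    (hL : L.IsPrime) {m n : ℤ} (h : IsCoprime m n) (hm : (m : 𝓞 F) ∈ L) (hn : (n : 𝓞 F) ∈ L) :
    False := by
  obtain ⟨u, v, huv⟩ := h
  apply hL.ne_top
  rw [Ideal.eq_top_iff_one]
  have h1 : (1 : 𝓞 F) = (u : 𝓞 F) * (m : 𝓞 F) + (v : 𝓞 F) * (n : 𝓞 F) := by
    exact_mod_cast (congrArg (Int.cast : ℤ → 𝓞 F) huv).symm
  rw [h1]
  exact L.add_mem (L.mul_mem_left _ hm) (L.mul_mem_left _ hn)

theorem exists_inert_pi {K : Type*} {F : Type*} [Field K] [NumberField K] [Field F]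
    [NumberField F] [Algebra K F] [IsGalois ℚ F] {a : ℕ} {s : K} (hb : Base5 K a s) {ζ : F}
    (hz8 : ζ ^ 4 = -1) {κ : F ≃ₐ[ℚ] F} (hκs : κ (algebraMap K F s) = -algebraMap K F s)
    (hκz : κ ζ = ζ ^ 7) {q : ℕ} (hq : q.Prime) (hqa : q ∣ a) {x y : ℤ}
    (hxy : x ^ 2 + y ^ 2 = q) :
    ∃ (ι : F ≃ₐ[ℚ] F) (L : Ideal (𝓞 F)), Inert ι L ∧ (q : 𝓞 F) ∈ L ∧
      ι (algebraMap K F s) = -algebraMap K F s ∧
      ∃ π ∈ L, algebraMap (𝓞 F) F π = (x : F) + (y : F) * ζ ^ 2 := by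
  obtain ⟨ι, L, hin, hqL, hι⟩ := exists_inert (F := F) hb hq hqa
  obtain ⟨j, hj, hj2⟩ := ipi_j hz8
  have hprod : ((x : 𝓞 F) + (y : 𝓞 F) * j) * ((x : 𝓞 F) - (y : 𝓞 F) * j) ∈ L := by
    have h1 : ((x : 𝓞 F) + (y : 𝓞 F) * j) * ((x : 𝓞 F) - (y : 𝓞 F) * j) = (q : 𝓞 F) := by
      have h2 : ((x ^ 2 + y ^ 2 : ℤ) : 𝓞 F) = ((q : ℤ) : 𝓞 F) := by rw [hxy]
      push_cast at h2
      linear_combination h2 - (y : 𝓞 F) ^ 2 * hj2
    rw [h1]
    exact hqL
  have hval : algebraMap (𝓞 F) F ((x : 𝓞 F) + (y : 𝓞 F) * j) = (x : F) + (y : F) * ζ ^ 2 := by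
    rw [map_add, map_mul, map_intCast, map_intCast, hj]
  rcases hin.prime.mem_or_mem hprod with h1 | h1
  · exact ⟨ι, L, hin, hqL, hι, _, h1, hval⟩
  · have hκ2 : κ (ζ ^ 2) = -ζ ^ 2 := by
      rw [map_pow, hκz]
      have h8 : ζ ^ 8 = 1 := by
        calc ζ ^ 8 = (ζ ^ 4) ^ 2 := by ring
          _ = 1 := by rw [hz8]; norm_num
      calc (ζ ^ 7) ^ 2 = ζ ^ 8 * ζ ^ 4 * ζ ^ 2 := by ring
        _ = -ζ ^ 2 := by rw [h8, hz8]; ring
    have hκi2 : κ⁻¹ (ζ ^ 2) = -ζ ^ 2 := by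
      have h2 : κ (-ζ ^ 2) = ζ ^ 2 := by rw [map_neg, hκ2, neg_neg]
      calc κ⁻¹ (ζ ^ 2) = κ⁻¹ (κ (-ζ ^ 2)) := by rw [h2]
        _ = -ζ ^ 2 := κ.symm_apply_apply _
    have hκis : κ⁻¹ (algebraMap K F s) = -algebraMap K F s := by
      have h2 : κ (-algebraMap K F s) = algebraMap K F s := by rw [map_neg, hκs, neg_neg]
      calc κ⁻¹ (algebraMap K F s) = κ⁻¹ (κ (-algebraMap K F s)) := by rw [h2]
        _ = -algebraMap K F s := κ.symm_apply_apply _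
    obtain ⟨f, hf⟩ : ∃ f : 𝓞 F →+* 𝓞 F, ∀ z, f z = κ⁻¹ • z :=
      ⟨MulSemiringAction.toRingHom (F ≃ₐ[ℚ] F) (𝓞 F) κ⁻¹, fun _ => rfl⟩
    have hval2 : ∀ (g : F ≃ₐ[ℚ] F) (z : 𝓞 F),
        algebraMap (𝓞 F) F (g • z) = g (algebraMap (𝓞 F) F z) := fun _ _ => rfl
    have hmem : ∀ z : 𝓞 F, z ∈ L.comap f ↔ κ⁻¹ • z ∈ L := by
      intro z
      rw [Ideal.mem_comap, hf]
    refine ⟨κ * ι * κ⁻¹, L.comap f, ⟨?_, ?_, ?_, ?_⟩, ?_, ?_, ⟨_, ?_, hval⟩⟩
    · have := hin.prime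
      exact Ideal.comap_isPrime f L
    · intro hbot
      apply hin.ne_bot
      rw [eq_bot_iff]
      intro z hz
      have h2 : κ • z ∈ L.comap f := by
        rw [hmem, inv_smul_smul]
        exact hz
      rw [hbot, Ideal.mem_bot] at h2
      rw [Ideal.mem_bot]
      have h3 := congrArg (fun t => κ⁻¹ • t) h2
      simpa using h3
    · rw [Ideal.mem_comap, map_ofNat]
      exact hin.two
    · intro z
      obtain ⟨t, ht, hte⟩ := hin.triv (κ⁻¹ • z)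
      refine ⟨κ • t, ?_, ?_⟩
      · rw [hmem, inv_smul_smul]
        exact ht
      · rw [hval2, hte, hval2, map_sub]
        congr 1
        exact κ.apply_symm_apply _
    · rw [Ideal.mem_comap, map_natCast]
      exact hqL
    · show κ (ι (κ⁻¹ (algebraMap K F s))) = _
      rw [hκis, map_neg, hι, neg_neg, hκs]
    · rw [hmem]
      have h2 : κ⁻¹ • ((x : 𝓞 F) + (y : 𝓞 F) * j) = (x : 𝓞 F) - (y : 𝓞 F) * j := by
        apply NumberField.RingOfIntegers.coe_injective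
        rw [hval2, hval, map_add, map_mul, map_intCast, map_intCast, hκi2, map_sub, map_mul,
          map_intCast, map_intCast, hj]
        ring
      rw [h2]
      exact h1

theorem inert_conj {F : Type*} [Field F] [NumberField F] {ι : F ≃ₐ[ℚ] F} {L : Ideal (𝓞 F)}
    (hin : Inert ι L) {ζ : F} (hz8 : ζ ^ 4 = -1) {J1 J2 : GaussianInt} {p q : ℕ}
    (hp : p.Prime) (hq : q.Prime) (hpq : p ≠ q) (hJ1 : J1.re ^ 2 + J1.im ^ 2 = p)
    (hJ2 : J2.re ^ 2 + J2.im ^ 2 = q) (hqL : (q : 𝓞 F) ∈ L)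
    (hπ : ∃ π ∈ L, algebraMap (𝓞 F) F π = (J2.re : F) + (J2.im : F) * ζ ^ 2) {e1 : F}
    (he1 : e1 ^ 2 = ((J1 * J2).re : F) - ((J1 * J2).im : F) * ζ ^ 2) : ι e1 = e1 := by
  obtain ⟨j, hj, hj2⟩ := ipi_j hz8
  have hζ := inert_zeta hin hz8
  have hA : algebraMap (𝓞 F) F (((J1 * J2).re : 𝓞 F) - ((J1 * J2).im : 𝓞 F) * j) = e1 ^ 2 := by
    rw [map_sub, map_mul, map_intCast, map_intCast, hj, he1]
  have hint : IsIntegral ℤ e1 := by
    refine IsIntegral.of_pow (n := 2) (by norm_num) ?_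
    rw [← hA]
    exact NumberField.RingOfIntegers.isIntegral_coe _
  obtain ⟨E, hE⟩ : ∃ E : 𝓞 F, algebraMap (𝓞 F) F E = e1 := ⟨⟨e1, hint⟩, rfl⟩
  have h1 : (ι e1) ^ 2 = e1 ^ 2 := by
    rw [← map_pow, he1, map_sub, map_mul, map_intCast, map_intCast, map_pow, hζ]
  rcases sq_eq_sq_iff_eq_or_eq_neg.mp h1 with h2 | h2
  · exact h2
  · exfalso
    obtain ⟨y, hy, hyE⟩ := hin.triv E
    rw [hE, h2] at hyE
    have h3 : y = -(2 * E) := by
      apply NumberField.RingOfIntegers.coe_injective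
      rw [hyE, map_neg, map_mul, hE]
      simp only [map_ofNat]
      ring
    have h4 : 2 * E ∈ L := by
      have := L.neg_mem hy
      rwa [h3, neg_neg] at this
    have hEL : E ∈ L := (hin.prime.mem_or_mem h4).resolve_left hin.two
    have hEE : E * E = ((J1.re : 𝓞 F) - (J1.im : 𝓞 F) * j) * ((J2.re : 𝓞 F) - (J2.im : 𝓞 F) * j) := by
      have h5 : E * E = ((J1 * J2).re : 𝓞 F) - ((J1 * J2).im : 𝓞 F) * j := by
        apply NumberField.RingOfIntegers.coe_injective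
        rw [map_mul, hE, hA, sq]
      rw [h5, Zsqrtd.re_mul, Zsqrtd.im_mul]
      push_cast
      linear_combination (-(J1.im : 𝓞 F) * J2.im) * hj2
    have hmem := L.mul_mem_left E hEL
    rw [hEE] at hmem
    have hqL' : ((q : ℤ) : 𝓞 F) ∈ L := by exact_mod_cast hqL
    rcases hin.prime.mem_or_mem hmem with h5 | h5
    · have h6 : ((p : ℤ) : 𝓞 F) ∈ L := by
        have h7 : ((p : ℤ) : 𝓞 F) =
            ((J1.re : 𝓞 F) + (J1.im : 𝓞 F) * j) * ((J1.re : 𝓞 F) - (J1.im : 𝓞 F) * j) := by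
          rw [← hJ1]
          push_cast
          linear_combination ((J1.im : 𝓞 F) ^ 2) * hj2
        rw [h7]
        exact L.mul_mem_left _ h5
      exact ipi_cop hin.prime (Nat.isCoprime_iff_coprime.2 ((Nat.coprime_primes hp hq).2 hpq))
        h6 hqL'
    · obtain ⟨π, hπL, hπe⟩ := hπ
      have h6 : π = (J2.re : 𝓞 F) + (J2.im : 𝓞 F) * j := by
        apply NumberField.RingOfIntegers.coe_injective
        rw [hπe, map_add, map_mul, map_intCast, map_intCast, hj]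
      have h7 : 2 * (J2.re : 𝓞 F) ∈ L := by
        have h8 := L.add_mem hπL h5
        rw [h6] at h8
        have h9 : (J2.re : 𝓞 F) + (J2.im : 𝓞 F) * j + ((J2.re : 𝓞 F) - (J2.im : 𝓞 F) * j) =
            2 * (J2.re : 𝓞 F) := by ring
        rwa [h9] at h8
      have h8 : (J2.re : 𝓞 F) ∈ L := (hin.prime.mem_or_mem h7).resolve_left hin.two
      have hqp : Prime (q : ℤ) := Nat.prime_iff_prime_int.1 hq
      by_cases h9 : (q : ℤ) ∣ J2.re
      · have hq2 : (2 : ℤ) ≤ q := by exact_mod_cast hq.two_le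
        obtain ⟨k, hk⟩ := h9
        have h10 : J2.re = 0 := by
          by_contra hne
          have hk0 : k ≠ 0 := by
            rintro rfl
            exact hne (by rw [hk, mul_zero])
          have hk1 : 1 ≤ k ^ 2 := by
            have := sq_nonneg k
            have h11 : k ^ 2 ≠ 0 := pow_ne_zero _ hk0
            omega
          have h12 : J2.re ^ 2 = (q : ℤ) ^ 2 * k ^ 2 := by rw [hk]; ring
          nlinarith [sq_nonneg J2.im]
        rw [h10] at hJ2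
        have h11 : (J2.im.natAbs) ^ 2 = q := by
          have : ((J2.im.natAbs ^ 2 : ℕ) : ℤ) = (q : ℤ) := by
            push_cast
            rw [sq_abs]
            linarith
          exact_mod_cast this
        exact hq.not_isSquare ⟨J2.im.natAbs, by rw [← h11]; ring⟩
      · exact ipi_cop hin.prime ((Prime.coprime_iff_not_dvd hqp).2 h9) hqL' h8

end Pool.Agent.Work.MP_8efaaa_nt.W5
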