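import Mathlib
import Pool.Agent.Work.MP_8efaaa_nt.W5.Defs
import Pool.Agent.Work.MP_8efaaa_nt.W5.Q.QDefs
import Pool.Agent.Work.MP_8efaaa_nt.W5.Q.QOne
import Pool.Agent.Work.MP_8efaaa_nt.W5.Q.QTwo
import Pool.Agent.Work.MP_8efaaa_nt.W5.Q.QThree

/-!
# W5/MLaw (S-M): the law of the signs for two quartic characters

PROOF. `nu N t := if mu χ θ N t = 1 then 1 else -1` (classical). For odd `N` prime to `p q` with `N ∣ t^2 + p q` the value `mu χ θ N t` is `1` or `-1` (`mu_sq`), so `(nu N t : GaussianInt) = mu χ θ N t`. All fields follow from block Q: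
`nrm`: `norm_jac` for both characters (`J * star J = p`; norm is multiplicative: `(x y) star (x y)`, and `z * star z = z.re^2 + z.im^2`); `one`: `mu χ θ 1 t = 1` (`χ 1 = 1`, `jacobiSym.one_right`); `cong`: `jacobiSym.mod_left`-type
(`mu χ θ N t` depends only on `t` modulo `N`); `mul`: `mu_mul` with `t1 = t2 = t`; `frob1`, `frob3`: `frob_mu` (`⟨0, 1⟩ = gI` by definition; `l` is different from `p`, `q` and `2`).
-/

set_option autoImplicit false

namespace Pool.Agent.Work.MP_8efaaa_nt.W5

theorem exists_law {p q : ℕ} [Fact p.Prime] [Fact q.Prime] (hp : p % 8 = 1) (hq : q % 8 = 5)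
    {χ : MulChar (ZMod p) GaussianInt} (hχ : Quart p χ)
    {θ : MulChar (ZMod q) GaussianInt} (hθ : Quart q θ) :
    ∃ nu : ℕ → ℤ → ℤ, MuLaw (p * q) (jacobiSum χ χ * jacobiSum θ θ) nu ∧
      ∀ (N : ℕ) (t : ℤ), Odd N → N.Coprime (p * q) → (N : ℤ) ∣ t ^ 2 + p * q →
        ((nu N t : ℤ) : GaussianInt) = mu χ θ N t := by
  classical
  have inj : Function.Injective (Int.cast : ℤ → GaussianInt) := Int.cast_injective
  set nu : ℕ → ℤ → ℤ := fun N t => if mu χ θ N t = 1 then 1 else -1 with hnu
  have key : ∀ (N : ℕ) (t : ℤ), Odd N → N.Coprime (p * q) → (N : ℤ) ∣ t ^ 2 + p * q →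
      ((nu N t : ℤ) : GaussianInt) = mu χ θ N t := by
    intro N t hN hc ht
    rcases mu_sq (by omega) (by omega) hχ hθ hN hc ht with h | h
    · simp only [hnu, h, if_true, Int.cast_one]
    · have h1 : ¬ (-1 : GaussianInt) = 1 := by decide
      simp only [hnu, h, if_neg h1]
      norm_num
  have hcast : ∀ (N : ℕ) (t : ℤ), (N : ℤ) ∣ t ^ 2 + ((p * q : ℕ) : ℤ) →
      (N : ℤ) ∣ t ^ 2 + p * q := by
    intro N t h
    push_cast at h
    exact h
  refine ⟨nu, ?_, key⟩
  refine
    { nrm := ?_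
      one := ?_
      cong := ?_
      pm := ?_
      mul := ?_
      frob1 := ?_
      frob3 := ?_ }
  · have h1 : ∀ (r : ℕ) (x : GaussianInt), x * star x = (r : GaussianInt) → x.norm = r := by
      intro r x hx
      have h2 := Zsqrtd.norm_eq_mul_conj x
      rw [hx] at h2
      apply inj
      rw [h2]
      simp
    have h2 := h1 p _ (norm_jac hχ)
    have h3 := h1 q _ (norm_jac hθ)
    have h4 : (jacobiSum χ χ * jacobiSum θ θ).norm = (p : ℤ) * q := by
      rw [Zsqrtd.norm_mul, h2, h3]
    rw [Zsqrtd.norm_def] at h4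
    push_cast
    linear_combination h4
  · intro t
    have h1 : mu χ θ 1 t = 1 := by
      unfold mu
      rw [Nat.cast_one, Nat.cast_one, map_one, map_one, jacobiSym.one_right]
      simp
    simp only [hnu, h1, if_true]
  · intro N t t' h
    have h1 : mu χ θ N t = mu χ θ N t' := by
      unfold mu
      rw [jacobiSym.mod_left' h]
    simp only [hnu, h1]
  · intro N t _ _ _
    by_cases h : mu χ θ N t = 1
    · left
      simp only [hnu, h, if_true]
    · right
      simp only [hnu, if_neg h]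
  · intro N N' t hN hN' hNN hc hc' ht ht'
    have h1 := key N t hN hc (hcast N t ht)
    have h2 := key N' t hN' hc' (hcast N' t ht')
    have hd : ((N * N' : ℕ) : ℤ) ∣ t ^ 2 + ((p * q : ℕ) : ℤ) := by
      push_cast
      push_cast at ht ht'
      exact IsCoprime.mul_dvd (Nat.isCoprime_iff_coprime.2 hNN) ht ht'
    have h3 := key (N * N') t (hN.mul hN') (Nat.Coprime.mul_left hc hc') (hcast _ t hd)
    have h4 := mu_mul (χ := χ) (θ := θ) hN hN' (Int.ModEq.refl (n := (N : ℤ)) t)
      (Int.ModEq.refl (n := (N' : ℤ)) t)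
    apply inj
    rw [h3, h4, ← h1, ← h2]
    push_cast
    ring
  · intro l t hl h4 hla ht k _ _ g
    have hlf : Fact l.Prime := ⟨hl⟩
    have hlp : l ≠ p := by
      rintro rfl
      exact hla (dvd_mul_right _ _)
    have hlq : l ≠ q := by
      rintro rfl
      exact hla (dvd_mul_left _ _)
    have hl2 : l ≠ 2 := by
      rintro rfl
      omega
    have hc : l.Coprime (p * q) := (Nat.Prime.coprime_iff_not_dvd hl).2 hla
    have h1 := (frob_mu hp hq hlp hlq hl2 hχ hθ g (hcast l t ht)).1 h4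
    rw [h1, ← key l t (hl.odd_of_ne_two hl2) hc (hcast l t ht), map_intCast]
  · intro l t hl h4 hla ht k _ _ g
    have hlf : Fact l.Prime := ⟨hl⟩
    have hlp : l ≠ p := by
      rintro rfl
      exact hla (dvd_mul_right _ _)
    have hlq : l ≠ q := by
      rintro rfl
      exact hla (dvd_mul_left _ _)
    have hl2 : l ≠ 2 := by
      rintro rfl
      omega
    have hc : l.Coprime (p * q) := (Nat.Prime.coprime_iff_not_dvd hl).2 hla
    have h1 := (frob_mu hp hq hlp hlq hl2 hχ hθ g (hcast l t ht)).2 h4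
    rw [h1, ← key l t (hl.odd_of_ne_two hl2) hc (hcast l t ht), map_intCast]
    rfl

end Pool.Agent.Work.MP_8efaaa_nt.W5
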