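import Mathlib
import Pool.Agent.Work.MP_8efaaa_nt.R.Main
import Pool.Agent.Work.MP_8efaaa_nt.Rf.Ex
import Pool.Agent.Work.MP_8efaaa_nt.N5.DIn
import Pool.Agent.Work.MP_8efaaa_nt.N5.NMi
import Pool.Agent.Work.MP_8efaaa_nt.N5.EQt
import Pool.Agent.Work.MP_8efaaa_nt.W5.O.Orient
import Pool.Agent.Work.MP_8efaaa_nt.W5.Q.QSix
import Pool.Agent.Work.MP_8efaaa_nt.W5.Q.QFive
import Pool.Agent.Work.MP_8efaaa_nt.W5.MLaw
import Pool.Agent.Work.MP_8efaaa_nt.W5.FDat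
import Pool.Agent.Work.MP_8efaaa_nt.W5.IPi
import Pool.Agent.Work.MP_8efaaa_nt.W5.IIo
import Pool.Agent.Work.MP_8efaaa_nt.W5.SVal
import Pool.Agent.Work.MP_8efaaa_nt.W5.CPr
import Pool.Agent.Work.MP_8efaaa_nt.W5.CEl
import Pool.Agent.Work.MP_8efaaa_nt.W5.CTw
import Pool.Agent.Work.MP_8efaaa_nt.W5.TCo
import Pool.Agent.Work.MP_8efaaa_nt.W5.TFr
import Pool.Agent.Work.MP_8efaaa_nt.W5.GTy
import Pool.Agent.Work.MP_8efaaa_nt.W5.GRes
import Pool.Agent.Work.MP_8efaaa_nt.W5.GP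
import Pool.Agent.Work.MP_8efaaa_nt.W5.GQ
import Pool.Agent.Work.MP_8efaaa_nt.W5.GNo

/-!
# W5/GMain: the theorem
-/

set_option autoImplicit false

namespace Pool.Agent.Work.MP_8efaaa_nt.W5

open NumberField Pool.Agent.Work.MP_8efaaa_nt.R Pool.Agent.Work.MP_8efaaa_nt.N5
open scoped Classical nonZeroDivisors

/-- the shift at the prime `q`, from the sign of `V c ^ 4 ± 2 V c ^ 2 - 1` -/
private theorem shift_q {K : Type*} {F : Type} [Field K] [NumberField K] [Field F] [NumberField F]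
    [Algebra K F] {a d : ℕ} {s : K} {S : 𝓞 K} {τ : 𝓞 K ≃+* 𝓞 K} {ζ w : F}
    {X Y V U : Ideal (𝓞 K) → F} {κ : F ≃ₐ[ℚ] F} (h : IDat K F a d s S τ ζ w X Y V U κ)
    {I : (cQ F).Point →+ (cQ F).Point} (hI : CMI (ζ ^ 2) I) {Γ : Type*}
    [LinearOrderedCommGroupWithZero Γ] (W : Valuation F Γ) (h2 : W 2 = 1) {q : ℕ}
    [Fact q.Prime] (hq8 : q % 8 = 5) (hWq : W (q : F) < 1) {qi c : Ideal (𝓞 K)}
    (hc : OddI c) (hqc : OddI (qi * c)) (hv : W (V c) = 1) (hv' : W (V (qi * c)) = 1)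
    (kv : W (V (qi * c) - V c ^ q) < 1) (ku : W (U (qi * c) - U c ^ q) < 1) {y : ℤ}
    (ht : (Even y → (2 : ℤ) • gpi I (gpi I (PP h.gd c)) - Em F ∈ E1 W) ∧
      (Odd y → (2 : ℤ) • gpi I (gpi I (PP h.gd c)) - Ep F ∈ E1 W))
    (h1 : W ((1 + ζ ^ 2) ^ ((q - 1) / 2) - ((-1 : ℤ) ^ y.natAbs : ℤ)) < 1) :
    gpi I (PP h.gd (qi * c)) - gpi I (PP h.gd c) - Ep F ∈ E1 W := by
  obtain ⟨y1, e1, g1⟩ := phi2_PP h hI hc
  rw [g1] at ht
  obtain ⟨e2, g2⟩ := phi_PP h hI hc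
  obtain ⟨e3, g3⟩ := phi_PP h hI hqc
  rw [g2, g3]
  obtain ⟨-, u1, -⟩ := h.uv c hc
  obtain ⟨-, u2, -⟩ := h.uv _ hqc
  rcases Int.even_or_odd y with hy | hy
  · have hy' : Even y.natAbs := Int.natAbs_even.2 hy
    have t := (type_mod W h2 hv).1 (ht.1 hy)
    rw [hy'.neg_one_pow, Int.cast_one] at h1
    exact ram_shift W h2 hq8 hWq hI.i2 hv hv' u1 u2 kv ku (Or.inl rfl)
      (by rwa [mul_one]) h1
  · have hy' : Odd y.natAbs := Int.natAbs_odd.2 hy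
    have t := (type_mod W h2 hv).2 (ht.2 hy)
    rw [hy'.neg_one_pow, Int.cast_neg, Int.cast_one] at h1
    refine ram_shift W h2 hq8 hWq hI.i2 hv hv' u1 u2 kv ku (e := -1) (Or.inr rfl) ?_ h1
    have e4 : V c ^ 4 + 2 * -1 * V c ^ 2 - 1 = V c ^ 4 - 2 * V c ^ 2 - 1 := by ring
    rw [e4]
    exact t


private theorem norm_re {p : ℕ} [Fact p.Prime] {χ : MulChar (ZMod p) GaussianInt}
    (h : Quart p χ) : (jacobiSum χ χ).re ^ 2 + (jacobiSum χ χ).im ^ 2 = p := by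
  have h1 := congrArg Zsqrtd.re (norm_jac h)
  rw [Zsqrtd.re_mul, Zsqrtd.re_star, Zsqrtd.im_star, Zsqrtd.re_natCast] at h1
  linear_combination h1

private theorem jac_n {a p q n : ℕ} {u : ℤ} (hapq : a = p * q) (hn : n % 4 = 1)
    (hc : Nat.Coprime n a) (h : (n : ℤ) ∣ u ^ 2 + a) : jacobiSym (p * q : ℤ) n = 1 := by
  have hno : Odd n := Nat.odd_iff.2 (by omega)
  have hun : u.gcd n = 1 := by
    rw [← Int.isCoprime_iff_gcd_eq_one]
    have h1 : IsCoprime (n : ℤ) (a : ℤ) := Nat.isCoprime_iff_coprime.2 hc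
    obtain ⟨w, hw⟩ := h
    have h2 : (a : ℤ) = -(u ^ 2) + n * w := by linear_combination hw
    rw [h2] at h1
    have h3 : IsCoprime (n : ℤ) (-(u ^ 2)) := h1.of_add_mul_left_right
    have h4 : IsCoprime (n : ℤ) (u ^ 2) := (IsCoprime.neg_right_iff _ _).1 h3
    exact (IsCoprime.pow_right_iff (by norm_num)).1 h4 |>.symm
  have h1 : jacobiSym (p * q : ℤ) n = jacobiSym (-(u ^ 2)) n := by
    apply jacobiSym.mod_left'
    refine Int.modEq_iff_dvd.2 ?_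
    have h2 : -(u ^ 2) - (p * q : ℤ) = -(u ^ 2 + a) := by
      rw [hapq]
      push_cast
      ring
    rw [h2]
    exact (dvd_neg).2 h
  rw [h1, jacobiSym.neg _ hno, pow_two, jacobiSym.mul_left, ← pow_two, jacobiSym.sq_one hun,
    mul_one, ZMod.χ₄_nat_one_mod_four hn]

/-- the part over `F` -/
private theorem core {K : Type} {F : Type} [Field K] [NumberField K] [Field F] [NumberField F]
    [Algebra K F] [FiniteDimensional K F] [IsGalois K F] [IsGalois ℚ F] {a p q : ℕ}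
    [hpF : Fact p.Prime] [hqF : Fact q.Prime] (hp8 : p % 8 = 1) (hq8 : q % 8 = 5)
    (hapq : a = p * q) {s : K} (hb : Base5 K a s) (hnc : ¬ IsCongruent a)
    (h8 : 8 ∣ Fintype.card (ClassGroup (𝓞 K)))
    {S : 𝓞 K} (hS : algebraMap (𝓞 K) K S = s) {τ : 𝓞 K ≃+* 𝓞 K} (hτ : τ S = -S) {ζ w e : F}
    {X Y V U : Ideal (𝓞 K) → F} {κ : F ≃ₐ[ℚ] F} {χ : MulChar (ZMod p) GaussianInt}
    (hχ : Quart p χ) {θ : MulChar (ZMod q) GaussianInt} (hθ : Quart q θ) {nu : ℕ → ℤ → ℤ}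
    (hnu : ∀ (N : ℕ) (t : ℤ), Odd N → N.Coprime (p * q) → (N : ℤ) ∣ t ^ 2 + p * q →
      ((nu N t : ℤ) : GaussianInt) = mu χ θ N t)
    (h : QDat K F a p s S τ ζ w X Y V U κ (jacobiSum χ χ * jacobiSum θ θ) nu e)
    (hc : (-4 : ZMod p) ^ ((p - 1) / 8) = -1) : False := by
  have hp : p.Prime := hpF.out
  have hq : q.Prime := hqF.out
  have hpa : p ∣ a := ⟨q, hapq⟩
  have hqa : q ∣ a := ⟨p, by rw [hapq, mul_comm]⟩
  have hpq : p ≠ q := by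
    rintro rfl
    omega
  have ha8 := hb.mod
  have ha0 : a ≠ 0 := by omega
  have hd0 : p ≠ 0 := hp.ne_zero
  have hD := h.rd.id
  have hz8 := hD.gd.z8
  obtain ⟨I, hI⟩ := exists_cmi (i_sq hz8)
  have hsF : (algebraMap K F s) ^ 2 = -(a : F) := by
    rw [← map_pow, hb.sq, map_neg, map_natCast]
  obtain ⟨T, hTm, hT4, hT⟩ := exists_T hb hS hD hI
  have hcn : ∀ c : Ideal (𝓞 K), Ideal.absNorm (cj τ c) = Ideal.absNorm c :=
    fun c => (norm_cj hb hS hτ c).1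
  have hn : ∀ b : Ideal (𝓞 K), Ideal.absNorm (cj τ (mI S a) * b) =
      (1 + a) / 2 * Ideal.absNorm b := by
    intro b
    rw [map_mul, hcn, norm_mI hb hS]
  have hn3 : (1 + a) / 2 % 4 = 3 := by omega
  have hnorm : ∀ b : Ideal (𝓞 K), Ideal.absNorm b % 8 = 7 →
      Ideal.absNorm (cj τ (mI S a) * b) % 4 = 1 := by
    intro b hb7
    rw [hn, Nat.mul_mod, hn3]
    have : Ideal.absNorm b % 4 = 3 := by omega
    rw [this]
  have hcop : Nat.Coprime ((1 + a) / 2) a := by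
    have h1 : 2 * ((1 + a) / 2) = 1 + a := by omega
    have h2 : Nat.gcd ((1 + a) / 2) a ∣ 1 := by
      have h3 : Nat.gcd ((1 + a) / 2) a ∣ 2 * ((1 + a) / 2) :=
        Dvd.dvd.mul_left (Nat.gcd_dvd_left _ _) _
      rw [h1] at h3
      exact (Nat.dvd_add_left (Nat.gcd_dvd_right _ _)).1 h3
    exact Nat.dvd_one.1 h2
  have hcopb : ∀ b : Ideal (𝓞 K), Nat.Coprime (Ideal.absNorm b) a →
      Nat.Coprime (Ideal.absNorm (cj τ (mI S a) * b)) a := by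
    intro b hba
    rw [hn]
    exact Nat.Coprime.mul_left hcop hba
  have hjac : ∀ b : Ideal (𝓞 K), Ideal.absNorm b % 8 = 7 →
      jacobiSym p (Ideal.absNorm (cj τ (mI S a) * b)) = jacobiSym p (Ideal.absNorm b) := by
    intro b hb7
    have z1 : NeZero ((1 + a) / 2) := ⟨by omega⟩
    have z2 : NeZero (Ideal.absNorm b) := ⟨by omega⟩
    rw [hn, jacobiSym.mul_right, jac_mi hb.mod hpa (Or.inl hp8), one_mul]
  -- the prime `p`
  obtain ⟨ιp, Lp, hinp, hlLp, hιps⟩ := exists_inert (F := F) hb hp hpa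
  have hιpz := inert_zeta hinp hz8
  have hιpw := inert_w hinp hz8 hb.sf hsF hD.hw hpa hp (dvd_refl p) hlLp hιps
  obtain ⟨bp, tp, hbp7, hbpa, -, -, hbpj, hbpi, -⟩ := iota_q hb hS hτ h hd0 hI hιps hιpz ha0
  have hbpj' := hbpj hιpw
  obtain ⟨S0, S1, hle, c2, c4, hrep, q1, q2, hsq, q3⟩ := exists_quarter hb hpa (hnorm bp hbp7)
    (hcopb bp hbpa) (by rw [hjac bp hbp7, hbpj'])
  choose! r hr1 hr2 using hrep
  have hgp : kl (cj τ (mI S a) * bp) ∉ S1 := by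
    rw [q2 _ (hnorm bp hbp7) (hcopb bp hbpa), hjac bp hbp7, hbpj']
    norm_num
  obtain ⟨b1, m1, m2, m3, m4⟩ := at_p hb hnc hS hτ hD hI hT4 hT hinp hιpz hbp7 hbpi S0 S1 hle c2
    c4 h8 q1 q3 hgp r hr1 hr2
  -- the prime `q`
  have hJ1 := norm_re hχ
  have hJ2 := norm_re hθ
  obtain ⟨ι, L, hin, hqL, hιs, hπ⟩ := exists_inert_pi (F := F) hb hz8 hD.cs hD.cz hq hqa hJ2
  have hιz := inert_zeta hin hz8
  have hpL : (p : 𝓞 F) ∉ L := by
    intro hpL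
    have hco : IsCoprime (p : ℤ) (q : ℤ) :=
      Nat.isCoprime_iff_coprime.2 ((Nat.coprime_primes hp hq).2 hpq)
    obtain ⟨x, y, hxy⟩ := hco
    apply hin.prime.ne_top
    rw [Ideal.eq_top_iff_one]
    have h1 : (1 : 𝓞 F) = (x : 𝓞 F) * (p : 𝓞 F) + (y : 𝓞 F) * (q : 𝓞 F) := by
      exact_mod_cast congrArg (Int.cast : ℤ → 𝓞 F) hxy.symm
    rw [h1]
    exact L.add_mem (L.mul_mem_left _ hpL) (L.mul_mem_left _ hqL)
  have hιw : ι w = w := inert_sq hin (n := (p : ℤ)) (by rw [hD.hw]; simp) (by simpa using hpL)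
  have hκe : (κ e) ^ 2 = (((jacobiSum χ χ * jacobiSum θ θ).re : ℤ) : F) -
      (((jacobiSum χ χ * jacobiSum θ θ).im : ℤ) : F) * ζ ^ 2 := by
    rw [← map_pow, h.sq, map_add, map_mul, map_intCast, map_intCast, map_pow, hD.cz]
    have h7 : (ζ ^ 7) ^ 2 = -ζ ^ 2 := by
      rw [← pow_mul, show 7 * 2 = 4 * 3 + 2 by norm_num, pow_add, pow_mul, hz8]
      ring
    rw [h7]
    ring
  have hιe : ι (κ e) = κ e := inert_conj hin hz8 hp hq hpq hJ1 hJ2 hqL hπ hκe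
  have hM : 2 * a * (1 + a) ≠ 0 := by positivity
  obtain ⟨b, t, hb7, hba, htb, hbj, -, hbi, hbnu⟩ := iota_q hb hS hτ h hd0 hI hιs hιz hM
  have hbj' := hbj hιw
  have hnu1 := hbnu hιe
  have hba' : Nat.Coprime (Ideal.absNorm b) a :=
    Nat.Coprime.coprime_dvd_right ⟨2 * (1 + a), by ring⟩ hba
  have hgS1 : kl (cj τ (mI S a) * b) ∈ S1 := by
    rw [q2 _ (hnorm b hb7) (hcopb b hba'), hjac b hb7, hbj']
  obtain ⟨hk1, hk2⟩ := two_S0 hb hS hp hq hp8 hq8 hapq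
  obtain ⟨D, hD0, hDg⟩ := sq_surj S0 S1 (by omega) hsq (g := kl (Rf.rI S q))
    (fun C hC hC2 => by
      have h1 := hk2 (r C) (hr1 C hC) (by rw [hr2 C hC]; exact hC2)
      rwa [hr2 C hC] at h1) _ hgS1
  have hM2 : 2 * a * (1 + a) * Ideal.absNorm b ≠ 0 := mul_ne_zero hM (by omega)
  obtain ⟨c, u, hco, hcc, hcu, hck⟩ := exists_prim hb hS D hM2
  have hc1 : Ideal.absNorm c % 4 = 1 := by
    rw [norm_mod4 hb hco (oddI_of_one (hr1 D hD0)) (by rw [hck, hr2 D hD0])]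
    exact hr1 D hD0
  have hcg : kl c ^ 2 = kl (cj τ (mI S a) * b) := by rw [hck, hDg]
  obtain ⟨δ, x, y, A', B', hδ, hδc, hyAB, hA, hB, hAB, hABn, hNt⟩ := exists_el hb hS hτ hb7 hba
    htb hc1 hcc hcu hcg
  -- the symbol
  have htN := t2a hb hS htb
  have hNodd : Odd (Ideal.absNorm b) := Nat.odd_iff.2 (by omega)
  have hmu : mu χ θ (Ideal.absNorm b) t = -1 := by
    rw [← hnu _ t hNodd (by rw [← hapq]; exact hba') (by rw [hapq] at htN; exact_mod_cast htN),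
      hnu1]
    simp
  have hcn1 : jacobiSym (p * q : ℤ) (Ideal.absNorm c) = 1 := by
    have h1 := t2a hb hS hcu
    have hca : Nat.Coprime (Ideal.absNorm c) a :=
      Nat.Coprime.coprime_dvd_right ⟨2 * (1 + a) * Ideal.absNorm b, by ring⟩ hcc
    exact jac_n hapq (by omega) hca h1
  have hfin := final_mu hp8 hq8 hχ hθ hA hB hAB
    (N := Ideal.absNorm b) (n := Ideal.absNorm c) (t := t)
    (by rw [hapq] at hABn; push_cast at hABn; exact hABn) hb7 hc1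
    (by
      rw [← hapq]
      refine Nat.Coprime.mul_left hba' ?_
      exact Nat.Coprime.coprime_dvd_right ⟨2 * (1 + a) * Ideal.absNorm b, by ring⟩ hcc)
    hcn1 hNt hmu
  have hcp := cond_p hp8 hχ hc
  have hy' : y.natAbs = ((A' - B') / 2).natAbs := by
    have : (A' - B') / 2 = -y := by omega
    rw [this, Int.natAbs_neg]
  have hε : θ 2 * gI ^ ((q - 1) / 4) = (((-1 : ℤ) ^ y.natAbs : ℤ) : GaussianInt) := by
    rw [hcp, neg_neg, mul_assoc, ← hy'] at hfin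
    rw [Int.cast_pow, Int.cast_neg, Int.cast_one]
    have h1 : ((-1 : GaussianInt) ^ y.natAbs) * (-1) ^ y.natAbs = 1 := by
      rw [← mul_pow]
      norm_num
    calc θ 2 * gI ^ ((q - 1) / 4)
        = ((-1 : GaussianInt) ^ y.natAbs * (-1) ^ y.natAbs) * (θ 2 * gI ^ ((q - 1) / 4)) := by
          rw [h1, one_mul]
      _ = (-1) ^ y.natAbs * ((-1) ^ y.natAbs * (θ 2 * gI ^ ((q - 1) / 4))) := by ring
      _ = (-1) ^ y.natAbs := by rw [hfin, mul_one]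
  obtain ⟨zr, hzL, hzr⟩ := res_e hin.prime hin.ne_bot hq8 hqL hz8 hθ hπ hε
  -- the valuation
  have hqi : Rf.rI S q = L.comap (algebraMap (𝓞 K) (𝓞 F)) := by
    have hLp := hin.prime
    refine ((Rf.rI_prime hb hS hq hqa).2 _ (Ideal.IsPrime.comap _) ?_).symm
    rw [Ideal.mem_comap, map_natCast]
    exact hqL
  obtain ⟨Γ, hΓ, W, w1, w2, w3, w4, w5⟩ := h.rd.ram q hq hqa L hin.prime hqL _ hqi
  obtain ⟨hWι, hWι'⟩ := w4 ι hin
  have hqio : OddI (Rf.rI S q) := by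
    unfold OddI
    rw [Rf.rI_norm hb hS hqa]
    exact Nat.odd_iff.2 (by omega)
  have hqco : OddI (Rf.rI S q * c) := oddI_mul'.2 ⟨hqio, hco⟩
  obtain ⟨v1, -, -, -, -, v2, v3, -, -⟩ := w5 c hco
  obtain ⟨v4, -, -, -, -, -, -, -, -⟩ := w5 _ hqco
  have hty := type_pt hb hS hτ hD hI hTm hT hιz hb7 hbi hc1 hδ hδc W w3 hWι hWι'
  have hWq : W (q : F) < 1 := by
    have h1 := (w2 (q : 𝓞 F)).2 hqL
    rwa [map_natCast] at h1
  have hWr : W ((1 + ζ ^ 2) ^ ((q - 1) / 2) - ((-1 : ℤ) ^ y.natAbs : ℤ)) < 1 := by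
    rw [← hzr]
    exact (w2 zr).2 hzL
  have hsh := shift_q hD hI W w3 hq8 hWq hco hqco v1 v4 v2 v3 hty hWr
  obtain ⟨b2, k1, k2, k3, k4⟩ := at_q hb hnc hS hτ hD hI hT4 hT hιz hb7 hbi S0 S1 c2 c4 h8 q1 r
    hr1 hr2 hqa hq8 hk1 hk2 hc1 hcg hδc W w3 hWι hWι' hsh
  have hδo : OddI (Ideal.span {δ}) := by
    rw [hδc]
    have hcjo : OddI (cj τ c) := by
      unfold OddI
      rw [hcn]
      exact hco
    exact oddI_mul'.2 ⟨oddI_mul'.2 ⟨oddI_of_one (hnorm b hb7), hcjo⟩, hcjo⟩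
  exact no_both hb hS hτ hD hI b1 b2 m1 k1 (fun j => by rw [m2, k2]) hδo m3 k3 m4 k4

theorem main_pq {p q : ℕ} (hp : p.Prime) (hq : q.Prime) (hp8 : p % 8 = 1) (hq8 : q % 8 = 5)
    (hc : (-4 : ZMod p) ^ ((p - 1) / 8) = -1) : IsCongruent (p * q) := by
  have hpF : Fact p.Prime := ⟨hp⟩
  have hqF : Fact q.Prime := ⟨hq⟩
  have hpq : p ≠ q := by
    rintro rfl
    omega
  have hsf : Squarefree (p * q) := by
    rw [Nat.squarefree_mul ((Nat.coprime_primes hp hq).2 hpq)]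
    exact ⟨hp.prime.squarefree, hq.prime.squarefree⟩
  have ha : (p * q) % 8 = 5 := by
    rw [Nat.mul_mod, hp8, hq8]
  obtain ⟨K, _, _, s, hb⟩ := Rf.exists_base hsf ha
  by_cases h8 : 8 ∣ Fintype.card (ClassGroup (𝓞 K))
  swap
  · exact main8 hb h8
  by_contra hnc
  obtain ⟨S, hS, hQ⟩ := exists_Q5 hb
  obtain ⟨τ, hτ, -, -⟩ := Rf.exists_cj hb hS
  obtain ⟨χ, hχ⟩ := exists_quart (p := p) (by omega)
  obtain ⟨θ, hθ⟩ := exists_quart (p := q) (by omega)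
  obtain ⟨nu, hlaw, hnu⟩ := exists_law hp8 hq8 hχ hθ
  obtain ⟨F, _, _, _, _, _, _, ζ, w, X, Y, V, U, κ, e, hD⟩ := exists_qdat hb
    (fun _ => (orient hb).1) hS hτ hp.ne_zero hlaw
  exact core hp8 hq8 rfl hb hnc h8 hS hτ hχ hθ hnu hD hc

end Pool.Agent.Work.MP_8efaaa_nt.W5
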