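import Mathlib
import Pool.Agent.Work.MP_8efaaa_nt.W5.GMain

/-!
# W5/Fin: the theorem with the eighth power condition
-/

set_option autoImplicit false

namespace Pool.Agent.Work.MP_8efaaa_nt.W5

/-- if `-4` is not an eighth power modulo `p`, then `(-4) ^ ((p - 1) / 8) = -1` -/
theorem pow_of_not {p : ℕ} (hp : p.Prime) (hp8 : p % 8 = 1)
    (h : ¬ ∃ x : ZMod p, x ^ 8 = -4) : (-4 : ZMod p) ^ ((p - 1) / 8) = -1 := by
  have hpF : Fact p.Prime := ⟨hp⟩
  obtain ⟨m, hm⟩ : ∃ m, p = 8 * m + 1 := ⟨p / 8, by omega⟩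
  have hm' : (p - 1) / 8 = m := by omega
  rw [hm']
  have h2 : (2 : ZMod p) ≠ 0 := by
    intro h2
    have h' : ((2 : ℕ) : ZMod p) = 0 := by exact_mod_cast h2
    rw [ZMod.natCast_eq_zero_iff] at h'
    have := (Nat.prime_dvd_prime_iff_eq hp Nat.prime_two).1 h'
    omega
  have h4 : (-4 : ZMod p) ≠ 0 := by
    have : (-4 : ZMod p) = -(2 * 2) := by norm_num
    rw [this]
    exact neg_ne_zero.2 (mul_ne_zero h2 h2)
  -- `-4` is a fourth power
  obtain ⟨y, hy⟩ := (ZMod.exists_sq_eq_neg_one_iff (p := p)).2 (by omega)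
  have h5 : (-4 : ZMod p) = (1 + y) ^ 4 := by
    have e2 : (1 + y) ^ 4 = (1 + 2 * y + y * y) * (1 + 2 * y + y * y) := by ring
    rw [e2, ← hy]
    linear_combination 4 * hy
  have hy0 : (1 + y) ≠ 0 := by
    intro h0
    rw [h0, zero_pow (by norm_num)] at h5
    exact h4 h5
  have h6 : ((-4 : ZMod p) ^ m) ^ 2 = 1 := by
    rw [← pow_mul, h5, ← pow_mul]
    have := ZMod.pow_card_sub_one_eq_one hy0
    have e : 4 * (m * 2) = p - 1 := by omega
    rw [e]
    exact this
  rw [pow_two] at h6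
  rcases mul_self_eq_one_iff.1 h6 with h7 | h7
  · exfalso
    apply h
    -- a generator
    obtain ⟨g, hg⟩ := IsCyclic.exists_generator (α := (ZMod p)ˣ)
    obtain ⟨k, hk⟩ := Subgroup.mem_zpowers_iff.1 (hg (Units.mk0 _ h4))
    have hord : orderOf g = p - 1 := by
      rw [orderOf_eq_card_of_forall_mem_zpowers hg, Nat.card_eq_fintype_card, ZMod.card_units]
    have h8 : g ^ (k * m) = 1 := by
      rw [zpow_mul, hk, zpow_natCast]
      apply Units.ext
      rw [Units.val_pow_eq_pow_val, Units.val_mk0, h7, Units.val_one]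
    have h9 : ((p - 1 : ℕ) : ℤ) ∣ k * m := by
      rw [← hord]
      exact orderOf_dvd_iff_zpow_eq_one.2 h8
    have hm0 : (m : ℤ) ≠ 0 := by
      intro h0
      have : m = 0 := by exact_mod_cast h0
      rw [this] at hm
      have := hp.one_lt
      omega
    have h10 : (8 : ℤ) ∣ k := by
      have e : ((p - 1 : ℕ) : ℤ) = 8 * m := by
        have : p - 1 = 8 * m := by omega
        rw [this]
        push_cast
        ring
      rw [e] at h9
      exact (mul_dvd_mul_iff_right hm0).1 h9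
    obtain ⟨j, rfl⟩ := h10
    refine ⟨((g ^ j : (ZMod p)ˣ) : ZMod p), ?_⟩
    have h11 := congrArg (Units.val) hk
    rw [Units.val_mk0, mul_comm, zpow_mul] at h11
    rw [← h11]
    have h12 : (g ^ j) ^ (8 : ℤ) = (g ^ j) ^ (8 : ℕ) := by
      exact_mod_cast zpow_natCast (g ^ j) 8
    rw [h12, Units.val_pow_eq_pow_val]
  · exact h7

theorem fin_pq {p q : ℕ} (hp : p.Prime) (hq : q.Prime) (hp8 : p % 8 = 1) (hq8 : q % 8 = 5)
    (h : ¬ ∃ x : ZMod p, x ^ 8 = -4) : IsCongruent (p * q) :=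
  main_pq hp hq hp8 hq8 (pow_of_not hp hp8 h)

end Pool.Agent.Work.MP_8efaaa_nt.W5
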