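import Mathlib
import Pool.Agent.Work.MP_8efaaa_nt.W5.Defs
import Pool.Agent.Work.MP_8efaaa_nt.W5.TFr
import Pool.Agent.Work.MP_8efaaa_nt.N5.ETor
import Pool.Agent.Work.MP_8efaaa_nt.N5.DRed
import Pool.Agent.Work.MP_8efaaa_nt.N5.EIR

/-!
# W5/GP (M): the sum at the prime `p`

`A c = gpi I (PP c)`, `m = mI S a`, `g = kl (cj m * b) ∈ S0`, `g ∉ S1`, `n = absNorm m = (1 + a)/2` odd. PROOF. `b' C := if C ∈ S1 then r C else cj m * b * cj (r (g * C⁻¹))`. For `C ∈ S0`, `C ∉ S1`: `g * C⁻¹ ∈ S1` (inverse of `g⁻¹ * C`, `h3`). `star` (W5/TFr): norm `1 (mod 4)`,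
`kl (b' C) = g * (kl (r (g C⁻¹)))⁻¹ = C`, and `A (cj m * b * cj (r D)) = I T - gal ι (A (r D))`. Sum over `S0` = sum over `S1` + sum over `g S1` (`sum_two` is private in N5/EIR.lean: copy it); `b' (g C) = cj m * b * cj (r (C⁻¹))` for `C ∈ S1` (`g C ∉ S1`), and `C ↦ C⁻¹` is a permutation of `S1`. So
`gpi I (∑ PP (b' C)) = ∑_{S1} A (r C) + ∑_{S1} (I T - gal ι (A (r C))) = card S1 • I T + (R - gal ι R)`, `R = ∑_{S1} A (r C)`. `half_tor` (N5/ETor) for `b'`: `gpi^4 (∑ PP (b' C)) = 0`, so `4 • ∑ PP (b' C) = 0` (`hI.gmod.gpi_four`), so `4 • gpi I (..) = 0`, and `4 • I T = 0`: `4 • (gal ι R - R) = 0`, `red` (N5/DRed): `gal ι R = R`.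
Norms: `∏ absNorm (b' C) = (∏_{S1} N (r C))^2 (n N b)^(card S1)`, `card S1 = h / 4` is even, all factors odd: squares of odd numbers are `1 (mod 8)`.
-/

set_option autoImplicit false

namespace Pool.Agent.Work.MP_8efaaa_nt.W5

open NumberField Pool.Agent.Work.MP_8efaaa_nt.R Pool.Agent.Work.MP_8efaaa_nt.N5
open scoped Classical nonZeroDivisors

/-- sum over a subgroup of index two -/
private theorem sum_two {G : Type*} [CommGroup G] [Fintype G] {V : Type*} [AddCommMonoid V]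
    (S0 S1 : Subgroup G) (hle : S1 ≤ S0) (g : G) (hg0 : g ∈ S0) (hg1 : g ∉ S1)
    (h3 : ∀ C : G, C ∈ S0 → C ∉ S1 → g⁻¹ * C ∈ S1) (f : G → V) :
    ∑ C : S0, f C = ∑ C : S1, f C + ∑ C : S1, f (g * C) := by
  have e3 : ∑ C ∈ Finset.univ.filter (fun x => x ∈ S1), f (g * C) =
      ∑ C ∈ (Finset.univ.filter fun x => x ∈ S1).image (fun C => g * C), f C := by
    rw [Finset.sum_image]
    intro x _ y _ hxy
    exact mul_left_cancel hxy
  have e4 : (Finset.univ.filter fun x => x ∈ S0) = (Finset.univ.filter fun x => x ∈ S1) ∪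
      (Finset.univ.filter fun x => x ∈ S1).image (fun C => g * C) := by
    ext C
    simp only [Finset.mem_filter, Finset.mem_univ, true_and, Finset.mem_union, Finset.mem_image]
    constructor
    · intro hC
      by_cases hC1 : C ∈ S1
      · exact Or.inl hC1
      · exact Or.inr ⟨g⁻¹ * C, h3 C hC hC1, by rw [mul_inv_cancel_left]⟩
    · rintro (hC | ⟨D, hD, rfl⟩)
      · exact hle hC
      · exact S0.mul_mem hg0 (hle hD)
  have e5 : Disjoint (Finset.univ.filter fun x => x ∈ S1)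
      ((Finset.univ.filter fun x => x ∈ S1).image (fun C => g * C)) := by
    rw [Finset.disjoint_left]
    intro C hC hC'
    simp only [Finset.mem_filter, Finset.mem_univ, true_and, Finset.mem_image] at hC hC'
    obtain ⟨D, hD, rfl⟩ := hC'
    have := S1.mul_mem hC (S1.inv_mem hD)
    rw [mul_inv_cancel_right] at this
    exact hg1 this
  have e6 : ∑ C ∈ Finset.univ.filter (fun x => x ∈ S0), f C = ∑ C : S0, f C :=
    Finset.sum_subtype (p := fun x => x ∈ S0) _ (fun x => by simp) f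
  have e7 : ∑ C ∈ Finset.univ.filter (fun x => x ∈ S1), f C = ∑ C : S1, f C :=
    Finset.sum_subtype (p := fun x => x ∈ S1) _ (fun x => by simp) f
  have e8 : ∑ C ∈ Finset.univ.filter (fun x => x ∈ S1), f (g * C) = ∑ C : S1, f (g * C) :=
    Finset.sum_subtype (p := fun x => x ∈ S1) _ (fun x => by simp) (fun C => f (g * C))
  rw [← e6, ← e7, ← e8, e3, e4, Finset.sum_union e5]

/-- product over a subgroup of index two -/
private theorem prod_two {G : Type*} [CommGroup G] [Fintype G]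
    (S0 S1 : Subgroup G) (hle : S1 ≤ S0) (g : G) (hg0 : g ∈ S0) (hg1 : g ∉ S1)
    (h3 : ∀ C : G, C ∈ S0 → C ∉ S1 → g⁻¹ * C ∈ S1) (f : G → ℕ) :
    ∏ C : S0, f C = (∏ C : S1, f C) * ∏ C : S1, f (g * C) :=
  sum_two (V := Additive ℕ) S0 S1 hle g hg0 hg1 h3 f

private theorem prod_mod4 {J : Type*} (T : Finset J) (f : J → ℕ) (h : ∀ j ∈ T, f j % 4 = 1) :
    (∏ j ∈ T, f j) % 4 = 1 := by
  induction T using Finset.induction_on with
  | empty => rfl
  | insert j T hj ih =>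
    rw [Finset.prod_insert hj, Nat.mul_mod, h j (Finset.mem_insert_self _ _),
      ih fun k hk => h k (Finset.mem_insert_of_mem hk)]

private theorem sq_mod8 {n : ℕ} (h : n % 4 = 1) : (n * n) % 8 = 1 := by
  have : n % 8 = 1 ∨ n % 8 = 5 := by omega
  rcases this with h | h <;> rw [Nat.mul_mod, h]

private theorem pow_mod8 {n k : ℕ} (h : n % 4 = 1) (hk : Even k) : (n ^ k) % 8 = 1 := by
  obtain ⟨j, rfl⟩ := hk
  rw [← two_mul, pow_mul, Nat.pow_mod, pow_two, sq_mod8 h, one_pow, Nat.mod_eq_of_lt (by norm_num)]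

theorem at_p {K : Type*} {F : Type*} [Field K] [NumberField K] [Field F] [NumberField F]
    [Algebra K F] [FiniteDimensional K F] [IsGalois K F] {a d : ℕ} {s : K} (hb : Base5 K a s)
    (hnc : ¬ IsCongruent a) {S : 𝓞 K} (hS : algebraMap (𝓞 K) K S = s) {τ : 𝓞 K ≃+* 𝓞 K}
    (hτ : τ S = -S) {ζ w : F} {X Y V U : Ideal (𝓞 K) → F} {κ : F ≃ₐ[ℚ] F}
    (h : IDat K F a d s S τ ζ w X Y V U κ)
    {I : (cQ F).Point →+ (cQ F).Point} (hI : CMI (ζ ^ 2) I) {T : (cQ F).Point}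
    (hT4 : (4 : ℤ) • T = 0)
    (hT : ∀ c, Ideal.absNorm c % 4 = 1 →
      gpi I (PP h.gd (mI S a * c)) = I (gpi I (PP h.gd c)) + T)
    {ι : F ≃ₐ[ℚ] F} {L : Ideal (𝓞 F)} (hin : Inert ι L) (hz : ι ζ = ζ) {b : Ideal (𝓞 K)}
    (hb7 : Ideal.absNorm b % 8 = 7)
    (hi1 : ∀ c, Ideal.absNorm c % 4 = 1 → gal ι (PP h.gd c) = I (PP h.gd (b * cj τ c)))
    (S0 S1 : Subgroup (ClassGroup (𝓞 K))) (hle : S1 ≤ S0)
    (h0 : 2 * Nat.card S0 = Fintype.card (ClassGroup (𝓞 K)))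
    (h4 : 4 * Nat.card S1 = Fintype.card (ClassGroup (𝓞 K)))
    (h8 : 8 ∣ Fintype.card (ClassGroup (𝓞 K)))
    (h1 : ∀ b : Ideal (𝓞 K), Ideal.absNorm b % 4 = 1 → kl b ∈ S0)
    (h3 : ∀ C g : ClassGroup (𝓞 K), C ∈ S0 → g ∈ S0 → g ∉ S1 → C ∉ S1 → g⁻¹ * C ∈ S1)
    (hg : kl (cj τ (mI S a) * b) ∉ S1)
    (r : ClassGroup (𝓞 K) → Ideal (𝓞 K)) (hr1 : ∀ C ∈ S0, Ideal.absNorm (r C) % 4 = 1)
    (hr2 : ∀ C ∈ S0, kl (r C) = C) :
    ∃ b' : S0 → Ideal (𝓞 K), (∀ C, Ideal.absNorm (b' C) % 4 = 1) ∧ (∀ C, kl (b' C) = C) ∧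
      (∏ C, Ideal.absNorm (b' C)) % 8 = 1 ∧
      gpi I (∑ C, PP h.gd (b' C)) = (Nat.card S1 : ℤ) • I T := by
  have hS1 : ∀ C : S1, (C : ClassGroup (𝓞 K)) ∈ S0 := fun C => hle C.2
  have hnm := norm_mI hb hS
  have ha5 := hb.mod
  obtain ⟨m1, -, -⟩ := norm_cj hb hS hτ (mI S a)
  have hg4 : Ideal.absNorm (cj τ (mI S a) * b) % 4 = 1 := by
    rw [map_mul, m1, hnm, Nat.mul_mod]
    have e1 : Ideal.absNorm b % 4 = 3 := by omega
    have e2 : (1 + a) / 2 % 4 = 3 := by omega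
    rw [e1, e2]
  have hst := fun {c : Ideal (𝓞 K)} (hc : Ideal.absNorm c % 4 = 1) =>
    star hb hS hτ h hI hT hz hb7 hi1 hc
  generalize hm' : cj τ (mI S a) * b = m' at hg hg4 hst
  have hg0 : kl m' ∈ S0 := h1 _ hg4
  generalize hgm : kl m' = g at hg hg0 hst
  -- the ideals
  obtain ⟨B, hB⟩ : ∃ B : ClassGroup (𝓞 K) → Ideal (𝓞 K), ∀ C, B C =
      if C ∈ S1 then r C else m' * cj τ (r (g * C⁻¹)) := ⟨_, fun _ => rfl⟩
  have hB1 : ∀ C : S1, B C = r C := fun C => by rw [hB, if_pos C.2]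
  have hB2 : ∀ C : S1, B (g * C) = m' * cj τ (r (C : ClassGroup (𝓞 K))⁻¹) := fun C => by
    rw [hB, if_neg, mul_inv, mul_inv_cancel_left]
    intro h'
    have := S1.mul_mem h' (S1.inv_mem C.2)
    rw [mul_inv_cancel_right] at this
    exact hg this
  have hcase : ∀ C ∈ S0, C ∉ S1 → g * C⁻¹ ∈ S1 := fun C hC hC' => by
    have := S1.inv_mem (h3 C g hC hg0 hg hC')
    rw [mul_inv, inv_inv] at this
    exact this
  have hBn : ∀ C ∈ S0, Ideal.absNorm (B C) % 4 = 1 := fun C hC => by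
    rw [hB]
    split_ifs with hC1
    · exact hr1 C hC
    · exact (hst (hr1 _ (hle (hcase C hC hC1)))).1
  have hBk : ∀ C ∈ S0, kl (B C) = C := fun C hC => by
    rw [hB]
    split_ifs with hC1
    · exact hr2 C hC
    · rw [(hst (hr1 _ (hle (hcase C hC hC1)))).2.1, hr2 _ (hle (hcase C hC hC1)), mul_inv,
        inv_inv, mul_inv_cancel_left]
  have h3' : ∀ C : ClassGroup (𝓞 K), C ∈ S0 → C ∉ S1 → g⁻¹ * C ∈ S1 := fun C hC hC' =>
    h3 C g hC hg0 hg hC'
  refine ⟨fun C => B C, fun C => hBn C C.2, fun C => hBk C C.2, ?_, ?_⟩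
  · have e1 := prod_two S0 S1 hle g hg0 hg h3' (fun C => Ideal.absNorm (B C))
    rw [e1]
    have e2 : ∏ C : S1, Ideal.absNorm (B C) = ∏ C : S1, Ideal.absNorm (r C) :=
      Finset.prod_congr rfl fun C _ => by rw [hB1]
    have e3 : ∏ C : S1, Ideal.absNorm (B (g * C)) =
        Ideal.absNorm m' ^ Nat.card S1 * ∏ C : S1, Ideal.absNorm (r C) := by
      have e4 : ∀ C : S1, Ideal.absNorm (B (g * C)) =
          Ideal.absNorm m' * Ideal.absNorm (r (C : ClassGroup (𝓞 K))⁻¹) := fun C => by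
        rw [hB2, map_mul, (norm_cj hb hS hτ _).1]
      rw [Finset.prod_congr rfl fun C _ => e4 C, Finset.prod_mul_distrib, Finset.prod_const,
        Finset.card_univ, Nat.card_eq_fintype_card]
      congr 1
      exact Fintype.prod_equiv (Equiv.inv S1) _ _ fun C => rfl
    rw [e2, e3]
    have e5 : (∏ C : S1, Ideal.absNorm (r C)) % 4 = 1 :=
      prod_mod4 _ _ fun C _ => hr1 C (hS1 C)
    have e6 : Even (Nat.card S1) := by
      rw [Nat.even_iff]
      omega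
    rw [mul_left_comm, Nat.mul_mod, sq_mod8 e5, pow_mod8 hg4 e6]
  · have s1 := sum_two S0 S1 hle g hg0 hg h3' (fun C => PP h.gd (B C))
    have s2 := half_tor hb h.gd hnc hI S0 h0 h1 (fun C => B C) (fun C => hBn C C.2)
      (fun C => hBk C C.2)
    rw [hI.gmod.gpi_four, neg_eq_zero] at s2
    obtain ⟨R, hR⟩ : ∃ R : (cQ F).Point, ∑ C : S1, gpi I (PP h.gd (r C)) = R := ⟨_, rfl⟩
    have s3 : ∑ C : S1, gpi I (PP h.gd (B (g * C))) = (Nat.card S1 : ℤ) • I T - gal ι R := by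
      have e1 : ∀ C : S1, gpi I (PP h.gd (B (g * C))) =
          I T - gal ι (gpi I (PP h.gd (r (C : ClassGroup (𝓞 K))⁻¹))) := fun C => by
        have hC := (hst (hr1 _ (S0.inv_mem (hS1 C)))).2.2
        rw [← hB2] at hC
        exact eq_sub_of_add_eq' hC
      rw [Finset.sum_congr rfl fun C _ => e1 C, Finset.sum_sub_distrib, Finset.sum_const,
        Finset.card_univ, Nat.card_eq_fintype_card, natCast_zsmul, ← hR, map_sum]
      congr 1
      exact Fintype.sum_equiv (Equiv.inv S1) _ _ fun C => rfl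
    have s4 : gpi I (∑ C : S0, PP h.gd (B C)) =
        (Nat.card S1 : ℤ) • I T + (R - gal ι R) := by
      rw [s1, map_add, map_sum, map_sum, s3, ← hR]
      have e1 : ∑ C : S1, gpi I (PP h.gd (B C)) = ∑ C : S1, gpi I (PP h.gd (r C)) :=
        Finset.sum_congr rfl fun C _ => by rw [hB1]
      rw [e1]
      abel
    have s5 : (4 : ℤ) • (gal ι R - R) = 0 := by
      have e1 : gal ι R - R = (Nat.card S1 : ℤ) • I T - gpi I (∑ C : S0, PP h.gd (B C)) := by
        rw [s4]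
        abel
      have e2 : (4 : ℤ) • ((Nat.card S1 : ℤ) • I T) = 0 := by
        rw [smul_comm, ← map_zsmul, hT4, map_zero, smul_zero]
      rw [e1, smul_sub, e2, ← map_zsmul, s2, map_zero, sub_zero]
    have s6 := red hin R s5
    show gpi I (∑ C : S0, PP h.gd (B C)) = _
    rw [s4, s6, sub_self, add_zero]

end Pool.Agent.Work.MP_8efaaa_nt.W5
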